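import Pool.Agent.SplW.Semi

/-!
# Module BO: the base lemma from one special position

PAPER PROOF.  `gl M`: the substitution on `X 0, X 1` by an invertible 2x2 matrix (`X 2` fixed) maps `vt d ↦ vt (M d)`, `ln d ↦ ln (M d)` and preserves degrees and
`degreeOf 2`; so `Pair` is invariant (`pair_gl`).  `pair_scale`: `vt (λ b) = λ vt b` generates the same ideals.
`base_of_special`: (1) `R = ℤ[x_1..x_10]`, `ψ` = the special position in `F` (char 0): `pair_semi` gives `q ∈ R`, `ψ q ≠ 0`, so `q ≠ 0`.  (2) for a field `K` of char 0 (infinite)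
there is a point of `K ^ 10` where `q`, `dt b c`, `dt b e`, `dt c e`, `dt dᵢ ..`, `dt d₁ e - dt d₂ e` are not zero; so `Pair` holds at `(d₁', d₂', b', c', e')` over `K` with three
different nodes.  (3) For given `b, c, e` over `K` (pairwise independent) there are an invertible matrix `M` and scalars with `M b' ~ b`, `M c' ~ c`, `M e' ~ e`
(`M b' = λ b`, `M c' = μ c`, `e' = x b' + y c'`, `e = u b + v c`, so take `λ = u / x`, `μ = v / y`): `Pair` holds at `(M d₁', M d₂', b, c, e)`.  (4) apply `pair_semi` again with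
`R = K[x_1..x_4]`, `d₁ = (x_1, x_2)`, `d₂ = (x_3, x_4)`, `b, c, e` constants, `ψ` = evaluation at `(M d₁', M d₂')`.
-/

set_option autoImplicit false

namespace Pool.Agent.SplW

open MvPolynomial

/-- apply a matrix to a position -/
def mu2 {K : Type*} [Field K] (m : Fin 2 → Fin 2 → K) (d : Fin 2 → K) : Fin 2 → K :=
  fun i => m i 0 * d 0 + m i 1 * d 1

section aux

variable {K : Type*} [Field K]

/-- the images of the variables -/
noncomputable def glv (m : Fin 2 → Fin 2 → K) : Fin 3 → MvPolynomial (Fin 3) K :=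
  ![C (m 0 0) * X 0 + C (m 1 0) * X 1, C (m 0 1) * X 0 + C (m 1 1) * X 1, X 2]

/-- the substitution by a matrix -/
noncomputable def gl (m : Fin 2 → Fin 2 → K) : MvPolynomial (Fin 3) K →ₐ[K] MvPolynomial (Fin 3) K :=
  aeval (glv m)

theorem gl_X0 (m : Fin 2 → Fin 2 → K) : gl m (X 0) = C (m 0 0) * X 0 + C (m 1 0) * X 1 := by
  unfold gl
  rw [aeval_X]
  rfl

theorem gl_X1 (m : Fin 2 → Fin 2 → K) : gl m (X 1) = C (m 0 1) * X 0 + C (m 1 1) * X 1 := by
  unfold gl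
  rw [aeval_X]
  rfl

theorem gl_X2 (m : Fin 2 → Fin 2 → K) : gl m (X 2) = X 2 := by
  unfold gl
  rw [aeval_X]
  rfl

theorem gl_C (m : Fin 2 → Fin 2 → K) (a : K) : gl m (C a) = C a := by
  unfold gl
  rw [aeval_C]
  rfl

theorem gl_vt (m : Fin 2 → Fin 2 → K) (d : Fin 2 → K) : gl m (vt d) = vt (mu2 m d) := by
  unfold vt mu2
  rw [map_add, map_mul, map_mul, gl_C, gl_C, gl_X0, gl_X1]
  simp only [C_add, C_mul]
  ring

theorem gl_ln (m : Fin 2 → Fin 2 → K) (d : Fin 2 → K) : gl m (ln d) = ln (mu2 m d) := by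
  unfold ln
  rw [map_add, gl_vt, gl_X2]

theorem gl_hom (m : Fin 2 → Fin 2 → K) {k : ℕ} {p : MvPolynomial (Fin 3) K}
    (hp : p.IsHomogeneous k) : (gl m p).IsHomogeneous k := by
  have h1 : ∀ i, (glv m i).IsHomogeneous 1 := by
    intro i
    have hC : ∀ (a : K) (j : Fin 3), (C a * X j : MvPolynomial (Fin 3) K).IsHomogeneous 1 := by
      intro a j
      have := (isHomogeneous_C (Fin 3) a).mul (isHomogeneous_X K j)
      simpa using this
    fin_cases i
    · exact (hC _ 0).add (hC _ 1)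
    · exact (hC _ 0).add (hC _ 1)
    · exact isHomogeneous_X K 2
  have := hp.aeval (glv m) h1
  simpa [gl] using this

theorem gl_deg (m : Fin 2 → Fin 2 → K) (p : MvPolynomial (Fin 3) K) :
    degreeOf 2 (gl m p) ≤ degreeOf 2 p := by
  classical
  have hC : ∀ (a : K) (j : Fin 3), j ≠ 2 →
      degreeOf 2 (C a * X j : MvPolynomial (Fin 3) K) = 0 := by
    intro a j hj
    have h1 := degreeOf_mul_le (2 : Fin 3) (C a : MvPolynomial (Fin 3) K) (X j)
    have h2 : degreeOf 2 (X j : MvPolynomial (Fin 3) K) = 0 := by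
      rw [degreeOf_X, if_neg (fun h => hj h.symm)]
    rw [degreeOf_C, h2] at h1
    omega
  have hadd : ∀ (a b : K), degreeOf 2 (C a * X 0 + C b * X 1 : MvPolynomial (Fin 3) K) = 0 := by
    intro a b
    have h1 := degreeOf_add_le (2 : Fin 3) (C a * X 0 : MvPolynomial (Fin 3) K) (C b * X 1)
    rw [hC a 0 (by decide), hC b 1 (by decide)] at h1
    simpa using h1
  have h0 : degreeOf 2 (glv m 0) = 0 := hadd _ _
  have h1 : degreeOf 2 (glv m 1) = 0 := hadd _ _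
  have h2 : degreeOf 2 (glv m 2) ≤ 1 := by
    have : glv m 2 = X 2 := rfl
    rw [this, degreeOf_X]
    simp
  have e1 : gl m p = ∑ d ∈ p.support, C (coeff d p) * ∏ i, glv m i ^ d i := by
    unfold gl
    rw [aeval_def, eval₂_eq']
    rfl
  rw [e1]
  refine (degreeOf_sum_le _ _ _).trans (Finset.sup_le fun d hd => ?_)
  refine (degreeOf_mul_le _ _ _).trans ?_
  rw [degreeOf_C, zero_add]
  refine (degreeOf_prod_le _ _ _).trans ?_
  rw [Fin.sum_univ_three]
  have p0 := degreeOf_pow_le (2 : Fin 3) (glv m 0) (d 0)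
  have p1 := degreeOf_pow_le (2 : Fin 3) (glv m 1) (d 1)
  have p2 := degreeOf_pow_le (2 : Fin 3) (glv m 2) (d 2)
  rw [h0, mul_zero] at p0
  rw [h1, mul_zero] at p1
  have p3 : d 2 * degreeOf 2 (glv m 2) ≤ d 2 * 1 := Nat.mul_le_mul_left _ h2
  have p4 : d 2 ≤ degreeOf 2 p := by
    by_contra hc
    push Not at hc
    exact notMem_support_of_degreeOf_lt 2 hc hd
  omega

theorem gl_J (m : Fin 2 → Fin 2 → K) {ρ a b : ℕ} {x y p : MvPolynomial (Fin 3) K}
    (h : p ∈ J ρ a b x y) : gl m p ∈ J ρ a b (gl m x) (gl m y) := by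
  have h1 : gl m p ∈ (J ρ a b x y).map (gl m).toRingHom :=
    Ideal.mem_map_of_mem (gl m).toRingHom h
  have h2 : (J ρ a b x y).map (gl m).toRingHom = J ρ a b (gl m x) (gl m y) := by
    unfold J
    rw [Ideal.map_sup, Ideal.map_sup, Ideal.map_pow, Ideal.map_span, Ideal.map_span,
      Ideal.map_span, Set.image_pair, Set.image_singleton, Set.image_singleton]
    simp only [AlgHom.toRingHom_eq_coe, RingHom.coe_coe, map_pow]
  rwa [h2] at h1

theorem gl_gl {m n : Fin 2 → Fin 2 → K} (h00 : m 0 0 * n 0 0 + m 0 1 * n 1 0 = 1)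
    (h01 : m 0 0 * n 0 1 + m 0 1 * n 1 1 = 0) (h10 : m 1 0 * n 0 0 + m 1 1 * n 1 0 = 0)
    (h11 : m 1 0 * n 0 1 + m 1 1 * n 1 1 = 1) (p : MvPolynomial (Fin 3) K) :
    gl m (gl n p) = p := by
  have h : (gl m).comp (gl n) = AlgHom.id K _ := by
    apply MvPolynomial.algHom_ext
    intro i
    have g1 : C (n 0 0) * (C (m 0 0) * X 0 + C (m 1 0) * X 1) +
        C (n 1 0) * (C (m 0 1) * X 0 + C (m 1 1) * X 1) = (X 0 : MvPolynomial (Fin 3) K) := by
      have e : C (n 0 0) * (C (m 0 0) * X 0 + C (m 1 0) * X 1) +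
          C (n 1 0) * (C (m 0 1) * X 0 + C (m 1 1) * X 1) =
          C (m 0 0 * n 0 0 + m 0 1 * n 1 0) * (X 0 : MvPolynomial (Fin 3) K) +
          C (m 1 0 * n 0 0 + m 1 1 * n 1 0) * X 1 := by
        simp only [C_add, C_mul]
        ring
      rw [e, h00, h10]
      simp
    have g2 : C (n 0 1) * (C (m 0 0) * X 0 + C (m 1 0) * X 1) +
        C (n 1 1) * (C (m 0 1) * X 0 + C (m 1 1) * X 1) = (X 1 : MvPolynomial (Fin 3) K) := by
      have e : C (n 0 1) * (C (m 0 0) * X 0 + C (m 1 0) * X 1) +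
          C (n 1 1) * (C (m 0 1) * X 0 + C (m 1 1) * X 1) =
          C (m 0 0 * n 0 1 + m 0 1 * n 1 1) * (X 0 : MvPolynomial (Fin 3) K) +
          C (m 1 0 * n 0 1 + m 1 1 * n 1 1) * X 1 := by
        simp only [C_add, C_mul]
        ring
      rw [e, h01, h11]
      simp
    fin_cases i
    · change gl m (gl n (X 0)) = X 0
      rw [gl_X0, map_add, map_mul, map_mul, gl_C, gl_C, gl_X0, gl_X1]
      exact g1
    · change gl m (gl n (X 1)) = X 1
      rw [gl_X1, map_add, map_mul, map_mul, gl_C, gl_C, gl_X0, gl_X1]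
      exact g2
    · change gl m (gl n (X 2)) = X 2
      rw [gl_X2, gl_X2]
  exact congrArg (fun f : MvPolynomial (Fin 3) K →ₐ[K] MvPolynomial (Fin 3) K => f p) h

theorem exists_inv (m : Fin 2 → Fin 2 → K) (hm : m 0 0 * m 1 1 - m 0 1 * m 1 0 ≠ 0) :
    ∃ n : Fin 2 → Fin 2 → K, (∀ p, gl m (gl n p) = p) ∧ (∀ p, gl n (gl m p) = p) ∧
      ∀ d, mu2 n (mu2 m d) = d := by
  set D := m 0 0 * m 1 1 - m 0 1 * m 1 0 with hD
  refine ⟨![![m 1 1 / D, -m 0 1 / D], ![-m 1 0 / D, m 0 0 / D]], ?_, ?_, ?_⟩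
  · intro p
    apply gl_gl
    · change m 0 0 * (m 1 1 / D) + m 0 1 * (-m 1 0 / D) = 1
      field_simp
      rw [hD]; ring
    · change m 0 0 * (-m 0 1 / D) + m 0 1 * (m 0 0 / D) = 0
      field_simp
      ring
    · change m 1 0 * (m 1 1 / D) + m 1 1 * (-m 1 0 / D) = 0
      field_simp
      ring
    · change m 1 0 * (-m 0 1 / D) + m 1 1 * (m 0 0 / D) = 1
      field_simp
      rw [hD]; ring
  · intro p
    apply gl_gl
    · change (m 1 1 / D) * m 0 0 + (-m 0 1 / D) * m 1 0 = 1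
      field_simp
      rw [hD]; ring
    · change (m 1 1 / D) * m 0 1 + (-m 0 1 / D) * m 1 1 = 0
      field_simp
      ring
    · change (-m 1 0 / D) * m 0 0 + (m 0 0 / D) * m 1 0 = 0
      field_simp
      ring
    · change (-m 1 0 / D) * m 0 1 + (m 0 0 / D) * m 1 1 = 1
      field_simp
      rw [hD]; ring
  · intro d
    funext i
    fin_cases i
    · change (m 1 1 / D) * (m 0 0 * d 0 + m 0 1 * d 1) +
        (-m 0 1 / D) * (m 1 0 * d 0 + m 1 1 * d 1) = d 0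
      field_simp
      rw [hD]; ring
    · change (-m 1 0 / D) * (m 0 0 * d 0 + m 0 1 * d 1) +
        (m 0 0 / D) * (m 1 0 * d 0 + m 1 1 * d 1) = d 1
      field_simp
      rw [hD]; ring

theorem J_mono_b {ρ a b : ℕ} {x y x' y' : MvPolynomial (Fin 3) K} (hx : x ∈ Ideal.span {x'})
    (hy : y ∈ Ideal.span {y'}) : J ρ a b x y ≤ J ρ a b x' y' := by
  unfold J
  have hx' : Ideal.span {x'} ≤ (Ideal.span {x', y'} : Ideal (MvPolynomial (Fin 3) K)) :=
    Ideal.span_mono (by simp)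
  have hy' : Ideal.span {y'} ≤ (Ideal.span {x', y'} : Ideal (MvPolynomial (Fin 3) K)) :=
    Ideal.span_mono (by simp)
  refine sup_le_sup (Ideal.pow_right_mono ?_ ρ) (sup_le_sup ?_ ?_)
  · rw [Ideal.span_le]
    rintro z (rfl | hz)
    · exact hx' hx
    · rw [Set.mem_singleton_iff] at hz
      rw [hz]
      exact hy' hy
  · rw [Ideal.span_singleton_le_iff_mem, Ideal.mem_span_singleton]
    exact pow_dvd_pow_of_dvd (Ideal.mem_span_singleton.1 hx) a
  · rw [Ideal.span_singleton_le_iff_mem, Ideal.mem_span_singleton]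
    exact pow_dvd_pow_of_dvd (Ideal.mem_span_singleton.1 hy) b

theorem vt_scale (x : K) (b : Fin 2 → K) : vt (fun i => x * b i) ∈ Ideal.span {vt b} := by
  rw [Ideal.mem_span_singleton]
  refine ⟨C x, ?_⟩
  unfold vt
  simp only [C_mul]
  ring

end aux

theorem pair_gl {K : Type*} [Field K] {ρ W : ℕ} (m : Fin 2 → Fin 2 → K)
    (hm : m 0 0 * m 1 1 - m 0 1 * m 1 0 ≠ 0) {d₁ d₂ b c e : Fin 2 → K}
    (h : Pair ρ W d₁ d₂ b c e) :
    Pair ρ W (mu2 m d₁) (mu2 m d₂) (mu2 m b) (mu2 m c) (mu2 m e) := by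
  obtain ⟨n, h1, h2, h3⟩ := exists_inv m hm
  have eL : ∀ d, gl n (ln (mu2 m d)) = ln d := by
    intro d
    rw [gl_ln, h3]
  have eV : ∀ d, gl n (vt (mu2 m d)) = vt d := by
    intro d
    rw [gl_vt, h3]
  intro M₁ M₂ Zc Ze hM₁ hM₂ hZc hZe dZc dZe c1 c2 c3 c4 c5 c6 c7 c8
  have k1 := gl_J n c1
  have k2 := gl_J n c2
  have k3 := gl_J n c3
  have k4 := gl_J n c4
  have k5 := gl_J n c5
  have k6 := gl_J n c6
  have k7 := gl_J n c7
  have k8 := gl_J n c8
  rw [eL, gl_X2] at k1 k2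
  rw [eV, gl_X2] at k3
  rw [eL, eV] at k4
  rw [eL, eL, map_sub] at k5
  rw [eL, eV, map_sub] at k6 k7 k8
  obtain ⟨r1, r2⟩ := h (gl n M₁) (gl n M₂) (gl n Zc) (gl n Ze) (gl_hom n hM₁) (gl_hom n hM₂)
    (gl_hom n hZc) (gl_hom n hZe) ((gl_deg n Zc).trans_lt dZc) ((gl_deg n Ze).trans_lt dZe)
    k1 k2 k3 k4 k5 k6 k7 k8
  constructor
  · have := map_dvd (gl m) r1
    rwa [map_pow, gl_ln, h1] at this
  · have := map_dvd (gl m) r2
    rwa [map_pow, gl_ln, h1] at this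

theorem pair_scale {K : Type*} [Field K] {ρ W : ℕ} {x y z : K} (hx : x ≠ 0) (hy : y ≠ 0)
    (hz : z ≠ 0) {d₁ d₂ b c e : Fin 2 → K} (h : Pair ρ W d₁ d₂ b c e) :
    Pair ρ W d₁ d₂ (fun i => x * b i) (fun i => y * c i) (fun i => z * e i) := by
  have self : ∀ q : MvPolynomial (Fin 3) K, q ∈ Ideal.span {q} := fun q =>
    Ideal.mem_span_singleton_self q
  intro M₁ M₂ Zc Ze hM₁ hM₂ hZc hZe dZc dZe c1 c2 c3 c4 c5 c6 c7 c8
  exact h M₁ M₂ Zc Ze hM₁ hM₂ hZc hZe dZc dZe c1 c2 (J_mono_b (vt_scale y c) (self _) c3)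
    (J_mono_b (self _) (vt_scale x b) c4) c5 (J_mono_b (self _) (vt_scale y c) c6)
    (J_mono_b (self _) (vt_scale z e) c7) (J_mono_b (self _) (vt_scale z e) c8)

/-- the product of the determinants which should not vanish -/
noncomputable def DD {R : Type*} [CommRing R] (d₁ d₂ b c e : Fin 2 → R) : R :=
  (d₁ 0 * d₂ 1 - d₁ 1 * d₂ 0) * (d₁ 0 * b 1 - d₁ 1 * b 0) * (d₁ 0 * e 1 - d₁ 1 * e 0) *
  (d₂ 0 * c 1 - d₂ 1 * c 0) * (d₂ 0 * e 1 - d₂ 1 * e 0) *
  ((d₁ 0 * e 1 - d₁ 1 * e 0) - (d₂ 0 * e 1 - d₂ 1 * e 0)) *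
  ((b 0 * c 1 - b 1 * c 0) * (b 0 * e 1 - b 1 * e 0) * (c 0 * e 1 - c 1 * e 0))

/-- generic position over `K` with three different nodes -/
theorem generic_of_special {ρ W : ℕ} (hW : 1 ≤ W) (hρ : W < ρ) (h2 : W ≤ 2 * (ρ - W))
    (h : Special ρ W) (K : Type) [Field K] [CharZero K] :
    ∃ d₁ d₂ b c e : Fin 2 → K, Pair ρ W d₁ d₂ b c e ∧ DD d₁ d₂ b c e ≠ 0 := by
  obtain ⟨F, _, _, d₁, d₂, b, c, e, n1, n2, n3, n4, n5, n6, hP⟩ := h
  let R := MvPolynomial (Fin 10) ℤ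
  let D₁ : Fin 2 → R := ![X 0, X 1]
  let D₂ : Fin 2 → R := ![X 2, X 3]
  let B : Fin 2 → R := ![X 4, X 5]
  let C' : Fin 2 → R := ![X 6, X 7]
  let E : Fin 2 → R := ![X 8, X 9]
  let v : Fin 10 → F := ![d₁ 0, d₁ 1, d₂ 0, d₂ 1, b 0, b 1, c 0, c 1, e 0, e 1]
  let ψ : R →+* F := eval₂Hom (Int.castRingHom F) v
  have hX : ∀ i, ψ (X i) = v i := fun i => eval₂Hom_X' _ _ i
  have f1 : (fun i => ψ (D₁ i)) = d₁ := by
    funext i; fin_cases i
    · exact hX 0
    · exact hX 1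
  have f2 : (fun i => ψ (D₂ i)) = d₂ := by
    funext i; fin_cases i
    · exact hX 2
    · exact hX 3
  have f3 : (fun i => ψ (B i)) = b := by
    funext i; fin_cases i
    · exact hX 4
    · exact hX 5
  have f4 : (fun i => ψ (C' i)) = c := by
    funext i; fin_cases i
    · exact hX 6
    · exact hX 7
  have f5 : (fun i => ψ (E i)) = e := by
    funext i; fin_cases i
    · exact hX 8
    · exact hX 9
  obtain ⟨q, hq, hq2⟩ := pair_semi hW hρ h2 D₁ D₂ B C' E ψ (by rw [f1, f2]; exact n1)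
    (by rw [f1, f3]; exact n2) (by rw [f1, f5]; exact n3) (by rw [f2, f4]; exact n4)
    (by rw [f2, f5]; exact n5) (by rw [f1, f2, f5]; exact n6)
    (by rw [f1, f2, f3, f4, f5]; exact hP)
  have hq0 : q ≠ 0 := by
    rintro rfl
    exact hq (map_zero ψ)
  have hDD : DD D₁ D₂ B C' E ≠ 0 := by
    intro h0
    have h1 := congrArg (eval (![1, 2, 3, 5, 1, 1, 0, 1, 1, 0] : Fin 10 → ℤ)) h0
    have e0 : eval (![1, 2, 3, 5, 1, 1, 0, 1, 1, 0] : Fin 10 → ℤ) (X 0 : R) = 1 := by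
      rw [eval_X]; rfl
    have e1 : eval (![1, 2, 3, 5, 1, 1, 0, 1, 1, 0] : Fin 10 → ℤ) (X 1 : R) = 2 := by
      rw [eval_X]; rfl
    have e2 : eval (![1, 2, 3, 5, 1, 1, 0, 1, 1, 0] : Fin 10 → ℤ) (X 2 : R) = 3 := by
      rw [eval_X]; rfl
    have e3 : eval (![1, 2, 3, 5, 1, 1, 0, 1, 1, 0] : Fin 10 → ℤ) (X 3 : R) = 5 := by
      rw [eval_X]; rfl
    have e4 : eval (![1, 2, 3, 5, 1, 1, 0, 1, 1, 0] : Fin 10 → ℤ) (X 4 : R) = 1 := by
      rw [eval_X]; rfl
    have e5 : eval (![1, 2, 3, 5, 1, 1, 0, 1, 1, 0] : Fin 10 → ℤ) (X 5 : R) = 1 := by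
      rw [eval_X]; rfl
    have e6 : eval (![1, 2, 3, 5, 1, 1, 0, 1, 1, 0] : Fin 10 → ℤ) (X 6 : R) = 0 := by
      rw [eval_X]; rfl
    have e7 : eval (![1, 2, 3, 5, 1, 1, 0, 1, 1, 0] : Fin 10 → ℤ) (X 7 : R) = 1 := by
      rw [eval_X]; rfl
    have e8 : eval (![1, 2, 3, 5, 1, 1, 0, 1, 1, 0] : Fin 10 → ℤ) (X 8 : R) = 1 := by
      rw [eval_X]; rfl
    have e9 : eval (![1, 2, 3, 5, 1, 1, 0, 1, 1, 0] : Fin 10 → ℤ) (X 9 : R) = 0 := by
      rw [eval_X]; rfl
    have g1 : DD D₁ D₂ B C' E = DD (![X 0, X 1] : Fin 2 → R) ![X 2, X 3] ![X 4, X 5]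
      ![X 6, X 7] ![X 8, X 9] := rfl
    rw [g1] at h1
    unfold DD at h1
    simp only [Matrix.cons_val_zero, Matrix.cons_val_one, map_mul, map_sub, e0, e1, e2, e3, e4,
      e5, e6, e7, e8, e9, map_zero] at h1
    norm_num at h1
  have hP0 : q * DD D₁ D₂ B C' E ≠ 0 := mul_ne_zero hq0 hDD
  have hmap : MvPolynomial.map (Int.castRingHom K) (q * DD D₁ D₂ B C' E) ≠ 0 := by
    intro h0
    apply hP0
    apply MvPolynomial.map_injective (Int.castRingHom K) (Int.cast_injective)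
    rw [h0, map_zero]
  have hex : ∃ u : Fin 10 → K,
      eval u (MvPolynomial.map (Int.castRingHom K) (q * DD D₁ D₂ B C' E)) ≠ 0 := by
    by_contra hc
    push Not at hc
    apply hmap
    apply MvPolynomial.funext
    intro u
    rw [hc u, map_zero]
  obtain ⟨u, hu⟩ := hex
  let χ : R →+* K := eval₂Hom (Int.castRingHom K) u
  have hχ : χ (q * DD D₁ D₂ B C' E) ≠ 0 := by
    have : χ (q * DD D₁ D₂ B C' E) =
        eval u (MvPolynomial.map (Int.castRingHom K) (q * DD D₁ D₂ B C' E)) := by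
      rw [eval_map]
      rfl
    rw [this]
    exact hu
  rw [map_mul] at hχ
  have hχ1 : χ q ≠ 0 := left_ne_zero_of_mul hχ
  have hχ2 : χ (DD D₁ D₂ B C' E) ≠ 0 := right_ne_zero_of_mul hχ
  refine ⟨_, _, _, _, _, hq2 K χ hχ1, ?_⟩
  have : χ (DD D₁ D₂ B C' E) = DD (fun i => χ (D₁ i)) (fun i => χ (D₂ i)) (fun i => χ (B i))
      (fun i => χ (C' i)) (fun i => χ (E i)) := by
    unfold DD
    simp only [map_mul, map_sub]
  rw [← this]
  exact hχ2

theorem base_of_special {ρ W : ℕ} (hW : 1 ≤ W) (hρ : W < ρ) (h2 : W ≤ 2 * (ρ - W))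
    (h : Special ρ W) : Base ρ W := by
  intro K _ _ b c e hbc hbe hce
  obtain ⟨d₁, d₂, b', c', e', hP, hD⟩ := generic_of_special hW hρ h2 h K
  unfold DD at hD
  have hD2 := right_ne_zero_of_mul hD
  have hD1 := left_ne_zero_of_mul hD
  have m9 := right_ne_zero_of_mul hD2
  have m8 := right_ne_zero_of_mul (left_ne_zero_of_mul hD2)
  have m7 := left_ne_zero_of_mul (left_ne_zero_of_mul hD2)
  have m6 := right_ne_zero_of_mul hD1
  have hD3 := left_ne_zero_of_mul hD1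
  have m5 := right_ne_zero_of_mul hD3
  have hD4 := left_ne_zero_of_mul hD3
  have m4 := right_ne_zero_of_mul hD4
  have hD5 := left_ne_zero_of_mul hD4
  have m3 := right_ne_zero_of_mul hD5
  have hD6 := left_ne_zero_of_mul hD5
  have m2 := right_ne_zero_of_mul hD6
  have m1 := left_ne_zero_of_mul hD6
  unfold dt at hbc hbe hce
  -- scalars
  set P := b' 0 * c' 1 - b' 1 * c' 0 with hPdef
  set Q0 := b 0 * c 1 - b 1 * c 0 with hQdef
  -- `e' = x b' + y c'`, `e = s b + t c`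
  set x := -(c' 0 * e' 1 - c' 1 * e' 0) / P with hx
  set y := (b' 0 * e' 1 - b' 1 * e' 0) / P with hy
  set s := -(c 0 * e 1 - c 1 * e 0) / Q0 with hs
  set t := (b 0 * e 1 - b 1 * e 0) / Q0 with ht
  have hx0 : x ≠ 0 := div_ne_zero (neg_ne_zero.2 m9) m7
  have hy0 : y ≠ 0 := div_ne_zero m8 m7
  have hs0 : s ≠ 0 := div_ne_zero (neg_ne_zero.2 hce) hbc
  have ht0 : t ≠ 0 := div_ne_zero hbe hbc
  have he0 : e' 0 = x * b' 0 + y * c' 0 := by
    rw [hx, hy]
    field_simp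
    rw [hPdef]; ring
  have he1 : e' 1 = x * b' 1 + y * c' 1 := by
    rw [hx, hy]
    field_simp
    rw [hPdef]; ring
  have hf0 : e 0 = s * b 0 + t * c 0 := by
    rw [hs, ht]
    field_simp
    rw [hQdef]; ring
  have hf1 : e 1 = s * b 1 + t * c 1 := by
    rw [hs, ht]
    field_simp
    rw [hQdef]; ring
  set l := s / x with hl
  set μ := t / y with hμ
  have hl0 : l ≠ 0 := div_ne_zero hs0 hx0
  have hμ0 : μ ≠ 0 := div_ne_zero ht0 hy0
  -- the matrix
  set m : Fin 2 → Fin 2 → K := fun i => ![(l * b i * c' 1 - μ * c i * b' 1) / P,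
    (-(l * b i * c' 0) + μ * c i * b' 0) / P] with hm
  have hmi0 : ∀ i, m i 0 = (l * b i * c' 1 - μ * c i * b' 1) / P := fun i => rfl
  have hmi1 : ∀ i, m i 1 = (-(l * b i * c' 0) + μ * c i * b' 0) / P := fun i => rfl
  have hdet : m 0 0 * m 1 1 - m 0 1 * m 1 0 = l * μ * Q0 / P := by
    rw [hmi0, hmi0, hmi1, hmi1]
    field_simp
    rw [hPdef, hQdef]; ring
  have hdet0 : m 0 0 * m 1 1 - m 0 1 * m 1 0 ≠ 0 := by
    rw [hdet]
    exact div_ne_zero (mul_ne_zero (mul_ne_zero hl0 hμ0) hbc) m7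
  have hmb : mu2 m b' = fun i => l * b i := by
    funext i
    unfold mu2
    rw [hmi0, hmi1]
    field_simp
    rw [hPdef]; ring
  have hmc : mu2 m c' = fun i => μ * c i := by
    funext i
    unfold mu2
    rw [hmi0, hmi1]
    field_simp
    rw [hPdef]; ring
  have hme : mu2 m e' = e := by
    have g1 : mu2 m e' = fun i => x * mu2 m b' i + y * mu2 m c' i := by
      funext i
      unfold mu2
      rw [he0, he1]
      ring
    rw [g1, hmb, hmc]
    funext i
    have g2 : x * l = s := by rw [hl]; field_simp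
    have g3 : y * μ = t := by rw [hμ]; field_simp
    have g4 : x * (l * b i) + y * (μ * c i) = s * b i + t * c i := by
      rw [← mul_assoc, ← mul_assoc, g2, g3]
    change x * (l * b i) + y * (μ * c i) = e i
    rw [g4]
    fin_cases i
    · exact hf0.symm
    · exact hf1.symm
  have hP2 := pair_gl m hdet0 hP
  rw [hmb, hmc, hme] at hP2
  have hP3 := pair_scale (x := l⁻¹) (y := μ⁻¹) (z := (1 : K)) (inv_ne_zero hl0)
    (inv_ne_zero hμ0) one_ne_zero hP2
  have hb : (fun i => l⁻¹ * (l * b i)) = b := by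
    funext i
    rw [← mul_assoc, inv_mul_cancel₀ hl0, one_mul]
  have hc : (fun i => μ⁻¹ * (μ * c i)) = c := by
    funext i
    rw [← mul_assoc, inv_mul_cancel₀ hμ0, one_mul]
  have he : (fun i => (1 : K) * e i) = e := by
    funext i
    rw [one_mul]
  simp only [hb, hc, he] at hP3
  -- determinants at the new position
  have dmu : ∀ p q : Fin 2 → K, dt (mu2 m p) (mu2 m q) =
      (m 0 0 * m 1 1 - m 0 1 * m 1 0) * (p 0 * q 1 - p 1 * q 0) := by
    intro p q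
    unfold dt mu2
    ring
  have db : ∀ p : Fin 2 → K, l * dt (mu2 m p) b =
      (m 0 0 * m 1 1 - m 0 1 * m 1 0) * (p 0 * b' 1 - p 1 * b' 0) := by
    intro p
    rw [← dmu, hmb]
    unfold dt
    ring
  have dc : ∀ p : Fin 2 → K, μ * dt (mu2 m p) c =
      (m 0 0 * m 1 1 - m 0 1 * m 1 0) * (p 0 * c' 1 - p 1 * c' 0) := by
    intro p
    rw [← dmu, hmc]
    unfold dt
    ring
  have de : ∀ p : Fin 2 → K, dt (mu2 m p) e =
      (m 0 0 * m 1 1 - m 0 1 * m 1 0) * (p 0 * e' 1 - p 1 * e' 0) := by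
    intro p
    rw [← dmu, hme]
  have N1 : dt (mu2 m d₁) (mu2 m d₂) ≠ 0 := by
    rw [dmu]
    exact mul_ne_zero hdet0 m1
  have N2 : dt (mu2 m d₁) b ≠ 0 := by
    have := db d₁
    intro h0
    rw [h0, mul_zero] at this
    exact (mul_ne_zero hdet0 m2) this.symm
  have N3 : dt (mu2 m d₁) e ≠ 0 := by
    rw [de]
    exact mul_ne_zero hdet0 m3
  have N4 : dt (mu2 m d₂) c ≠ 0 := by
    have := dc d₂
    intro h0
    rw [h0, mul_zero] at this
    exact (mul_ne_zero hdet0 m4) this.symm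
  have N5 : dt (mu2 m d₂) e ≠ 0 := by
    rw [de]
    exact mul_ne_zero hdet0 m5
  have N6 : dt (mu2 m d₁) e ≠ dt (mu2 m d₂) e := by
    rw [de, de]
    intro h0
    exact m6 (sub_eq_zero.2 (mul_left_cancel₀ hdet0 h0))
  -- the second application of the semicontinuity
  let R := MvPolynomial (Fin 4) K
  let D₁ : Fin 2 → R := ![X 0, X 1]
  let D₂ : Fin 2 → R := ![X 2, X 3]
  let ev : (Fin 2 → K) → (Fin 2 → K) → R →+* K := fun p q => eval ![p 0, p 1, q 0, q 1]
  have g1 : ∀ p q : Fin 2 → K, (fun i => ev p q (D₁ i)) = p := by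
    intro p q
    funext i
    fin_cases i
    · exact eval_X (f := ![p 0, p 1, q 0, q 1]) 0
    · exact eval_X (f := ![p 0, p 1, q 0, q 1]) 1
  have g2 : ∀ p q : Fin 2 → K, (fun i => ev p q (D₂ i)) = q := by
    intro p q
    funext i
    fin_cases i
    · exact eval_X (f := ![p 0, p 1, q 0, q 1]) 2
    · exact eval_X (f := ![p 0, p 1, q 0, q 1]) 3
  have g3 : ∀ (p q r : Fin 2 → K), (fun i => ev p q ((fun i => C (r i)) i)) = r := by
    intro p q r
    funext i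
    exact eval_C (r i)
  obtain ⟨Q, hQ, hQ2⟩ := pair_semi hW hρ h2 D₁ D₂ (fun i => C (b i)) (fun i => C (c i))
    (fun i => C (e i)) (ev (mu2 m d₁) (mu2 m d₂))
    (by rw [g1, g2]; exact N1) (by rw [g1, g3]; exact N2) (by rw [g1, g3]; exact N3)
    (by rw [g2, g3]; exact N4) (by rw [g2, g3]; exact N5) (by rw [g1, g2, g3]; exact N6)
    (by rw [g1, g2, g3, g3, g3]; exact hP3)
  refine ⟨Q, ?_, ?_⟩
  · rintro rfl
    exact hQ (map_zero _)
  · intro p q hpq
    have := hQ2 K (ev p q) hpq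
    rw [g1, g2, g3, g3, g3] at this
    exact this

end Pool.Agent.SplW
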