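import Pool.Agent.SplW.OrdB
import Pool.Agent.SplG.Ind

/-!
# The combinatorial data of the scheme for spheres
-/

set_option autoImplicit false

namespace Pool.Agent.SplW

open Finset Pool.Agent.Spl1 Pool.Agent.Spl2 Pool.Agent.SplD Pool.Agent.SplG

variable {V : Type} [Fintype V] [DecidableEq V]

theorem uv_eq_vs (T : Finset (Finset V)) : uv T = vs T := by
  ext v
  rw [mem_uv, mem_vs']

/-- the combinatorial facts; `A = b`, the pinned top vertex is `c`, the vertex before it is `x` -/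
structure Cor (P : Finset (Finset V)) (x b c : V) (rk : V → ℕ) (w₁ w₂ c' e : V) : Prop where
  inj : ∀ u ∈ vs P, ∀ v ∈ vs P, rk u = rk v → u = v
  six : 6 ≤ (vs P).card
  lt : ∀ v ∈ vs P, rk v < (vs P).card
  rb : rk b = 0
  rw1 : rk w₁ = 1
  rw2 : rk w₂ = 2
  rc : rk c + 1 = (vs P).card
  rx : rk x + 2 = (vs P).card
  vw1 : w₁ ∈ vs P
  vw2 : w₂ ∈ vs P
  vc' : c' ∈ vs P
  ve : e ∈ vs P
  bw1 : ({b, w₁} : Finset V) ∈ edges P
  bw2 : ({b, w₂} : Finset V) ∈ edges P
  w12 : ({w₁, w₂} : Finset V) ∈ edges P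
  w1c : ({w₁, c} : Finset V) ∈ edges P
  bc' : ({b, c'} : Finset V) ∈ edges P
  w2c' : ({w₂, c'} : Finset V) ∈ edges P
  w1e : ({w₁, e} : Finset V) ∈ edges P
  w2e : ({w₂, e} : Finset V) ∈ edges P
  c'w1 : c' ≠ w₁
  c'c : c' ≠ c
  c'e : c' ≠ e
  eb : e ≠ b
  ec : e ≠ c
  exx : e ≠ x
  lo : ∀ v ∈ vs P, 2 ≤ rk v → ∃ y z, y ≠ z ∧ ({v, y} : Finset V) ∈ edges P ∧
    ({v, z} : Finset V) ∈ edges P ∧ rk y < rk v ∧ rk z < rk v
  up : ∀ v ∈ vs P, 2 ≤ rk v → rk v + 3 ≤ (vs P).card → ∃ y z, y ≠ z ∧ ({v, y} : Finset V) ∈ edges P ∧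
    ({v, z} : Finset V) ∈ edges P ∧ rk v < rk y ∧ rk v < rk z ∧
    (∃ u, ({y, u} : Finset V) ∈ edges P ∧ rk u < rk v) ∧
    (∃ u, ({z, u} : Finset V) ∈ edges P ∧ rk u < rk v)

theorem edge_v {P : Finset (Finset V)} {u v : V} (h : ({u, v} : Finset V) ∈ edges P) :
    u ∈ vs P ∧ v ∈ vs P := edge_vs' h

theorem tri_perm {P : Finset (Finset V)} {u v w : V} (h : ({u, v, w} : Finset V) ∈ P) :
    ({v, u, w} : Finset V) ∈ P ∧ ({u, w, v} : Finset V) ∈ P ∧ ({v, w, u} : Finset V) ∈ P ∧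
      ({w, u, v} : Finset V) ∈ P ∧ ({w, v, u} : Finset V) ∈ P := by
  refine ⟨?_, ?_, ?_, ?_, ?_⟩ <;>
    · convert h using 1
      ext z
      simp only [mem_insert, mem_singleton]
      tauto

theorem other_tri {P : Finset (Finset V)} (h : Sph P) {u v w : V} (ht : ({u, v, w} : Finset V) ∈ P)
    (huv : u ≠ v) : ∃ z, z ≠ u ∧ z ≠ v ∧ z ≠ w ∧ ({u, v, z} : Finset V) ∈ P ∧
      ∀ s, ({u, v, s} : Finset V) ∈ P → s = w ∨ s = z := by
  have he : ({u, v} : Finset V) ∈ edges P := edge_of_tri ht huv (by simp) (by simp)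
  obtain ⟨t, htP, t', htP', hne, hes, hes', hall⟩ := h.two_tri he
  have key : ∀ t ∈ P, ({u, v} : Finset V) ⊆ t → ∃ z, z ≠ u ∧ z ≠ v ∧ t = {u, v, z} := by
    intro t ht' hsub
    have h3 := h.card3 t ht'
    obtain ⟨z, hz⟩ : (t \ {u, v}).Nonempty := by
      rw [← Finset.card_pos, Finset.card_sdiff_of_subset hsub, h3, Finset.card_pair huv]
      norm_num
    rw [mem_sdiff, mem_insert, mem_singleton, not_or] at hz
    refine ⟨z, hz.2.1, hz.2.2, ?_⟩
    symm
    apply Finset.eq_of_subset_of_card_le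
    · intro y hy
      simp only [mem_insert, mem_singleton] at hy
      rcases hy with rfl | rfl | rfl
      · exact hsub (by simp)
      · exact hsub (by simp)
      · exact hz.1
    · rw [h3, Finset.card_eq_three.2 ⟨u, v, z, huv, fun h' => hz.2.1 h'.symm,
        fun h' => hz.2.2 h'.symm, rfl⟩]
  have inj : ∀ z z' : V, z ≠ u → z ≠ v → z' ≠ u → z' ≠ v → ({u, v, z} : Finset V) = {u, v, z'} →
      z = z' := by
    intro z z' h1 h2 h3 h4 h5
    have h6 : z ∈ ({u, v, z'} : Finset V) := by rw [← h5]; simp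
    simp only [mem_insert, mem_singleton] at h6
    rcases h6 with h6 | h6 | h6
    · exact absurd h6 h1
    · exact absurd h6 h2
    · exact h6
  have hw : w ≠ u ∧ w ≠ v := by
    have h3 := h.card3 _ ht
    constructor
    · rintro rfl
      have : ({w, v, w} : Finset V) = {v, w} := by
        ext z
        simp only [mem_insert, mem_singleton]
        tauto
      rw [this, Finset.card_pair huv.symm] at h3
      omega
    · rintro rfl
      have : ({u, w, w} : Finset V) = {u, w} := by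
        ext z
        simp only [mem_insert, mem_singleton]
        tauto
      rw [this, Finset.card_pair huv] at h3
      omega
  obtain ⟨z, hz1, hz2, rfl⟩ := key t htP hes
  obtain ⟨z', hz1', hz2', rfl⟩ := key t' htP' hes'
  have hzz : z ≠ z' := by
    rintro rfl
    exact hne rfl
  have hsub3 : ∀ s : V, ({u, v} : Finset V) ⊆ {u, v, s} := by
    intro s y hy
    simp only [mem_insert, mem_singleton] at hy ⊢
    tauto
  have hs : ∀ s, ({u, v, s} : Finset V) ∈ P → s = z ∨ s = z' := by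
    intro s hsP
    have hsuv : s ≠ u ∧ s ≠ v := by
      have h3 := h.card3 _ hsP
      constructor
      · rintro rfl
        have : ({s, v, s} : Finset V) = {v, s} := by
          ext z
          simp only [mem_insert, mem_singleton]
          tauto
        rw [this, Finset.card_pair huv.symm] at h3
        omega
      · rintro rfl
        have : ({u, s, s} : Finset V) = {u, s} := by
          ext z
          simp only [mem_insert, mem_singleton]
          tauto
        rw [this, Finset.card_pair huv] at h3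
        omega
    rcases hall _ hsP (hsub3 s) with h5 | h5
    · exact Or.inl (inj _ _ hsuv.1 hsuv.2 hz1 hz2 h5)
    · exact Or.inr (inj _ _ hsuv.1 hsuv.2 hz1' hz2' h5)
  rcases hs w ht with rfl | rfl
  · exact ⟨z', hz1', hz2', hzz.symm, htP', hs⟩
  · exact ⟨z, hz1, hz2, hzz, htP, fun s hsP => (hs s hsP).symm⟩

theorem cor_exists {P : Finset (Finset V)} (h : Sph P) (hF : Fac3 P) (h8 : 8 ≤ P.card)
    {x b c : V} (hxb : x ≠ b) (hxc : x ≠ c) (hbc : b ≠ c) (hT : ({x, b, c} : Finset V) ∈ P) :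
    ∃ (rk : V → ℕ) (w₁ w₂ c' e : V), Cor P x b c rk w₁ w₂ c' e := by
  classical
  -- the other triangle at `b c`
  have hT' : ({b, c, x} : Finset V) ∈ P := (tri_perm hT).2.2.1
  obtain ⟨w₁, w1b, w1c, w1x, hw1, huniq⟩ := other_tri h hT' hbc
  have hcard := h.card_T ⟨_, hT⟩
  have he01 : ({b, w₁} : Finset V) ∈ bdry (star P c) := by
    rw [h.mem_link2]
    exact ⟨w1b.symm, hbc.symm, w1c.symm,
      (tri_perm hw1).1⟩
  obtain ⟨rk, hc, hrc, hrx, hrb, hrw1⟩ := canon_bot h hF (by omega) hT (f0 := c) (f1 := x)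
    (by simp) (by simp) hxc.symm w1b.symm he01 ⟨hxb, w1x.symm⟩
  have hbu : b ∈ uv P := mem_uv_of_mem hT (by simp)
  have hxu : x ∈ uv P := mem_uv_of_mem hT (by simp)
  have hcu : c ∈ uv P := mem_uv_of_mem hT (by simp)
  have hw1u : w₁ ∈ uv P := mem_uv_of_mem hw1 (by simp)
  have hsix : 6 ≤ (uv P).card := by omega
  obtain ⟨w₂, hw2u, hrw2⟩ := hc.surj (r := 2) (by omega)
  have hw21 : ({w₂, b} : Finset V) ∈ edges P ∧ ({w₂, w₁} : Finset V) ∈ edges P := by
    obtain ⟨y, z, yz, ey, ez, ry, rz⟩ := hc.low w₂ hw2u (by omega)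
    have yu := (uv_of_edge ey).2
    have zu := (uv_of_edge ez).2
    have hyz : rk y ≠ rk z := fun h' => yz (hc.inj y yu z zu h')
    have h5 : (rk y = 0 ∧ rk z = 1) ∨ (rk y = 1 ∧ rk z = 0) := by omega
    rcases h5 with ⟨h5, h6⟩ | ⟨h5, h6⟩
    · have e1 := hc.inj y yu b hbu (by omega)
      have e2 := hc.inj z zu w₁ hw1u (by omega)
      subst e1 e2
      exact ⟨ey, ez⟩
    · have e1 := hc.inj y yu w₁ hw1u (by omega)
      have e2 := hc.inj z zu b hbu (by omega)
      subst e1 e2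
      exact ⟨ez, ey⟩
  have ebw2 := edge_swap hw21.1
  have ew12 := edge_swap hw21.2
  have ebw1 : ({b, w₁} : Finset V) ∈ edges P := edge_of_tri hw1 w1b.symm (by simp) (by simp)
  have ew1c : ({w₁, c} : Finset V) ∈ edges P := edge_of_tri hw1 w1c (by simp) (by simp)
  have ebc : ({b, c} : Finset V) ∈ edges P := edge_of_tri hw1 hbc (by simp) (by simp)
  have ebx : ({b, x} : Finset V) ∈ edges P := edge_of_tri hT hxb.symm (by simp) (by simp)
  have n21 : w₂ ≠ w₁ := by rintro rfl; omega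
  have n2b : w₂ ≠ b := by rintro rfl; omega
  have n2x : w₂ ≠ x := by rintro rfl; omega
  have n2c : w₂ ≠ c := by rintro rfl; omega
  have t12 : ({b, w₁, w₂} : Finset V) ∈ P := hF b w₁ w₂ w1b.symm n21.symm n2b.symm ebw1 ew12 ebw2
  have nbcw2 : ({b, c, w₂} : Finset V) ∉ P := by
    intro h5
    rcases huniq _ h5 with h6 | h6
    · exact n2x h6
    · exact n21 h6
  obtain ⟨c', c'b, c'w2, c'w1, tc', -⟩ := other_tri h (tri_perm t12).2.1 n2b.symm
  obtain ⟨e, ew1, ew2, eb, te, -⟩ := other_tri h (tri_perm t12).2.2.1 n21.symm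
  have c'c : c' ≠ c := by
    rintro rfl
    exact nbcw2 (tri_perm tc').2.1
  have c'e : c' ≠ e := by
    rintro rfl
    have h5 := h.deg_three (w := w₂) (a := b) (b := w₁) (c := c') w1b.symm c'w1.symm c'b.symm
      n2b n21 c'w2.symm (tri_perm t12).2.2.2.1 (tri_perm te).1 (tri_perm tc').1
    have h6 := h.four_le hF (by omega) (mem_uv.1 hw2u)
    omega
  have ec : e ≠ c := by
    rintro rfl
    apply nbcw2
    exact hF b e w₂ hbc n2c.symm n2b.symm ebc (edge_of_tri te n2c.symm (by simp) (by simp)) ebw2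
  have exx : e ≠ x := by
    rintro rfl
    obtain ⟨z, -, -, -, -, hz⟩ := other_tri h (tri_perm hw1).2.1 w1b.symm
    have h5 : ({b, w₁, e} : Finset V) ∈ P := hF b w₁ e w1b.symm ew1.symm eb.symm ebw1
      (edge_of_tri te ew1.symm (by simp) (by simp)) ebx
    rcases hz _ h5 with h6 | h6
    · exact hxc h6
    · rcases hz _ t12 with h7 | h7
      · exact n2c h7
      · exact n2x (h7.trans h6.symm)
  refine ⟨rk, w₁, w₂, c', e, ?_⟩
  have hlo : ∀ v ∈ uv P, 2 ≤ rk v → ∃ y z, y ≠ z ∧ ({v, y} : Finset V) ∈ edges P ∧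
    ({v, z} : Finset V) ∈ edges P ∧ rk y < rk v ∧ rk z < rk v := hc.low
  have hup : ∀ v ∈ uv P, 2 ≤ rk v → rk v + 3 ≤ (uv P).card → ∃ y z, y ≠ z ∧
      ({v, y} : Finset V) ∈ edges P ∧ ({v, z} : Finset V) ∈ edges P ∧ rk v < rk y ∧ rk v < rk z ∧
      (∃ u, ({y, u} : Finset V) ∈ edges P ∧ rk u < rk v) ∧
      (∃ u, ({z, u} : Finset V) ∈ edges P ∧ rk u < rk v) := by
    intro v hv h2 h3
    have hI := h.link_irr (mem_uv.1 hv)
    have hm := hc.mx_le h hT hv (by omega) (by omega)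
    have hm2 := hc.two_le h hT hv (by omega) (by omega)
    obtain ⟨e1, e2, he12, hM⟩ := Finset.card_eq_two.1 (le_antisymm hm hm2)
    have m1 : e1 ∈ mx (bdry (star P v)) (lo rk v) := by rw [hM]; simp
    have m2 : e2 ∈ mx (bdry (star P v)) (lo rk v) := by rw [hM]; simp
    obtain ⟨t1, x1, wL, zL, hwL, hzL, rfl⟩ := hc.mem_mx h m1
    obtain ⟨t2, x2, wR, zR, hwR, hzR, rfl⟩ := hc.mem_mx h m2
    have c1 : ({wL, zL} : Finset V) ∈ bdry (star P v) := (Finset.mem_filter.1 m1).1
    have c2 : ({wR, zR} : Finset V) ∈ bdry (star P v) := (Finset.mem_filter.1 m2).1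
    obtain ⟨s, s', hss, hes, hes', hrs, hrs'⟩ := hc.up v hv h3
    have hnot : ∀ z, rk v < rk z → z ∉ lo rk v := by
      intro z hz; rw [mem_lo]; omega
    have hzLR : zL ≠ zR := by
      rintro rfl
      have hz : wL ≠ wR := by rintro rfl; exact he12 rfl
      rw [Finset.pair_comm] at c1 c2
      by_cases hsw : s = zL
      · exact hI.no_fan' hm hz (hnot _ hzL) (mem_lo.2 hwL) (mem_lo.2 hwR) c1 c2
          (h.mem_vx_link.2 hes') (hnot _ hrs') (fun h' => hss (hsw.trans h'.symm))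
      · exact hI.no_fan' hm hz (hnot _ hzL) (mem_lo.2 hwL) (mem_lo.2 hwR) c1 c2
          (h.mem_vx_link.2 hes) (hnot _ hrs) hsw
    have vzL : v ≠ zL := by rintro rfl; omega
    have vzR : v ≠ zR := by rintro rfl; omega
    have zwL : zL ≠ wL := by rintro rfl; omega
    have zwR : zR ≠ wR := by rintro rfl; omega
    exact ⟨zL, zR, hzLR, edge_of_tri t1 vzL (by simp) (by simp),
      edge_of_tri t2 vzR (by simp) (by simp), hzL, hzR,
      ⟨wL, edge_of_tri t1 zwL (by simp) (by simp), hwL⟩,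
      ⟨wR, edge_of_tri t2 zwR (by simp) (by simp), hwR⟩⟩
  rw [uv_eq_vs] at hrc hrx hsix hw1u hw2u
  have hinj := hc.inj
  have hlt := hc.lt
  rw [uv_eq_vs] at hinj hlt hlo hup
  exact
    { inj := hinj
      six := hsix
      lt := hlt
      rb := hrb
      rw1 := hrw1
      rw2 := hrw2
      rc := hrc
      rx := hrx
      vw1 := hw1u
      vw2 := hw2u
      vc' := by rw [← uv_eq_vs]; exact mem_uv_of_mem tc' (by simp)
      ve := by rw [← uv_eq_vs]; exact mem_uv_of_mem te (by simp)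
      bw1 := ebw1
      bw2 := ebw2
      w12 := ew12
      w1c := ew1c
      bc' := edge_of_tri tc' c'b.symm (by simp) (by simp)
      w2c' := edge_of_tri tc' c'w2.symm (by simp) (by simp)
      w1e := edge_of_tri te ew1.symm (by simp) (by simp)
      w2e := edge_of_tri te ew2.symm (by simp) (by simp)
      c'w1 := c'w1
      c'c := c'c
      c'e := c'e
      eb := eb
      ec := ec
      exx := exx
      lo := hlo
      up := hup }

end Pool.Agent.SplW
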