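import Pool.Agent.SplW.Ind
import Pool.Agent.SplW.DatS
import Pool.Agent.SplW.BaseOf

/-!
# `HA` and `HB` from the base lemma
-/

set_option autoImplicit false

namespace Pool.Agent.SplW

open Finset MvPolynomial Pool.Agent.Spl1 Pool.Agent.Spl2 Pool.Agent.SplD Pool.Agent.SplG

theorem eI_J {V : Type*} {K : Type*} [Field K] (p₀ : V × Fin 2 → K) (p : V → Fin 2 → K)
    {u v : V} (hu : ∀ i, p₀ (u, i) = p u i) (hv : ∀ i, p₀ (v, i) = p v i) (δ s t : ℕ) :
    eI p₀ u v δ s t = J δ s t (ln (p u)) (ln (p v)) := by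
  unfold eI J dl ln vt
  rw [hu, hu, hv, hv]

/-- from the scheme to generic triviality -/
theorem gz_of_inj {ρ W : ℕ} (hρ : W < ρ) {V : Type} [Fintype V] [DecidableEq V]
    {E : Finset (Finset V)} {far pin : Finset V} {adj : V → V → Prop} {A : V} {K : Type} [Field K]
    (p : V → Fin 2 → K) (hp1 : ∀ v, (v ∈ far ∨ v ∈ pin) → p v 1 ≠ 0)
    (hp2 : ∀ u v, (u ∈ far ∨ u ∈ pin) → (v ∈ far ∨ v ∈ pin) → u ≠ v → p u 1 ≠ p v 1)
    (hA : A ∉ far) (hAp : A ∉ pin) (hfp : ∀ v ∈ far, v ∉ pin)
    (hadj : ∀ u v, adj u v → u ≠ v ∧ ({u, v} : Finset V) ∈ E)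
    (hI : Inj ρ W p far pin adj (tn adj {A})) :
    GZ (2 * ρ - 1) ρ (fun _ => W + 1) E far := by
  classical
  obtain ⟨p₀, hp₀⟩ : ∃ p₀ : V × Fin 2 → K, p₀ = fun q => if q.1 = A then 0 else p q.1 q.2 :=
    ⟨_, rfl⟩
  have e0 : ∀ v, v ≠ A → ∀ i, p₀ (v, i) = p v i := by
    intro v hv i
    rw [hp₀]
    exact if_neg hv
  have eA : ∀ i, p₀ (A, i) = 0 := by
    intro i
    rw [hp₀]
    exact if_pos rfl
  have nA : ∀ v, (v ∈ far ∨ v ∈ pin) → v ≠ A := by
    rintro v (h | h) rfl
    · exact hA h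
    · exact hAp h
  refine gz_of_special p₀ (fun v _ => by omega) ?_
  intro μ hμ v hv
  have hred : ∀ u, u ∈ far → ∃ q r : MvPolynomial (Fin 3) K, μ u = ln (p u) ^ (W + 1) * q + r ∧
      r.IsHomogeneous (2 * ρ - 1) ∧ degreeOf 2 r ≤ W := fun u _ =>
    red_ex (p u) (hμ.1 u) (by omega)
  choose! q r hr using hred
  have hdvd : ∀ u ∈ far, ∀ (x y : MvPolynomial (Fin 3) K) (b : ℕ),
      μ u - r u ∈ J ρ (W + 1) b (ln (p u)) y := by
    intro u hu x y b
    apply J_left
    rw [(hr u hu).1]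
    exact ⟨q u, by ring⟩
  have hM : Mo ρ W p far pin adj (tn adj {A}) r := by
    refine ⟨fun u hu => (hr u hu).2.1, fun u hu => (hr u hu).2.2, ?_, ?_, ?_, ?_⟩
    · intro u hu w hw huw
      obtain ⟨h1, h2⟩ := hadj u w huw
      have h3 := sol_edge hμ h1 h2 (by
        rw [e0 u (nA u (Or.inl hu)), e0 w (nA w (Or.inl hw))]
        exact hp2 u w (Or.inl hu) (Or.inl hw) h1)
      rw [eI_J p₀ p (e0 u (nA u (Or.inl hu))) (e0 w (nA w (Or.inl hw)))] at h3
      have h4 := hdvd u hu 0 (ln (p w)) (W + 1)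
      have h5 := hdvd w hw 0 (ln (p u)) (W + 1)
      rw [J_comm] at h5
      have h6 : r u - r w = (μ u - μ w) - (μ u - r u) + (μ w - r w) := by ring
      rw [h6]
      exact Ideal.add_mem _ (Ideal.sub_mem _ h3 h4) h5
    · intro u hu w hw huw
      obtain ⟨h1, h2⟩ := hadj u w huw
      have hwf : w ∉ far := fun h' => hfp w h' hw
      have h3 := sol_pin hμ h1 h2 (by
        rw [e0 u (nA u (Or.inl hu)), e0 w (nA w (Or.inr hw))]
        exact hp2 u w (Or.inl hu) (Or.inr hw) h1) hwf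
      rw [eI_J p₀ p (e0 u (nA u (Or.inl hu))) (e0 w (nA w (Or.inr hw)))] at h3
      have h4 := hdvd u hu 0 (ln (p w)) (W + 1)
      have h6 : r u = μ u - (μ u - r u) := by ring
      rw [h6]
      exact Ideal.sub_mem _ h3 h4
    · intro u hu hty
      have hAu : adj A u := by
        by_contra hcon
        unfold tn at hty
        rw [if_neg, if_neg] at hty
        · omega
        · rintro ⟨x, hx, hxu⟩
          rw [Set.mem_singleton_iff] at hx
          exact hcon (hx ▸ hxu)
        · rintro ⟨x, hx, y, hy, hxy, -⟩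
          rw [Set.mem_singleton_iff] at hx hy
          exact hxy (hx.trans hy.symm)
      obtain ⟨h1, h2⟩ := hadj A u hAu
      have h3 := sol_pin hμ h1.symm (by rw [Finset.pair_comm]; exact h2) (by
        rw [e0 u (nA u (Or.inl hu)), eA]
        exact hp1 u (Or.inl hu)) hA
      have hX : dl p₀ A = X 2 := by
        unfold dl
        rw [eA, eA]
        simp
      have h4 : μ u ∈ J ρ (W + 1) (W + 1) (ln (p u)) (X 2) := by
        have h5 : eI p₀ u A ρ (W + 1) (W + 1) = J ρ (W + 1) (W + 1) (ln (p u)) (X 2) := by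
          unfold eI J
          rw [hX]
          have h6 : dl p₀ u = ln (p u) := by
            unfold dl ln vt
            rw [e0 u (nA u (Or.inl hu)), e0 u (nA u (Or.inl hu))]
          rw [h6]
        rw [← h5]
        exact h3
      have h5 : J ρ (W + 1) (W + 1) (ln (p u)) (X 2) ≤ J ρ (W + 1) W (ln (p u)) (X 2) := by
        unfold J
        refine sup_le_sup_left (sup_le_sup_left ?_ _) _
        rw [Ideal.span_singleton_le_span_singleton]
        exact pow_dvd_pow _ (by omega)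
      have h6 : r u = μ u - (μ u - r u) := by ring
      rw [h6]
      exact Ideal.sub_mem _ (h5 h4) (hdvd u hu 0 (X 2) W)
    · intro u hu hty
      exfalso
      unfold tn at hty
      rw [if_neg] at hty
      · split_ifs at hty <;> omega
      · rintro ⟨x, hx, y, hy, hxy, -⟩
        rw [Set.mem_singleton_iff] at hx hy
        exact hxy (hx.trans hy.symm)
  have h0 := hI r hM v hv
  have h1 : dl p₀ v = ln (p v) := by
    unfold dl ln vt
    rw [e0 v (nA v (Or.inl hv)), e0 v (nA v (Or.inl hv))]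
  rw [h1, (hr v hv).1, h0, add_zero]
  exact dvd_mul_right _ _

/-- hypothesis `HB` -/
theorem hb_of_base {ρ W g : ℕ} (hg : W + g = ρ) (h1 : W ≤ 2 * g) (h2 : 2 * g ≤ W + 2) (h3 : g ≤ W)
    (h4 : 1 ≤ W) (hB : Base ρ W) (V : Type) [Fintype V] [DecidableEq V] : HB V (W + 1) ρ := by
  intro P hP hF h8 x b c a hxb hxc hbc hT ha
  obtain ⟨rk, w₁, w₂, c', e, D⟩ := cor_exists hP hF h8 hxb hxc hbc hT
  have hxv : x ∈ vs P := (edge_v (edge_of_tri hT hxb (by simp) (by simp))).1
  have hbv : b ∈ vs P := (edge_v (edge_of_tri hT hxb (by simp) (by simp))).2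
  have hcv : c ∈ vs P := (edge_v (edge_of_tri hT hxc (by simp) (by simp))).2
  have hmem : ∀ v, v ∈ vs P \ {b, c} ↔ v ∈ vs P ∧ v ≠ b ∧ v ≠ c := by
    intro v
    rw [mem_sdiff, mem_insert, mem_singleton, not_or]
  have hax : a ≠ x := fun h' => ha (h' ▸ hxv)
  have hab : a ≠ b := fun h' => ha (h' ▸ hbv)
  have hac : a ≠ c := fun h' => ha (h' ▸ hcv)
  obtain ⟨adj, hadj⟩ : ∃ adj : V → V → Prop, adj = fun u v => u ≠ v ∧
    ({u, v} : Finset V) ∈ insert ({a, x} : Finset V) (edges P) := ⟨_, rfl⟩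
  have ade : ∀ {u v : V}, ({u, v} : Finset V) ∈ edges P → adj u v := by
    intro u v h
    rw [hadj]
    exact ⟨edge_ne h, mem_insert_of_mem h⟩
  have hrk0 : ∀ v ∈ vs P, rk v = 0 → v = b := fun v hv h => D.inj v hv b hbv (h.trans D.rb.symm)
  have six := D.six
  have rb := D.rb
  have rc := D.rc
  have rx := D.rx
  have r1 := D.rw1
  have r2 := D.rw2
  have Dat' : Dat (vs P \ {b, c}) {c, a} adj rk b w₁ w₂ c c' e := by
    constructor
    · intro u v h
      rw [hadj] at h ⊢
      exact ⟨h.1.symm, by rw [Finset.pair_comm v u]; exact h.2⟩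
    · intro v h
      rw [hadj] at h
      exact h.1 rfl
    · intro v hv h
      rw [hmem] at hv
      rw [mem_insert, mem_singleton] at h
      rcases h with h | h
      · exact hv.2.2 h
      · exact ha (h ▸ hv.1)
    · rw [hmem]
      tauto
    · rw [mem_insert, mem_singleton]
      rintro (h | h)
      · exact hbc h
      · exact hab h.symm
    · intro u hu v hv h
      exact D.inj u ((hmem u).1 hu).1 v ((hmem v).1 hv).1 h
    · rw [hmem]
      exact ⟨D.vw1, by rintro rfl; omega, by rintro rfl; omega⟩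
    · rw [hmem]
      exact ⟨D.vw2, by rintro rfl; omega, by rintro rfl; omega⟩
    · exact D.rw1
    · exact D.rw2
    · intro v hv hv1 hv2
      rw [hmem] at hv
      by_contra hcon
      have h5 : rk v = 0 ∨ rk v = 1 ∨ rk v = 2 := by omega
      rcases h5 with h5 | h5 | h5
      · exact hv.2.1 (hrk0 v hv.1 h5)
      · exact hv1 (D.inj v hv.1 w₁ D.vw1 (by omega))
      · exact hv2 (D.inj v hv.1 w₂ D.vw2 (by omega))
    · exact ade D.bw1
    · exact ade D.bw2
    · exact ade D.w12
    · simp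
    · exact ade D.w1c
    · right
      exact ⟨(hmem c').2 ⟨D.vc', (edge_ne D.bc').symm, D.c'c⟩, D.c'w1, ade D.bc'⟩
    · exact ade D.w2c'
    · exact (hmem e).2 ⟨D.ve, D.eb, D.ec⟩
    · exact ade D.w1e
    · exact ade D.w2e
    · exact D.c'c.symm
    · exact D.c'e
    · intro v hv hv1 hv2
      rw [hmem] at hv
      have h5 : 2 ≤ rk v := by
        by_contra hcon
        have h5 : rk v = 0 ∨ rk v = 1 := by omega
        rcases h5 with h5 | h5
        · exact hv.2.1 (hrk0 v hv.1 h5)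
        · exact hv1 (D.inj v hv.1 w₁ D.vw1 (by omega))
      obtain ⟨y, z, hyz, hey, hez, hry, hrz⟩ := D.lo v hv.1 h5
      have key : ∀ y, ({v, y} : Finset V) ∈ edges P → rk y < rk v →
          (y = b ∨ (y ∈ vs P \ {b, c} ∧ rk y < rk v)) := by
        intro y hey hry
        by_cases hyb : y = b
        · exact Or.inl hyb
        · refine Or.inr ⟨(hmem y).2 ⟨(edge_v hey).2, hyb, ?_⟩, hry⟩
          rintro rfl
          have := D.lt v hv.1
          omega
      exact ⟨y, z, hyz, ade hey, ade hez, key y hey hry, key z hez hrz⟩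
    · intro v hv hv1 hv2
      rw [hmem] at hv
      have h5 : 2 ≤ rk v := by
        by_contra hcon
        have h5 : rk v = 0 ∨ rk v = 1 := by omega
        rcases h5 with h5 | h5
        · exact hv.2.1 (hrk0 v hv.1 h5)
        · exact hv1 (D.inj v hv.1 w₁ D.vw1 (by omega))
      have hlt := D.lt v hv.1
      by_cases h6 : rk v + 3 ≤ (vs P).card
      · obtain ⟨y, z, hyz, hey, hez, hry, hrz, ⟨s, hs, hrs⟩, ⟨s', hs', hrs'⟩⟩ := D.up v hv.1 h5 h6
        have key : ∀ y s, ({v, y} : Finset V) ∈ edges P → rk v < rk y →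
            ({y, s} : Finset V) ∈ edges P → rk s < rk v →
            (y ∈ ({c, a} : Finset V) ∨ (y ∈ vs P \ {b, c} ∧ rk v < rk y ∧
              ∃ u, adj y u ∧ (u = b ∨ (u ∈ vs P \ {b, c} ∧ rk u < rk v)))) := by
          intro y s hey hry hs hrs
          by_cases hyc : y = c
          · left
            rw [hyc]
            simp
          · right
            refine ⟨(hmem y).2 ⟨(edge_v hey).2, ?_, hyc⟩, hry, s, ade hs, ?_⟩
            · rintro rfl
              omega
            · by_cases hsb : s = b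
              · exact Or.inl hsb
              · refine Or.inr ⟨(hmem s).2 ⟨(edge_v hs).2, hsb, ?_⟩, hrs⟩
                rintro rfl
                omega
        exact ⟨y, z, hyz, ade hey, ade hez, key y s hey hry hs hrs, key z s' hez hrz hs' hrs'⟩
      · -- `v = x`
        have h7 : rk v ≠ rk c := fun h' => hv.2.2 (D.inj v hv.1 c hcv h')
        have h8 : v = x := D.inj v hv.1 x hxv (by omega)
        subst h8
        refine ⟨c, a, hac.symm, ade (edge_of_tri hT hxc (by simp) (by simp)), ?_, Or.inl (by simp),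
          Or.inl (by simp)⟩
        rw [hadj]
        exact ⟨hax.symm, by rw [Finset.pair_comm v a]; exact mem_insert_self _ _⟩
  obtain ⟨K, iK, iC, p, hp1, hp2, hI⟩ := scheme hg h1 h2 h3 h4 hB Dat'
  refine gz_of_inj (by omega) p hp1 hp2 Dat'.Af Dat'.Ap Dat'.dis ?_ hI
  intro u v h
  rw [hadj] at h
  exact h

/-- hypothesis `HA` -/
theorem ha_of_base {ρ W g : ℕ} (hg : W + g = ρ) (h1 : W ≤ 2 * g) (h2 : 2 * g ≤ W + 2) (h3 : g ≤ W)
    (h4 : 1 ≤ W) (hB : Base ρ W) (V : Type) [Fintype V] [DecidableEq V] : HA V (W + 1) ρ := by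
  intro P hP hF h8 F hFP
  obtain ⟨x, b, c, hxb, hxc, hbc, rfl⟩ := card_eq_three.1 (hP.card3 F hFP)
  obtain ⟨rk, w₁, w₂, c', e, D⟩ := cor_exists hP hF h8 hxb hxc hbc hFP
  have hxv : x ∈ vs P := (edge_v (edge_of_tri hFP hxb (by simp) (by simp))).1
  have hbv : b ∈ vs P := (edge_v (edge_of_tri hFP hxb (by simp) (by simp))).2
  have hcv : c ∈ vs P := (edge_v (edge_of_tri hFP hxc (by simp) (by simp))).2
  have hmem : ∀ v, v ∈ vs P \ {x, b, c} ↔ v ∈ vs P ∧ v ≠ x ∧ v ≠ b ∧ v ≠ c := by
    intro v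
    rw [mem_sdiff, mem_insert, mem_insert, mem_singleton, not_or, not_or]
  obtain ⟨adj, hadj⟩ : ∃ adj : V → V → Prop, adj = fun u v => u ≠ v ∧
    ({u, v} : Finset V) ∈ edges P := ⟨_, rfl⟩
  have ade : ∀ {u v : V}, ({u, v} : Finset V) ∈ edges P → adj u v := by
    intro u v h
    rw [hadj]
    exact ⟨edge_ne h, h⟩
  have hrk0 : ∀ v ∈ vs P, rk v = 0 → v = b := fun v hv h => D.inj v hv b hbv (h.trans D.rb.symm)
  have six := D.six
  have rb := D.rb
  have rc := D.rc
  have rx := D.rx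
  have r1 := D.rw1
  have r2 := D.rw2
  have Dat' : Dat (vs P \ {x, b, c}) {c, x} adj rk b w₁ w₂ c c' e := by
    constructor
    · intro u v h
      rw [hadj] at h ⊢
      exact ⟨h.1.symm, by rw [Finset.pair_comm v u]; exact h.2⟩
    · intro v h
      rw [hadj] at h
      exact h.1 rfl
    · intro v hv h
      rw [hmem] at hv
      rw [mem_insert, mem_singleton] at h
      rcases h with h | h
      · exact hv.2.2.2 h
      · exact hv.2.1 h
    · rw [hmem]
      tauto
    · rw [mem_insert, mem_singleton]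
      rintro (h | h)
      · exact hbc h
      · exact hxb h.symm
    · intro u hu v hv h
      exact D.inj u ((hmem u).1 hu).1 v ((hmem v).1 hv).1 h
    · rw [hmem]
      exact ⟨D.vw1, by rintro rfl; omega, by rintro rfl; omega, by rintro rfl; omega⟩
    · rw [hmem]
      exact ⟨D.vw2, by rintro rfl; omega, by rintro rfl; omega, by rintro rfl; omega⟩
    · exact D.rw1
    · exact D.rw2
    · intro v hv hv1 hv2
      rw [hmem] at hv
      by_contra hcon
      have h5 : rk v = 0 ∨ rk v = 1 ∨ rk v = 2 := by omega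
      rcases h5 with h5 | h5 | h5
      · exact hv.2.2.1 (hrk0 v hv.1 h5)
      · exact hv1 (D.inj v hv.1 w₁ D.vw1 (by omega))
      · exact hv2 (D.inj v hv.1 w₂ D.vw2 (by omega))
    · exact ade D.bw1
    · exact ade D.bw2
    · exact ade D.w12
    · simp
    · exact ade D.w1c
    · by_cases hcx : c' = x
      · left
        rw [hcx]
        simp
      · right
        exact ⟨(hmem c').2 ⟨D.vc', hcx, (edge_ne D.bc').symm, D.c'c⟩, D.c'w1, ade D.bc'⟩
    · exact ade D.w2c'
    · exact (hmem e).2 ⟨D.ve, D.exx, D.eb, D.ec⟩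
    · exact ade D.w1e
    · exact ade D.w2e
    · exact D.c'c.symm
    · exact D.c'e
    · intro v hv hv1 hv2
      rw [hmem] at hv
      have h5 : 2 ≤ rk v := by
        by_contra hcon
        have h5 : rk v = 0 ∨ rk v = 1 := by omega
        rcases h5 with h5 | h5
        · exact hv.2.2.1 (hrk0 v hv.1 h5)
        · exact hv1 (D.inj v hv.1 w₁ D.vw1 (by omega))
      have hlt := D.lt v hv.1
      have hvc : rk v ≠ rk c := fun h' => hv.2.2.2 (D.inj v hv.1 c hcv h')
      obtain ⟨y, z, hyz, hey, hez, hry, hrz⟩ := D.lo v hv.1 h5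
      have key : ∀ y, ({v, y} : Finset V) ∈ edges P → rk y < rk v →
          (y = b ∨ (y ∈ vs P \ {x, b, c} ∧ rk y < rk v)) := by
        intro y hey hry
        by_cases hyb : y = b
        · exact Or.inl hyb
        · refine Or.inr ⟨(hmem y).2 ⟨(edge_v hey).2, ?_, hyb, ?_⟩, hry⟩
          · rintro rfl
            omega
          · rintro rfl
            omega
      exact ⟨y, z, hyz, ade hey, ade hez, key y hey hry, key z hez hrz⟩
    · intro v hv hv1 hv2
      rw [hmem] at hv
      have h5 : 2 ≤ rk v := by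
        by_contra hcon
        have h5 : rk v = 0 ∨ rk v = 1 := by omega
        rcases h5 with h5 | h5
        · exact hv.2.2.1 (hrk0 v hv.1 h5)
        · exact hv1 (D.inj v hv.1 w₁ D.vw1 (by omega))
      have hlt := D.lt v hv.1
      have hvc : rk v ≠ rk c := fun h' => hv.2.2.2 (D.inj v hv.1 c hcv h')
      have hvx : rk v ≠ rk x := fun h' => hv.2.1 (D.inj v hv.1 x hxv h')
      obtain ⟨y, z, hyz, hey, hez, hry, hrz, ⟨s, hs, hrs⟩, ⟨s', hs', hrs'⟩⟩ :=
        D.up v hv.1 h5 (by omega)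
      have key : ∀ y s, ({v, y} : Finset V) ∈ edges P → rk v < rk y →
          ({y, s} : Finset V) ∈ edges P → rk s < rk v →
          (y ∈ ({c, x} : Finset V) ∨ (y ∈ vs P \ {x, b, c} ∧ rk v < rk y ∧
            ∃ u, adj y u ∧ (u = b ∨ (u ∈ vs P \ {x, b, c} ∧ rk u < rk v)))) := by
        intro y s hey hry hs hrs
        by_cases hyc : y = c
        · left
          rw [hyc]
          simp
        · by_cases hyx : y = x
          · left
            rw [hyx]
            simp
          · right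
            refine ⟨(hmem y).2 ⟨(edge_v hey).2, hyx, ?_, hyc⟩, hry, s, ade hs, ?_⟩
            · rintro rfl
              omega
            · by_cases hsb : s = b
              · exact Or.inl hsb
              · refine Or.inr ⟨(hmem s).2 ⟨(edge_v hs).2, ?_, hsb, ?_⟩, hrs⟩
                · rintro rfl
                  omega
                · rintro rfl
                  omega
      exact ⟨y, z, hyz, ade hey, ade hez, key y s hey hry hs hrs, key z s' hez hrz hs' hrs'⟩
  obtain ⟨K, iK, iC, p, hp1, hp2, hI⟩ := scheme hg h1 h2 h3 h4 hB Dat'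
  refine gz_of_inj (by omega) p hp1 hp2 Dat'.Af Dat'.Ap Dat'.dis ?_ hI
  intro u v h
  rw [hadj] at h
  exact h

/-- numerics -/
theorem num_W {ρ : ℕ} (h : 2 ≤ ρ) : ∃ W g : ℕ, W + g = ρ ∧ W ≤ 2 * g ∧ 2 * g ≤ W + 2 ∧ g ≤ W ∧
    1 ≤ W ∧ W = ρ - (ρ + 2) / 3 :=
  ⟨ρ - (ρ + 2) / 3, (ρ + 2) / 3, by omega, by omega, by omega, by omega, by omega, rfl⟩

/-- `HA` and `HB` for all `ρ ≥ 2` from the special position of the pair problem -/
theorem ha_hb_of_special {ρ : ℕ} (hρ : 2 ≤ ρ) (h : Special ρ (ρ - (ρ + 2) / 3)) (V : Type)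
    [Fintype V] [DecidableEq V] :
    HA V (ρ - (ρ + 2) / 3 + 1) ρ ∧ HB V (ρ - (ρ + 2) / 3 + 1) ρ := by
  obtain ⟨W, g, h1, h2, h3, h4, h5, h6⟩ := num_W hρ
  rw [← h6] at h ⊢
  have hB := base_of_special h5 (by omega) (by omega) h
  exact ⟨ha_of_base h1 h2 h3 h4 h5 hB V, hb_of_base h1 h2 h3 h4 h5 hB V⟩

end Pool.Agent.SplW
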