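import Pool.Agent.SplW.Lau

/-!
# Module C: the contact lemma (a far vertex with position `P` next to a vertex moving to `A` in the direction `d`)

`be P d r = ga (sh (-e) r)` with `e = ed P d`, `<P, e> = 1`, `<d, e> = 0`; it maps `ln P ↦ vt P`, `ln (ep d) ↦ ep ln d`, `X 2 ↦ ep X 2`
(`sh_ln`, `sh_X2`, `ga` on `X 0, X 1, X 2`).
PAPER PROOFS (`F = LaurentSeries K`, all ideals in the coordinates after `be` are defined over `K`, so `ap_mem` applies to every `ex j`):
* `be_deg`: `coeff m (ex j (be P d r)) = coeff m (ex (j - m 2) (sh (-e) r))` (`coeff_ex_ga`), zero for `m 2 > j` since `Od (sh (-e) r)` (`ex_sh`).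
* `be_part`: the same formula with `m 2 = n = j`, and `ex_sh`.
* `be_J`: `be` maps `J ρ a b (ln P) (X 2)` into `J ρ a b (vt P) (ep X 2) ≤ J ρ a b (vt P) (X 2) = (J ρ a b (vt P) (X 2)).map (bc _)`.
* `be_edge`: `be R - be r ∈ J ρ a b (ep ln d) (vt P) ≤ J ρ a b (ln d) (vt P)` and `be R = ga (sh (-e) R) = sh (-ep e) (ga R) = ep ^ W sh (-ep e) M`
  (`ga_sh`), so `ex j (be R) = ex (j - W) (sh (-ep e) M)` is `0` for `j < W` and `ex 0 M` for `j = W` (`od_sh`, `ex0_sh`).
* `be_two`: `be P d' r = sh (ep (e - e')) (be P d r)` with `<P, e - e'> = 0`; `ex_sh_mod`.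
* `con_a`: `be_edge`, `be_deg` and `stat_a`.  `con_b`: the same with `be_J` and `stat_b`.  `con_c`: strong induction on `j`: for `i < j` known; by `be_two`
  `ex j (be P d' r) = ex j (be P d r)` modulo `vt P ^ (W + 1)`, so `G = ex j (be P d r)` is in both ideals: `stat_c`.  `con_d`: `be r` is in
  `(vt P ^ (W+1)) + (X 2 ^ W)`, so is `ex j (be r)` and its degree in `X 2` is `≤ j < W`.
* `typ_one`, `typ_two`: `be_part`, `dvd_part`, `type_one`, `type_two`.
* `z_deg`: the part of degree `W` of `ex W (be P d r)` is `part W (sh (-e) (ex 0 r)) = 0`.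
-/

set_option autoImplicit false

namespace Pool.Agent.SplW

open MvPolynomial

variable {K : Type*} [Field K]

/-- `e` with `<P, e> = 1`, `<d, e> = 0` -/
noncomputable def ed (P d : Fin 2 → K) : Fin 2 → K := ![-d 1 / dt d P, d 0 / dt d P]

theorem ed_P {P d : Fin 2 → K} (h : dt d P ≠ 0) : P 0 * ed P d 0 + P 1 * ed P d 1 = 1 := by
  have h' : d 0 * P 1 - d 1 * P 0 ≠ 0 := h
  simp only [ed, dt, Matrix.cons_val_zero, Matrix.cons_val_one]
  have e : P 0 * (-d 1 / (d 0 * P 1 - d 1 * P 0)) + P 1 * (d 0 / (d 0 * P 1 - d 1 * P 0)) =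
      (d 0 * P 1 - d 1 * P 0) / (d 0 * P 1 - d 1 * P 0) := by ring
  rw [e, div_self h']

theorem ed_d {P d : Fin 2 → K} (h : dt d P ≠ 0) : d 0 * ed P d 0 + d 1 * ed P d 1 = 0 := by
  simp only [ed, Matrix.cons_val_zero, Matrix.cons_val_one]
  ring

/-- the substitution at the contact -/
noncomputable def be (P d : Fin 2 → K) (r : MvPolynomial (Fin 3) (LaurentSeries K)) :
    MvPolynomial (Fin 3) (LaurentSeries K) :=
  ga K (sh (bp (cl K) (fun i => -ed P d i)) r)

/-- the position `ep d` -/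
noncomputable def epd (d : Fin 2 → K) : Fin 2 → LaurentSeries K := fun i => ep K * cl K (d i)

theorem sh_C {F : Type*} [Field F] (e : Fin 2 → F) (c : F) : sh e (C c) = C c := by
  simp [sh]

/-- the substitution as a ring homomorphism -/
noncomputable def bh (P d : Fin 2 → K) :
    MvPolynomial (Fin 3) (LaurentSeries K) →+* MvPolynomial (Fin 3) (LaurentSeries K) :=
  ((ga K).comp (sh (bp (cl K) (fun i => -ed P d i)))).toRingHom

theorem bh_apply (P d : Fin 2 → K) (r : MvPolynomial (Fin 3) (LaurentSeries K)) :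
    bh P d r = be P d r := rfl

theorem ga_X2 : ga K (X 2) = C (ep K) * X 2 := by
  simp [ga]

theorem ga_vt (p : Fin 2 → LaurentSeries K) : ga K (vt p) = vt p := by
  simp [ga, vt]

theorem bh_X2 (P d : Fin 2 → K) : bh P d (X 2) = C (ep K) * X 2 := by
  rw [bh_apply, be, sh_X2, ga_X2]

theorem bh_lnP {P d : Fin 2 → K} (h : dt d P ≠ 0) :
    bh P d (ln (bp (cl K) P)) = vt (bp (cl K) P) := by
  have e : (1 : LaurentSeries K) + (bp (cl K) P 0 * bp (cl K) (fun i => -ed P d i) 0 +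
      bp (cl K) P 1 * bp (cl K) (fun i => -ed P d i) 1) = 0 := by
    have h1 := congrArg (cl K) (ed_P h)
    simp only [bp, map_add, map_mul, map_neg, map_one] at h1 ⊢
    linear_combination -h1
  rw [bh_apply, be, sh_ln, e, map_zero, zero_mul, add_zero, ga_vt]

theorem bh_epd {P d : Fin 2 → K} (h : dt d P ≠ 0) :
    bh P d (ln (epd d)) = C (ep K) * ln (bp (cl K) d) := by
  have e : (epd d 0 * bp (cl K) (fun i => -ed P d i) 0 +
      epd d 1 * bp (cl K) (fun i => -ed P d i) 1) = 0 := by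
    have h1 := congrArg (cl K) (ed_d h)
    simp only [bp, epd, map_add, map_mul, map_neg, map_zero] at h1 ⊢
    linear_combination -(ep K) * h1
  rw [bh_apply, be, sh_ln, e, add_zero, map_one, one_mul, map_add, ga_vt, ga_X2]
  simp only [ln, vt, epd, bp, map_mul]
  ring

theorem J_mono {F : Type*} [Field F] {ρ a b : ℕ} {x y x' y' f : MvPolynomial (Fin 3) F}
    (hx : x ∣ x') (hy : y ∣ y') (h : f ∈ J ρ a b x' y') : f ∈ J ρ a b x y := by
  have h1 : Ideal.span {x', y'} ≤ Ideal.span {x, y} := by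
    rw [Ideal.span_le]
    intro z hz
    simp only [Set.mem_insert_iff, Set.mem_singleton_iff] at hz
    rcases hz with rfl | rfl
    · exact Ideal.mem_of_dvd _ hx (Ideal.subset_span (by simp))
    · exact Ideal.mem_of_dvd _ hy (Ideal.subset_span (by simp))
  have h2 : J ρ a b x' y' ≤ J ρ a b x y := by
    unfold J
    refine sup_le_sup (Ideal.pow_right_mono h1 ρ) (sup_le_sup ?_ ?_)
    · rw [Ideal.span_singleton_le_span_singleton]
      exact pow_dvd_pow_of_dvd hx a
    · rw [Ideal.span_singleton_le_span_singleton]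
      exact pow_dvd_pow_of_dvd hy b
  exact h2 h

theorem sum_part {f : MvPolynomial (Fin 3) K} {n : ℕ} (h : degreeOf 2 f < n) :
    ∑ i ∈ Finset.range n, part i f = f := by
  ext m
  rw [coeff_sum]
  simp only [coeff_part]
  by_cases hm : m ∈ f.support
  · have h1 : m 2 < n := lt_of_le_of_lt (degreeOf_le_iff.mp le_rfl m hm) h
    rw [Finset.sum_ite_eq, if_pos (Finset.mem_range.mpr h1)]
  · rw [notMem_support_iff] at hm
    rw [hm]
    exact Finset.sum_eq_zero (fun i _ => ite_self _)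

theorem coeff_of_dvd {f : MvPolynomial (Fin 3) K} {n : ℕ} (h : (X 2) ^ n ∣ f)
    {m : Fin 3 →₀ ℕ} (hm : m 2 < n) : coeff m f = 0 := by
  obtain ⟨g, rfl⟩ := h
  rw [X_pow_eq_monomial, coeff_monomial_mul', if_neg]
  intro hle
  have := hle 2
  rw [Finsupp.single_eq_same] at this
  omega

theorem be_hom {P d : Fin 2 → K} {r : MvPolynomial (Fin 3) (LaurentSeries K)} {k : ℕ}
    (h : r.IsHomogeneous k) (j : ℤ) : (ex j (be P d r)).IsHomogeneous k := by
  exact ap_hom _ (ga_hom (sh_hom _ h))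

theorem be_od {P d : Fin 2 → K} {r : MvPolynomial (Fin 3) (LaurentSeries K)} (h : Od r) :
    Od (be P d r) := by
  intro i hi
  ext m
  rw [be, coeff_ex_ga, ex_sh, h _ (by omega), map_zero]

theorem be_deg {P d : Fin 2 → K} {r : MvPolynomial (Fin 3) (LaurentSeries K)} (h : Od r) (j : ℕ) :
    degreeOf 2 (ex j (be P d r)) ≤ j := by
  rw [degreeOf_le_iff]
  intro m hm
  by_contra hlt
  rw [not_le] at hlt
  rw [mem_support_iff] at hm
  apply hm
  rw [be, coeff_ex_ga, ex_sh, h _ (by omega), map_zero, coeff_zero]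

theorem be_part {P d : Fin 2 → K} {r : MvPolynomial (Fin 3) (LaurentSeries K)} (n : ℕ) :
    part n (ex n (be P d r)) = part n (sh (fun i => -ed P d i) (ex 0 r)) := by
  ext m
  rw [coeff_part, coeff_part]
  by_cases hm : m 2 = n
  · rw [if_pos hm, if_pos hm, be, coeff_ex_ga, hm, sub_self, ex_sh]
  · rw [if_neg hm, if_neg hm]

theorem be_J {ρ a b : ℕ} {P d : Fin 2 → K} (hd : dt d P ≠ 0)
    {r : MvPolynomial (Fin 3) (LaurentSeries K)} (h : r ∈ J ρ a b (ln (bp (cl K) P)) (X 2))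
    (j : ℤ) : ex j (be P d r) ∈ J ρ a b (vt P) (X 2) := by
  have h1 := J_map (bh P d) h
  rw [bh_lnP hd, bh_X2, bh_apply] at h1
  have h2 : be P d r ∈ (J ρ a b (vt P) (X 2)).map (bc (cl K)) := by
    rw [J_bc, bc_vt, bc_X]
    exact J_mono (dvd_refl _) (Dvd.intro_left _ rfl) h1
  exact ap_mem (co K j) h2

theorem be_edge {ρ a b W : ℕ} {P d : Fin 2 → K} (hd : dt d P ≠ 0)
    {r R M : MvPolynomial (Fin 3) (LaurentSeries K)}
    (h : R - r ∈ J ρ a b (ln (epd d)) (ln (bp (cl K) P))) (hM : Od M)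
    (hRM : ga K R = C (ep K ^ W) * M) :
    (∀ j : ℕ, j < W → ex j (be P d r) ∈ J ρ a b (ln d) (vt P)) ∧
      ex 0 M - ex W (be P d r) ∈ J ρ a b (ln d) (vt P) := by
  have h1 := J_map (bh P d) h
  rw [bh_lnP hd, bh_epd hd, map_sub, bh_apply, bh_apply] at h1
  have h2 : be P d R - be P d r ∈ (J ρ a b (ln d) (vt P)).map (bc (cl K)) := by
    rw [J_bc, bc_vt, bc_ln]
    exact J_mono (Dvd.intro_left _ rfl) (dvd_refl _) h1
  have h3 : ∀ j : ℤ, ex j (be P d R) - ex j (be P d r) ∈ J ρ a b (ln d) (vt P) := by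
    intro j
    have h4 := ap_mem (co K j) h2
    rwa [ap_sub] at h4
  have h5 : be P d R = C (ep K ^ (W : ℤ)) *
      sh (fun i => ep K * bp (cl K) (fun i => -ed P d i) i) M := by
    rw [be, ga_sh, hRM, map_mul, sh_C, zpow_natCast]
  have hO := od_sh hM (fun i => -ed P d i)
  constructor
  · intro j hj
    have h6 := h3 j
    rw [h5, ex_ep, hO _ (by omega), zero_sub] at h6
    exact (Submodule.neg_mem_iff _).mp h6
  · have h6 := h3 W
    rw [h5, ex_ep, sub_self, ex0_sh hM] at h6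
    exact h6

theorem be_two {P d d' : Fin 2 → K} (hd : dt d P ≠ 0) (hd' : dt d' P ≠ 0)
    {r : MvPolynomial (Fin 3) (LaurentSeries K)} (hr : Od r) {c j : ℕ}
    (h : ∀ i : ℕ, i < j → vt P ^ c ∣ ex i (be P d r)) :
    vt P ^ c ∣ ex j (be P d' r) - ex j (be P d r) := by
  have e1 : be P d' r = sh (fun i => ep K * bp (cl K) (fun i => ed P d i - ed P d' i) i)
      (be P d r) := by
    have e2 : (fun i => bp (cl K) (fun i => ed P d i - ed P d' i) i +
        bp (cl K) (fun i => -ed P d i) i) = bp (cl K) (fun i => -ed P d' i) := by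
      funext i
      simp only [bp, map_sub, map_neg]
      ring
    rw [be, be, ← ga_sh, sh_sh, e2]
  rw [e1]
  refine ex_sh_mod (be_od hr) ?_ h
  have a1 := ed_P hd
  have a2 := ed_P hd'
  linear_combination a1 - a2

theorem con_a {ρ W k : ℕ} (hρ : ρ ≤ k) {P d : Fin 2 → K} (hd : dt d P ≠ 0)
    {r : MvPolynomial (Fin 3) (LaurentSeries K)} (hr : r.IsHomogeneous k) (hO : Od r)
    (h : ∀ j : ℕ, j < W → ex j (be P d r) ∈ J ρ (W + 1) (W + 1) (ln d) (vt P)) :
    ∀ j : ℕ, j < W → vt P ^ min (W + 1) (ρ - j) ∣ ex j (be P d r) := by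
  intro j hj
  exact stat_a hd hj hρ (be_hom hr j) (be_deg hO j) (h j hj)

theorem con_b {ρ W k : ℕ} (hρ : ρ ≤ k) (hW : W < ρ) (h2 : W ≤ 2 * (ρ - W)) {P d : Fin 2 → K}
    (hd : dt d P ≠ 0) {r : MvPolynomial (Fin 3) (LaurentSeries K)} (hr : r.IsHomogeneous k)
    (hO : Od r) (h : ∀ j : ℕ, j < W → ex j (be P d r) ∈ J ρ (W + 1) (W + 1) (ln d) (vt P))
    (h1 : r ∈ J ρ (W + 1) W (ln (bp (cl K) P)) (X 2)) :
    ∀ j : ℕ, j < W → vt P ^ (W + 1) ∣ ex j (be P d r) := by
  intro j hj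
  exact stat_b hd hj hρ hW h2 (be_hom hr j) (be_deg hO j) (h j hj) (be_J hd h1 j)

theorem con_c {ρ W k : ℕ} (hρ : ρ ≤ k) (hW : W < ρ) (h2 : W ≤ 2 * (ρ - W)) {P d d' : Fin 2 → K}
    (hd : dt d P ≠ 0) (hd' : dt d' P ≠ 0) (hdd : dt d P ≠ dt d' P)
    {r : MvPolynomial (Fin 3) (LaurentSeries K)} (hr : r.IsHomogeneous k) (hO : Od r)
    (h : ∀ j : ℕ, j < W → ex j (be P d r) ∈ J ρ (W + 1) (W + 1) (ln d) (vt P))
    (h' : ∀ j : ℕ, j < W → ex j (be P d' r) ∈ J ρ (W + 1) (W + 1) (ln d') (vt P)) :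
    ∀ j : ℕ, j < W → vt P ^ (W + 1) ∣ ex j (be P d r) := by
  intro j
  induction j using Nat.strong_induction_on with
  | _ j ih =>
    intro hj
    have h3 := be_two hd hd' hO (c := W + 1) (j := j) (fun i hi => ih i hi (lt_trans hi hj))
    refine stat_c hd hd' hdd hj hρ hW h2 (be_hom hr j) (be_deg hO j) (h j hj) ?_
    have h4 : ex j (be P d' r) - ex j (be P d r) ∈ J ρ (W + 1) (W + 1) (ln d') (vt P) :=
      J_right h3
    have h5 := Ideal.sub_mem _ (h' j hj) h4
    rwa [sub_sub_cancel] at h5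

theorem con_d {W : ℕ} {P d : Fin 2 → K} (hd : dt d P ≠ 0)
    {r : MvPolynomial (Fin 3) (LaurentSeries K)} (hO : Od r)
    (h : r ∈ Ideal.span {ln (bp (cl K) P) ^ (W + 1)} ⊔ Ideal.span {(X 2) ^ W}) :
    ∀ j : ℕ, j < W → vt P ^ (W + 1) ∣ ex j (be P d r) := by
  intro j hj
  have h1 : be P d r ∈ (Ideal.span {vt P ^ (W + 1)} ⊔
      Ideal.span {(X 2 : MvPolynomial (Fin 3) K) ^ W}).map (bc (cl K)) := by
    rw [span_bc, map_pow, map_pow, bc_vt, bc_X]
    obtain ⟨u, hu, v, hv, huv⟩ := Submodule.mem_sup.mp h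
    obtain ⟨u', rfl⟩ := Ideal.mem_span_singleton.mp hu
    obtain ⟨v', rfl⟩ := Ideal.mem_span_singleton.mp hv
    rw [← bh_apply, ← huv, map_add, map_mul, map_mul, map_pow, map_pow, bh_lnP hd, bh_X2]
    refine Submodule.add_mem_sup (Ideal.mem_span_singleton.mpr (Dvd.intro _ rfl))
      (Ideal.mem_span_singleton.mpr ?_)
    rw [mul_pow]
    exact ⟨C (ep K) ^ W * bh P d v', by ring⟩
  have h2 := ap_mem (co K j) h1
  change ex j (be P d r) ∈ _ at h2
  have h3 := be_deg (P := P) (d := d) hO j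
  obtain ⟨u, hu, v, hv, huv⟩ := Submodule.mem_sup.mp h2
  rw [← sum_part (n := W) (lt_of_le_of_lt h3 hj)]
  refine Finset.dvd_sum ?_
  intro n hn
  rw [Finset.mem_range] at hn
  have h4 : part n (ex j (be P d r)) = part n u := by
    rw [← huv]
    ext m
    rw [coeff_part, coeff_part]
    split_ifs with hm
    · rw [coeff_add, coeff_of_dvd (Ideal.mem_span_singleton.mp hv) (by omega), add_zero]
    · rfl
  rw [h4]
  exact dvd_part (Ideal.mem_span_singleton.mp hu)

theorem typ_one {ρ W : ℕ} {P d : Fin 2 → K} (hd : dt d P ≠ 0)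
    {r : MvPolynomial (Fin 3) (LaurentSeries K)}
    (h : ∀ j : ℕ, j < W → vt P ^ min (W + 1) (ρ - j) ∣ ex j (be P d r)) :
    ex 0 r ∈ J ρ (W + 1) W (ln P) (X 2) := by
  refine type_one (ed_P hd) ?_
  intro n hn
  rw [← be_part]
  exact dvd_part (h n hn)

theorem typ_two {W : ℕ} {P d : Fin 2 → K} (hd : dt d P ≠ 0)
    {r : MvPolynomial (Fin 3) (LaurentSeries K)}
    (h : ∀ j : ℕ, j < W → vt P ^ (W + 1) ∣ ex j (be P d r)) :
    ex 0 r ∈ Ideal.span {ln P ^ (W + 1)} ⊔ Ideal.span {(X 2) ^ W} := by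
  refine type_two (ed_P hd) ?_
  intro n hn
  rw [← be_part]
  exact dvd_part (h n hn)

theorem z_deg {W : ℕ} (hW : 1 ≤ W) {P d : Fin 2 → K} {r : MvPolynomial (Fin 3) (LaurentSeries K)}
    (hO : Od r) (h0 : ex 0 r = 0) : degreeOf 2 (ex W (be P d r)) < W := by
  rw [degreeOf_lt_iff (by omega)]
  intro m hm
  have h1 : m 2 ≤ W := degreeOf_le_iff.mp (be_deg hO W) m hm
  rcases Nat.lt_or_ge (m 2) W with h2 | h2
  · exact h2
  · exfalso
    have h3 : m 2 = W := le_antisymm h1 h2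
    rw [mem_support_iff] at hm
    apply hm
    have h4 := congrArg (coeff m) (be_part (P := P) (d := d) (r := r) W)
    rw [coeff_part, coeff_part, if_pos h3, if_pos h3, h0, map_zero, coeff_zero] at h4
    exact h4

/-- a reduced form divisible by `ln d ^ (W + 1)` is zero -/
theorem red_zero {W : ℕ} {d : Fin 2 → K} {f : MvPolynomial (Fin 3) K} (h : degreeOf 2 f ≤ W)
    (hf : ln d ^ (W + 1) ∣ f) : f = 0 := by
  by_contra hf0
  obtain ⟨g, rfl⟩ := hf
  have hg : g ≠ 0 := right_ne_zero_of_mul hf0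
  have hc : coeff (Finsupp.single 2 1) (ln d) = 1 := by
    simp only [ln, vt, coeff_add, coeff_C_mul, coeff_X']
    have e0 : ¬ (Finsupp.single (0 : Fin 3) 1 = Finsupp.single 2 1) := by
      intro e
      have := DFunLike.congr_fun e 2
      simp at this
    have e1 : ¬ (Finsupp.single (1 : Fin 3) 1 = Finsupp.single 2 1) := by
      intro e
      have := DFunLike.congr_fun e 2
      simp at this
    rw [if_neg e0, if_neg e1]
    simp
  have hl : ln d ≠ 0 := by
    intro e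
    rw [e, coeff_zero] at hc
    exact zero_ne_one hc
  have h1 : 1 ≤ degreeOf 2 (ln d) := by
    have h2 := degreeOf_le_iff.mp (le_refl (degreeOf 2 (ln d))) (Finsupp.single 2 1)
      (by rw [mem_support_iff, hc]; exact one_ne_zero)
    rwa [Finsupp.single_eq_same] at h2
  rw [degreeOf_mul_eq (pow_ne_zero _ hl) hg, degreeOf_pow_eq _ _ _ hl] at h
  nlinarith

end Pool.Agent.SplW
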