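import Pool.Agent.SplW.Cont

/-!
# Module D: the contraction theorem

PAPER PROOF.  Let `r` be a motion over `F = LaurentSeries K` at the positions `p'` (`ep d v` for `v ∈ S`, `p v` otherwise), not zero on `far`.
Put `R v = r v` for `v ∈ far \ S` and `R v = ep ^ (-W) ga (r v)` for `v ∈ S` (`ga` is injective, `ga_inj`).  By `scale` (multiplying the whole `r` by a power
of `ep` keeps `Mo`) we may assume `Od (R v)` for all `v ∈ far` and `ex 0 (R v) ≠ 0` for some `v ∈ far`.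
(1) `ex 0 (R a)`, `a ∈ far \ S`, is a motion over `K` for `far \ S`, `pin`, types `ty'`: `hom`, `deg` from `ap_hom`, `ap_deg`; `ff`, `fp` and the old type
conditions from `ap_mem` (the ideals are base changes: `J_bc`, `span_bc`, `bc_ln`, `bc_X`).  New types: `ty' a ≥ 1`: either `ty a ≥ 1` (old condition) or `a` is
adjacent to `v ∈ S`: `be_edge` (with `R := r v`, `M := R v`; the edge condition of `r v - r a`, use `J_comm` / symmetry of `adj`), `con_a`, `typ_one`.
`ty' a ≥ 2`: either `ty a ≥ 2` (old), or `ty a ≥ 1` and a neighbour `v ∈ S`: `con_b`, `typ_two`; or two neighbours in `S`: `con_c`, `typ_two`.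
So by `H1` `ex 0 (R a) = 0` for all `a ∈ far \ S`.
(2) `M v = ex 0 (R v)`, `v ∈ S`, satisfies `Lo`: `ss`: apply `ga` to `r u - r v ∈ J (ln (ep d u)) (ln (ep d v))`: `ga (ln (ep d)) = ep ln d`, so
`R u - R v ∈ J (ln d u) (ln d v)` over `F`.  `sp`: as in `be_edge` with `r = 0` (`be` for `P = p b`): `ex 0 M ∈ J (ln d) (vt P)`.  `t1`, `t2`: `ga` again
(`X 2 ↦ ep X 2`).  `sf`: let `ty' a ≥ 2`.  If `a` has no neighbour in `S` take `Z = 0`.  Otherwise fix a neighbour `v₀ ∈ S` and `Z = ex W (be (p a) (d v₀) (r a))`;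
`z_deg` by (1); `be_J` if `ty a ≥ 1`; for `v₀` `be_edge`.  In all cases `vt P ^ (W + 1) ∣ ex j (be (p a) (d v₀) (r a))` for `j < W` (`con_d` if `ty a ≥ 2`, `con_b` if
`ty a = 1`, `con_c` if two neighbours; for `con_c` the first direction has to be `d v₀`: if `v₀` is not one of the two, use `v₀` and one of them); by `be_two`
(`j = W`) `ex W (be (p a) (d v) (r a))` is the same modulo `vt P ^ (W + 1)` for every other neighbour `v ∈ S`: `be_edge` for `v` and `J_right`.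
By `H2` and `red_zero` `ex 0 (R v) = 0` for `v ∈ S`.  Contradiction.
-/

set_option autoImplicit false

namespace Pool.Agent.SplW

open MvPolynomial

variable {K : Type*} [Field K]

section aux

theorem J_mono_c {F : Type*} [Field F] {ρ a b : ℕ} {x y x' y' : MvPolynomial (Fin 3) F}
    (hx : x' ∣ x) (hy : y' ∣ y) : J ρ a b x y ≤ J ρ a b x' y' := by
  unfold J
  refine sup_le_sup (Ideal.pow_right_mono ?_ ρ) (sup_le_sup ?_ ?_)
  · rw [Ideal.span_le]
    intro z hz
    simp only [Set.mem_insert_iff, Set.mem_singleton_iff] at hz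
    rcases hz with rfl | rfl
    · exact Ideal.mem_of_dvd _ hx (Ideal.subset_span (by simp))
    · exact Ideal.mem_of_dvd _ hy (Ideal.subset_span (by simp))
  · rw [Ideal.span_singleton_le_span_singleton]
    exact pow_dvd_pow_of_dvd hx a
  · rw [Ideal.span_singleton_le_span_singleton]
    exact pow_dvd_pow_of_dvd hy b

theorem ga_X2_c : ga K (X 2) = C (ep K) * X 2 := by
  unfold ga
  simp

theorem ga_ln_epd (d : Fin 2 → K) : ga K (ln (epd d)) = C (ep K) * ln (bp (cl K) d) := by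
  unfold ga ln vt epd bp
  simp only [map_add, map_mul, aeval_X, algHom_C, algebraMap_eq, Matrix.cons_val_zero,
    Matrix.cons_val_one, Matrix.cons_val]
  ring

theorem ex_mem {ρ a b : ℕ} {x y : MvPolynomial (Fin 3) K}
    {r : MvPolynomial (Fin 3) (LaurentSeries K)} (i : ℤ)
    (h : r ∈ J ρ a b (bc (cl K) x) (bc (cl K) y)) : ex i r ∈ J ρ a b x y :=
  ap_mem _ (by rw [J_bc]; exact h)

theorem ex_mem2 {a b : ℕ} {x y : MvPolynomial (Fin 3) K}
    {r : MvPolynomial (Fin 3) (LaurentSeries K)} (i : ℤ)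
    (h : r ∈ Ideal.span {bc (cl K) x ^ a} ⊔ Ideal.span {bc (cl K) y ^ b}) :
    ex i r ∈ Ideal.span {x ^ a} ⊔ Ideal.span {y ^ b} :=
  ap_mem _ (by rw [span_bc, map_pow, map_pow]; exact h)

theorem C_ep_inv (W : ℕ) : C (ep K ^ W) * C ((ep K ^ W)⁻¹) = (1 : MvPolynomial (Fin 3) (LaurentSeries K)) := by
  rw [← C_mul, mul_inv_cancel₀ (pow_ne_zero _ ep_ne), C_1]

theorem mem_of_C {I : Ideal (MvPolynomial (Fin 3) (LaurentSeries K))} {W : ℕ}
    {f : MvPolynomial (Fin 3) (LaurentSeries K)} (h : C (ep K ^ W) * f ∈ I) : f ∈ I := by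
  have h1 : f = C ((ep K ^ W)⁻¹) * (C (ep K ^ W) * f) := by
    rw [← mul_assoc, mul_comm (C ((ep K ^ W)⁻¹)), C_ep_inv, one_mul]
  rw [h1]
  exact I.mul_mem_left _ h

/-- a node condition between two moving vertices -/
theorem ga_mem {ρ a b W : ℕ} {d d' : Fin 2 → K} {r M : MvPolynomial (Fin 3) (LaurentSeries K)}
    (h : r ∈ J ρ a b (ln (epd d)) (ln (epd d'))) (hM : ga K r = C (ep K ^ W) * M) (i : ℤ) :
    ex i M ∈ J ρ a b (ln d) (ln d') := by
  apply ex_mem
  rw [bc_ln, bc_ln]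
  apply mem_of_C (W := W)
  rw [← hM]
  have h1 := J_map (ga K).toRingHom h
  change ga K r ∈ J ρ a b (ga K (ln (epd d))) (ga K (ln (epd d'))) at h1
  rw [ga_ln_epd, ga_ln_epd] at h1
  exact J_mono_c (dvd_mul_left _ _) (dvd_mul_left _ _) h1

theorem ga_mem1 {ρ a b W : ℕ} {d : Fin 2 → K} {r M : MvPolynomial (Fin 3) (LaurentSeries K)}
    (h : r ∈ J ρ a b (ln (epd d)) (X 2)) (hM : ga K r = C (ep K ^ W) * M) (i : ℤ) :
    ex i M ∈ J ρ a b (ln d) (X 2) := by
  apply ex_mem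
  rw [bc_ln, bc_X]
  apply mem_of_C (W := W)
  rw [← hM]
  have h1 := J_map (ga K).toRingHom h
  change ga K r ∈ J ρ a b (ga K (ln (epd d))) (ga K (X 2)) at h1
  rw [ga_ln_epd, ga_X2_c] at h1
  exact J_mono_c (dvd_mul_left _ _) (dvd_mul_left _ _) h1

theorem ga_mem2 {a b W : ℕ} {d : Fin 2 → K} {r M : MvPolynomial (Fin 3) (LaurentSeries K)}
    (h : r ∈ Ideal.span {ln (epd d) ^ a} ⊔ Ideal.span {(X 2) ^ b})
    (hM : ga K r = C (ep K ^ W) * M) (i : ℤ) :
    ex i M ∈ Ideal.span {ln d ^ a} ⊔ Ideal.span {(X 2) ^ b} := by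
  apply ex_mem2
  rw [bc_ln, bc_X]
  apply mem_of_C (W := W)
  rw [← hM]
  rw [Submodule.mem_sup] at h
  obtain ⟨x, hx, y, hy, rfl⟩ := h
  rw [Ideal.mem_span_singleton] at hx hy
  obtain ⟨x', rfl⟩ := hx
  obtain ⟨y', rfl⟩ := hy
  rw [map_add, map_mul, map_mul, map_pow, map_pow, ga_ln_epd, ga_X2_c, mul_pow, mul_pow]
  refine Ideal.add_mem _ (Ideal.mem_sup_left ?_) (Ideal.mem_sup_right ?_)
  · rw [Ideal.mem_span_singleton]
    exact ⟨C (ep K) ^ a * ga K x', by ring⟩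
  · rw [Ideal.mem_span_singleton]
    exact ⟨C (ep K) ^ b * ga K y', by ring⟩

theorem smul_mem_iff {I : Ideal (MvPolynomial (Fin 3) (LaurentSeries K))} (c : LaurentSeries K)
    {f : MvPolynomial (Fin 3) (LaurentSeries K)} (h : f ∈ I) : C c * f ∈ I :=
  I.mul_mem_left _ h

theorem C_mul_hom {F : Type*} [Field F] {f : MvPolynomial (Fin 3) F} {k : ℕ}
    (h : f.IsHomogeneous k) (c : F) : (C c * f).IsHomogeneous k := by
  have := (isHomogeneous_C (Fin 3) c).mul h
  rwa [zero_add] at this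

theorem C_mul_deg {F : Type*} [Field F] {f : MvPolynomial (Fin 3) F} {k : ℕ}
    (h : degreeOf 2 f ≤ k) (c : F) : degreeOf 2 (C c * f) ≤ k :=
  (degreeOf_C_mul_le f 2 c).trans h

/-- multiples of motions are motions -/
theorem Mo.C_mul {V : Type*} [DecidableEq V] {F : Type*} [Field F] {ρ W : ℕ} {p : V → Fin 2 → F}
    {far pin : Finset V} {adj : V → V → Prop} {ty : V → ℕ} {r : V → MvPolynomial (Fin 3) F}
    (h : Mo ρ W p far pin adj ty r) (c : F) :
    Mo ρ W p far pin adj ty (fun v => C c * r v) where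
  hom v hv := C_mul_hom (h.hom v hv) c
  deg v hv := C_mul_deg (h.deg v hv) c
  ff u hu v hv huv := by
    rw [← mul_sub]
    exact Ideal.mul_mem_left _ _ (h.ff u hu v hv huv)
  fp u hu v hv huv := Ideal.mul_mem_left _ _ (h.fp u hu v hv huv)
  t1 u hu h1 := Ideal.mul_mem_left _ _ (h.t1 u hu h1)
  t2 u hu h1 := Ideal.mul_mem_left _ _ (h.t2 u hu h1)

end aux

/-- the limit -/
theorem contract_core {V : Type*} [DecidableEq V] {ρ W : ℕ} (hW : 1 ≤ W) (hρ : W < ρ)
    (h2 : W ≤ 2 * (ρ - W)) {d p : V → Fin 2 → K} {S far pin : Finset V} {adj : V → V → Prop}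
    {ty ty' : V → ℕ} (hS : S ⊆ far) (hfp : ∀ v ∈ far, v ∉ pin)
    (hd : ∀ v ∈ S, ∀ a, (a ∈ far ∨ a ∈ pin) → a ∉ S → adj v a → dt (d v) (p a) ≠ 0)
    (hdd : ∀ u ∈ S, ∀ v ∈ S, u ≠ v → ∀ a ∈ far, a ∉ S → adj u a → adj v a →
      dt (d u) (p a) ≠ dt (d v) (p a))
    (ht1 : ∀ a ∈ far, a ∉ S → 1 ≤ ty' a → 1 ≤ ty a ∨ ∃ v ∈ S, adj v a)
    (ht2 : ∀ a ∈ far, a ∉ S → 2 ≤ ty' a → 2 ≤ ty a ∨ (1 ≤ ty a ∧ ∃ v ∈ S, adj v a) ∨
      ∃ u ∈ S, ∃ v ∈ S, u ≠ v ∧ adj u a ∧ adj v a)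
    (H1 : Inj ρ W p (far \ S) pin adj ty')
    (H2 : ∀ M : V → MvPolynomial (Fin 3) K, Lo ρ W d p S far pin adj ty ty' M →
      ∀ v ∈ S, ln (d v) ^ (W + 1) ∣ M v)
    {r R : V → MvPolynomial (Fin 3) (LaurentSeries K)}
    (hr : Mo ρ W (fun v => if v ∈ S then epd (d v) else bp (cl K) (p v)) far pin adj ty r)
    (hR1 : ∀ v, v ∉ S → R v = r v) (hR2 : ∀ v ∈ S, R v = C ((ep K ^ W)⁻¹) * ga K (r v))
    (hO : ∀ v ∈ far, Od (R v)) : ∀ v ∈ far, ex 0 (R v) = 0 := by
  have hga : ∀ v ∈ S, ga K (r v) = C (ep K ^ W) * R v := by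
    intro v hv
    rw [hR2 v hv, ← mul_assoc, C_ep_inv, one_mul]
  have hρk : ρ ≤ 2 * ρ - 1 := by omega
  have hOr : ∀ a ∈ far, a ∉ S → Od (r a) := fun a ha haS => by
    rw [← hR1 a haS]
    exact hO a ha
  -- edges between a far vertex and a moving vertex
  have hedge : ∀ v ∈ S, ∀ a ∈ far, a ∉ S → adj v a →
      (∀ j : ℕ, j < W → ex j (be (p a) (d v) (r a)) ∈ J ρ (W + 1) (W + 1) (ln (d v)) (vt (p a))) ∧
      ex 0 (R v) - ex W (be (p a) (d v) (r a)) ∈
        J ρ (W + 1) (W + 1) (ln (d v)) (vt (p a)) := by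
    intro v hv a ha haS hva
    have h := hr.ff v (hS hv) a ha hva
    simp only [if_pos hv, if_neg haS] at h
    exact be_edge (hd v hv a (Or.inl ha) haS hva) h (hO v (hS hv)) (hga v hv)
  have hty1 : ∀ a ∈ far, a ∉ S → 1 ≤ ty a →
      r a ∈ J ρ (W + 1) W (ln (bp (cl K) (p a))) (X 2) := by
    intro a ha haS h1
    have h := hr.t1 a ha h1
    simp only [if_neg haS] at h
    exact h
  have hty2 : ∀ a ∈ far, a ∉ S → 2 ≤ ty a →
      r a ∈ Ideal.span {ln (bp (cl K) (p a)) ^ (W + 1)} ⊔ Ideal.span {(X 2) ^ W} := by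
    intro a ha haS h1
    have h := hr.t2 a ha h1
    simp only [if_neg haS] at h
    exact h
  -- the coefficients of a vertex of type `2`
  have hdiv : ∀ a ∈ far, a ∉ S → 2 ≤ ty' a → ∀ v₀ ∈ S, adj v₀ a → ∀ j : ℕ, j < W →
      vt (p a) ^ (W + 1) ∣ ex j (be (p a) (d v₀) (r a)) := by
    intro a ha haS ha2 v₀ hv₀ hva
    have hd0 := hd v₀ hv₀ a (Or.inl ha) haS hva
    have hhom := hr.hom a ha
    rcases ht2 a ha haS ha2 with h | ⟨h, -⟩ | ⟨u, hu, v, hv, huv, hua, hva'⟩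
    · exact con_d hd0 (hOr a ha haS) (hty2 a ha haS h)
    · exact con_b hρk hρ h2 hd0 hhom (hOr a ha haS) (hedge v₀ hv₀ a ha haS hva).1
        (hty1 a ha haS h)
    · obtain ⟨v', hv', hne, hva''⟩ : ∃ v' ∈ S, v₀ ≠ v' ∧ adj v' a := by
        by_cases h : v₀ = u
        · exact ⟨v, hv, by rw [h]; exact huv, hva'⟩
        · exact ⟨u, hu, h, hua⟩
      exact con_c hρk hρ h2 hd0 (hd v' hv' a (Or.inl ha) haS hva'')
        (hdd v₀ hv₀ v' hv' hne a ha haS hva hva'') hhom (hOr a ha haS)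
        (hedge v₀ hv₀ a ha haS hva).1 (hedge v' hv' a ha haS hva'').1
  -- step 1: the far vertices
  have step1 : ∀ a ∈ far, a ∉ S → ex 0 (r a) = 0 := by
    have hmo : Mo ρ W p (far \ S) pin adj ty' (fun a => ex 0 (r a)) := by
      refine ⟨?_, ?_, ?_, ?_, ?_, ?_⟩
      · intro v hv
        exact ap_hom _ (hr.hom v (Finset.mem_sdiff.1 hv).1)
      · intro v hv
        exact ap_deg _ (hr.deg v (Finset.mem_sdiff.1 hv).1)
      · intro u hu v hv huv
        rw [Finset.mem_sdiff] at hu hv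
        have h := hr.ff u hu.1 v hv.1 huv
        simp only [if_neg hu.2, if_neg hv.2] at h
        have h1 : ex 0 (r u) - ex 0 (r v) = ex 0 (r u - r v) := (ap_sub _ _ _).symm
        rw [h1]
        apply ex_mem
        rw [bc_ln, bc_ln]
        exact h
      · intro u hu v hv huv
        rw [Finset.mem_sdiff] at hu
        have hvS : v ∉ S := fun h => hfp v (hS h) hv
        have h := hr.fp u hu.1 v hv huv
        simp only [if_neg hu.2, if_neg hvS] at h
        apply ex_mem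
        rw [bc_ln, bc_ln]
        exact h
      · intro a ha h1
        rw [Finset.mem_sdiff] at ha
        rcases ht1 a ha.1 ha.2 h1 with h | ⟨v, hv, hva⟩
        · apply ex_mem
          rw [bc_ln, bc_X]
          exact hty1 a ha.1 ha.2 h
        · have hd0 := hd v hv a (Or.inl ha.1) ha.2 hva
          exact typ_one hd0 (con_a hρk hd0 (hr.hom a ha.1) (hOr a ha.1 ha.2)
            (hedge v hv a ha.1 ha.2 hva).1)
      · intro a ha h1
        rw [Finset.mem_sdiff] at ha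
        by_cases hv : ∃ v ∈ S, adj v a
        · obtain ⟨v, hv, hva⟩ := hv
          exact typ_two (hd v hv a (Or.inl ha.1) ha.2 hva) (hdiv a ha.1 ha.2 h1 v hv hva)
        · have h : 2 ≤ ty a := by
            rcases ht2 a ha.1 ha.2 h1 with h | ⟨-, h⟩ | ⟨u, hu, -, -, -, hua, -⟩
            · exact h
            · exact absurd h hv
            · exact absurd ⟨u, hu, hua⟩ hv
          apply ex_mem2
          rw [bc_ln, bc_X]
          exact hty2 a ha.1 ha.2 h
    intro a ha haS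
    exact H1 _ hmo a (Finset.mem_sdiff.2 ⟨ha, haS⟩)
  -- step 2: the moving vertices
  have hhomR : ∀ v ∈ S, (R v).IsHomogeneous (2 * ρ - 1) := by
    intro v hv
    rw [hR2 v hv]
    exact C_mul_hom (ga_hom (hr.hom v (hS hv))) _
  have hdegR : ∀ v ∈ S, degreeOf 2 (R v) ≤ W := by
    intro v hv
    rw [hR2 v hv]
    exact C_mul_deg (ga_deg (hr.deg v (hS hv))) _
  have hlo : Lo ρ W d p S far pin adj ty ty' (fun v => ex 0 (R v)) := by
    refine ⟨?_, ?_, ?_, ?_, ?_, ?_⟩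
    · intro v hv
      exact ap_hom _ (hhomR v hv)
    · intro u hu v hv huv
      have h := hr.ff u (hS hu) v (hS hv) huv
      simp only [if_pos hu, if_pos hv] at h
      have h1 : ex 0 (R u) - ex 0 (R v) = ex 0 (R u - R v) := (ap_sub _ _ _).symm
      rw [h1]
      exact ga_mem h (by rw [map_sub, hga u hu, hga v hv, mul_sub]) 0
    · intro v hv b hb hvb
      have hbS : b ∉ S := fun h => hfp b (hS h) hb
      have h := hr.fp v (hS hv) b hb hvb
      simp only [if_pos hv, if_neg hbS] at h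
      have h1 := (be_edge (r := 0) (hd v hv b (Or.inr hb) hbS hvb)
        (by rw [sub_zero]; exact h) (hO v (hS hv)) (hga v hv)).2
      have h3 : be (p b) (d v) (0 : MvPolynomial (Fin 3) (LaurentSeries K)) = 0 := by
        unfold be
        rw [map_zero, map_zero]
      rw [h3] at h1
      have h4 : ex (W : ℤ) (0 : MvPolynomial (Fin 3) (LaurentSeries K)) = 0 := ap_zero _
      rw [h4, sub_zero] at h1
      exact h1
    · intro v hv h1
      have h := hr.t1 v (hS hv) h1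
      simp only [if_pos hv] at h
      exact ga_mem1 h (hga v hv) 0
    · intro v hv h1
      have h := hr.t2 v (hS hv) h1
      simp only [if_pos hv] at h
      exact ga_mem2 h (hga v hv) 0
    · intro a ha haS ha2
      by_cases hv : ∃ v ∈ S, adj v a
      · obtain ⟨v₀, hv₀, hva⟩ := hv
        have hd0 := hd v₀ hv₀ a (Or.inl ha) haS hva
        refine ⟨ex W (be (p a) (d v₀) (r a)), be_hom (hr.hom a ha) _,
          z_deg hW (hOr a ha haS) (step1 a ha haS),
          fun h1 => be_J hd0 (hty1 a ha haS h1) _, fun v hv hva' => ?_⟩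
        have h5 := (hedge v hv a ha haS hva').2
        have h6 := be_two hd0 (hd v hv a (Or.inl ha) haS hva') (hOr a ha haS)
          (c := W + 1) (j := W) (hdiv a ha haS ha2 v₀ hv₀ hva)
        have h7 : ex 0 (R v) - ex W (be (p a) (d v₀) (r a)) =
            (ex 0 (R v) - ex W (be (p a) (d v) (r a))) +
              (ex W (be (p a) (d v) (r a)) - ex W (be (p a) (d v₀) (r a))) := by ring
        rw [h7]
        exact Ideal.add_mem _ h5 (J_right h6)
      · refine ⟨0, isHomogeneous_zero _ _ _, ?_, fun _ => Ideal.zero_mem _, fun v hv' hva => ?_⟩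
        · rw [degreeOf_zero]
          exact hW
        · exact absurd ⟨v, hv', hva⟩ hv
  intro v hv
  by_cases hvS : v ∈ S
  · exact red_zero (ap_deg _ (hdegR v hvS)) (H2 _ hlo v hvS)
  · rw [hR1 v hvS]
    exact step1 v hv hvS

theorem contract {V : Type*} [DecidableEq V] {ρ W : ℕ} (hW : 1 ≤ W) (hρ : W < ρ)
    (h2 : W ≤ 2 * (ρ - W)) {d p : V → Fin 2 → K} {S far pin : Finset V} {adj : V → V → Prop}
    {ty ty' : V → ℕ} (hS : S ⊆ far) (hfp : ∀ v ∈ far, v ∉ pin) (hsym : ∀ u v, adj u v → adj v u)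
    (hd : ∀ v ∈ S, ∀ a, (a ∈ far ∨ a ∈ pin) → a ∉ S → adj v a → dt (d v) (p a) ≠ 0)
    (hdd : ∀ u ∈ S, ∀ v ∈ S, u ≠ v → ∀ a ∈ far, a ∉ S → adj u a → adj v a →
      dt (d u) (p a) ≠ dt (d v) (p a))
    (ht1 : ∀ a ∈ far, a ∉ S → 1 ≤ ty' a → 1 ≤ ty a ∨ ∃ v ∈ S, adj v a)
    (ht2 : ∀ a ∈ far, a ∉ S → 2 ≤ ty' a → 2 ≤ ty a ∨ (1 ≤ ty a ∧ ∃ v ∈ S, adj v a) ∨
      ∃ u ∈ S, ∃ v ∈ S, u ≠ v ∧ adj u a ∧ adj v a)
    (H1 : Inj ρ W p (far \ S) pin adj ty')
    (H2 : ∀ M : V → MvPolynomial (Fin 3) K, Lo ρ W d p S far pin adj ty ty' M →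
      ∀ v ∈ S, ln (d v) ^ (W + 1) ∣ M v) :
    Inj ρ W (fun v => if v ∈ S then epd (d v) else bp (cl K) (p v)) far pin adj ty := by
  intro r hr
  by_contra hcon
  push Not at hcon
  obtain ⟨w, hw, hwr⟩ := hcon
  obtain ⟨R, hR⟩ : ∃ R : V → MvPolynomial (Fin 3) (LaurentSeries K),
      ∀ v, R v = if v ∈ S then C ((ep K ^ W)⁻¹) * ga K (r v) else r v := ⟨_, fun _ => rfl⟩
  have hRw : R w ≠ 0 := by
    rw [hR]
    split_ifs
    · intro h0
      have h3 : ga K (r w) = 0 := by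
        have h4 := congrArg (fun x => C (ep K ^ W) * x) h0
        simp only [mul_zero] at h4
        rwa [← mul_assoc, C_ep_inv, one_mul] at h4
      exact hwr (ga_inj h3)
    · exact hwr
  obtain ⟨n, hn1, i, hi, hn2⟩ := scale far R ⟨w, hw, hRw⟩
  refine hn2 (contract_core hW hρ h2 hS hfp hd hdd ht1 ht2 H1 H2 (hr.C_mul (ep K ^ n))
    (R := fun v => C (ep K ^ n) * R v) ?_ ?_ hn1 i hi)
  · intro v hv
    simp only [hR, if_neg hv]
  · intro v hv
    simp only [hR, if_pos hv]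
    rw [map_mul]
    have h5 : ga K (C (ep K ^ n)) = C (ep K ^ n) := by
      unfold ga
      rw [algHom_C, algebraMap_eq]
    rw [h5]
    ring

end Pool.Agent.SplW
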