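import Pool.Agent.SplG.Ideal

/-!
# The W-scheme: definitions

`MP_92924b_an`, Schumaker's number for all `r` and `k ≥ 2 r + 1`.  Notation: `ρ = r + 1`, `g = ⌈ρ / 3⌉`, `W = ρ - g`, `T = W + 1`, forms of degree
`k = 2 ρ - 1` in `X 0, X 1, X 2`.  The line of a vertex with position `d` is `ln d = d 0 X 0 + d 1 X 1 + X 2`; the line `A` is `X 2` (position `0`),
`vt d = d 0 X 0 + d 1 X 1` is the line through the node `A ∩ ln d` and the point `(0 : 0 : 1)`.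
-/

set_option autoImplicit false

namespace Pool.Agent.SplW

open MvPolynomial

section

variable {K : Type*} [Field K]

/-- the linear form `d 0 X 0 + d 1 X 1` -/
noncomputable def vt (d : Fin 2 → K) : MvPolynomial (Fin 3) K := C (d 0) * X 0 + C (d 1) * X 1

/-- the line with position `d` -/
noncomputable def ln (d : Fin 2 → K) : MvPolynomial (Fin 3) K := vt d + X 2

/-- the determinant of two positions -/
def dt (p q : Fin 2 → K) : K := p 0 * q 1 - p 1 * q 0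

/-- the ideal `(x, y)^ρ + (x^a) + (y^b)` -/
noncomputable def J (ρ a b : ℕ) (x y : MvPolynomial (Fin 3) K) : Ideal (MvPolynomial (Fin 3) K) :=
  Ideal.span {x, y} ^ ρ ⊔ (Ideal.span {x ^ a} ⊔ Ideal.span {y ^ b})

/-- the shift `X 0 ↦ X 0 + e 0 X 2`, `X 1 ↦ X 1 + e 1 X 2` -/
noncomputable def sh (e : Fin 2 → K) : MvPolynomial (Fin 3) K →ₐ[K] MvPolynomial (Fin 3) K :=
  aeval ![X 0 + C (e 0) * X 2, X 1 + C (e 1) * X 2, X 2]

end

section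

variable {V : Type*} [DecidableEq V] {K : Type*} [Field K]

/-- **motions with conditions at `A`**, reduced modulo the `T`-th powers of the lines (`T = W + 1`).  `far`: the unknown forms, `pin`: pinned vertices
(`A` itself belongs neither to `far` nor to `pin`), `ty`: the number of neighbours which have been moved to `A`. -/
structure Mo (ρ W : ℕ) (p : V → Fin 2 → K) (far pin : Finset V) (adj : V → V → Prop) (ty : V → ℕ)
    (r : V → MvPolynomial (Fin 3) K) : Prop where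
  hom : ∀ v ∈ far, (r v).IsHomogeneous (2 * ρ - 1)
  deg : ∀ v ∈ far, degreeOf 2 (r v) ≤ W
  ff : ∀ u ∈ far, ∀ v ∈ far, adj u v → r u - r v ∈ J ρ (W + 1) (W + 1) (ln (p u)) (ln (p v))
  fp : ∀ u ∈ far, ∀ v ∈ pin, adj u v → r u ∈ J ρ (W + 1) (W + 1) (ln (p u)) (ln (p v))
  t1 : ∀ u ∈ far, 1 ≤ ty u → r u ∈ J ρ (W + 1) W (ln (p u)) (X 2)
  t2 : ∀ u ∈ far, 2 ≤ ty u → r u ∈ Ideal.span {ln (p u) ^ (W + 1)} ⊔ Ideal.span {(X 2) ^ W}

/-- the system has only the trivial solution -/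
def Inj (ρ W : ℕ) (p : V → Fin 2 → K) (far pin : Finset V) (adj : V → V → Prop) (ty : V → ℕ) :
    Prop :=
  ∀ r : V → MvPolynomial (Fin 3) K, Mo ρ W p far pin adj ty r → ∀ v ∈ far, r v = 0

/-- **the local problem** of a cluster `S` of vertices which moves to `A` in the directions `d`; `ty` and `ty'` are the types before and after -/
structure Lo (ρ W : ℕ) (d p : V → Fin 2 → K) (S far pin : Finset V) (adj : V → V → Prop)
    (ty ty' : V → ℕ) (M : V → MvPolynomial (Fin 3) K) : Prop where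
  hom : ∀ v ∈ S, (M v).IsHomogeneous (2 * ρ - 1)
  ss : ∀ u ∈ S, ∀ v ∈ S, adj u v → M u - M v ∈ J ρ (W + 1) (W + 1) (ln (d u)) (ln (d v))
  sp : ∀ v ∈ S, ∀ b ∈ pin, adj v b → M v ∈ J ρ (W + 1) (W + 1) (ln (d v)) (vt (p b))
  t1 : ∀ v ∈ S, 1 ≤ ty v → M v ∈ J ρ (W + 1) W (ln (d v)) (X 2)
  t2 : ∀ v ∈ S, 2 ≤ ty v → M v ∈ Ideal.span {ln (d v) ^ (W + 1)} ⊔ Ideal.span {(X 2) ^ W}
  sf : ∀ a ∈ far, a ∉ S → 2 ≤ ty' a →
    ∃ Z : MvPolynomial (Fin 3) K, Z.IsHomogeneous (2 * ρ - 1) ∧ degreeOf 2 Z < W ∧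
      (1 ≤ ty a → Z ∈ J ρ (W + 1) W (vt (p a)) (X 2)) ∧
      ∀ v ∈ S, adj v a → M v - Z ∈ J ρ (W + 1) (W + 1) (ln (d v)) (vt (p a))

end

/-- **the pair problem** (the base of the scheme): `w₁`, `w₂` adjacent to `A` (type `1`), `B` pinned and adjacent to `w₁`, `w₃` adjacent to `w₂` (type `1`),
`e` adjacent to both -/
def Pair (ρ W : ℕ) {K : Type*} [Field K] (d₁ d₂ b c e : Fin 2 → K) : Prop :=
  ∀ M₁ M₂ Zc Ze : MvPolynomial (Fin 3) K, M₁.IsHomogeneous (2 * ρ - 1) →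
    M₂.IsHomogeneous (2 * ρ - 1) → Zc.IsHomogeneous (2 * ρ - 1) → Ze.IsHomogeneous (2 * ρ - 1) →
    degreeOf 2 Zc < W → degreeOf 2 Ze < W →
    M₁ ∈ J ρ (W + 1) W (ln d₁) (X 2) → M₂ ∈ J ρ (W + 1) W (ln d₂) (X 2) →
    Zc ∈ J ρ (W + 1) W (vt c) (X 2) →
    M₁ ∈ J ρ (W + 1) (W + 1) (ln d₁) (vt b) →
    M₁ - M₂ ∈ J ρ (W + 1) (W + 1) (ln d₁) (ln d₂) →
    M₂ - Zc ∈ J ρ (W + 1) (W + 1) (ln d₂) (vt c) →
    M₁ - Ze ∈ J ρ (W + 1) (W + 1) (ln d₁) (vt e) →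
    M₂ - Ze ∈ J ρ (W + 1) (W + 1) (ln d₂) (vt e) →
    ln d₁ ^ (W + 1) ∣ M₁ ∧ ln d₂ ^ (W + 1) ∣ M₂

/-- one position for the pair problem, `b = c` is allowed -/
def Special (ρ W : ℕ) : Prop :=
  ∃ (F : Type) (_ : Field F) (_ : CharZero F) (d₁ d₂ b c e : Fin 2 → F), dt d₁ d₂ ≠ 0 ∧
    dt d₁ b ≠ 0 ∧ dt d₁ e ≠ 0 ∧ dt d₂ c ≠ 0 ∧ dt d₂ e ≠ 0 ∧ dt d₁ e ≠ dt d₂ e ∧
    Pair ρ W d₁ d₂ b c e

/-- **the base lemma**: the pair problem is injective for generic directions `d₁`, `d₂`, for any three different nodes `b`, `c`, `e` -/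
def Base (ρ W : ℕ) : Prop :=
  ∀ (K : Type) [Field K] [CharZero K] (b c e : Fin 2 → K), dt b c ≠ 0 → dt b e ≠ 0 → dt c e ≠ 0 →
    ∃ Q : MvPolynomial (Fin 4) K, Q ≠ 0 ∧ ∀ d₁ d₂ : Fin 2 → K,
      eval ![d₁ 0, d₁ 1, d₂ 0, d₂ 1] Q ≠ 0 → Pair ρ W d₁ d₂ b c e

end Pool.Agent.SplW
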