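import Pool.Agent.SplW.Defs

/-!
# Module E: extraction of coefficients along a linear functional

`φ : K →+* F`; `l : Fun φ` is a `K`-linear functional `F → K`.  `ap l f`: apply `l` to every coefficient of `f`.  `bc φ` = base change.
PAPER PROOF: `ap_bc_mul`: compare coefficients (`coeff_mul`, `l` is `K`-linear).  `ap_mem`: an element of `I.map (bc φ)` is a finite sum of `h * bc φ g`
with `g ∈ I` (`Ideal.map` = span of the image, `Submodule.span_induction`); `ap l (h * bc φ g) = ap l h * g`.  `eq_zero_of_ap`: if `f ≠ 0` has a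
coefficient `c ≠ 0`, there is a `K`-linear functional `l` with `l c ≠ 0` (`F` is a `K`-vector space by `φ.toAlgebra`; `Module.Dual` separates points,
`Module.forall_dual_apply_eq_zero_iff`).  `Inj.ext`: for a motion `r` over `F` and every `l` the family `ap l (r v)` is a motion over `K` (all ideals
are base changes: `J_bc`, `bc_ln`).
-/

set_option autoImplicit false

namespace Pool.Agent.SplW

open MvPolynomial

section

variable {K : Type*} [Field K] {F : Type*} [Field F]

/-- base change -/
noncomputable def bc (φ : K →+* F) : MvPolynomial (Fin 3) K →+* MvPolynomial (Fin 3) F := map φ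

/-- base change of positions -/
def bp (φ : K →+* F) (d : Fin 2 → K) : Fin 2 → F := fun i => φ (d i)

/-- `K`-linear functionals -/
structure Fun (φ : K →+* F) where
  l : F →+ K
  hl : ∀ (c : K) (x : F), l (φ c * x) = c * l x

variable {φ : K →+* F}

/-- apply `l` to the coefficients -/
noncomputable def ap (l : Fun φ) (f : MvPolynomial (Fin 3) F) : MvPolynomial (Fin 3) K :=
  ∑ m ∈ f.support, monomial m (l.l (coeff m f))

theorem coeff_ap (l : Fun φ) (f : MvPolynomial (Fin 3) F) (m : Fin 3 →₀ ℕ) :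
    coeff m (ap l f) = l.l (coeff m f) := by
  classical
  unfold ap
  rw [coeff_sum]
  simp only [coeff_monomial]
  rw [Finset.sum_ite_eq']
  split_ifs with h
  · rfl
  · rw [notMem_support_iff.1 h, map_zero]

theorem ap_zero (l : Fun φ) : ap l 0 = 0 := by
  ext m
  rw [coeff_ap, coeff_zero, coeff_zero, map_zero]

theorem ap_add (l : Fun φ) (f g : MvPolynomial (Fin 3) F) : ap l (f + g) = ap l f + ap l g := by
  ext m
  rw [coeff_ap, coeff_add, coeff_add, coeff_ap, coeff_ap, map_add]

theorem ap_sub (l : Fun φ) (f g : MvPolynomial (Fin 3) F) : ap l (f - g) = ap l f - ap l g := by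
  ext m
  rw [coeff_ap, coeff_sub, coeff_sub, coeff_ap, coeff_ap, map_sub]

theorem ap_bc_mul (l : Fun φ) (g : MvPolynomial (Fin 3) K) (f : MvPolynomial (Fin 3) F) :
    ap l (bc φ g * f) = g * ap l f := by
  classical
  ext m
  rw [coeff_ap, coeff_mul, coeff_mul, map_sum]
  refine Finset.sum_congr rfl fun x _ => ?_
  unfold bc
  rw [coeff_map, l.hl, coeff_ap]

theorem ap_bc (l : Fun φ) (g : MvPolynomial (Fin 3) K) : ap l (bc φ g) = C (l.l 1) * g := by
  have h1 : ap l (1 : MvPolynomial (Fin 3) F) = C (l.l 1) := by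
    ext m
    rw [coeff_ap, coeff_C, ← C_1, coeff_C]
    split_ifs
    · rfl
    · rw [map_zero]
  have h2 := ap_bc_mul l g 1
  rw [mul_one, h1, mul_comm] at h2
  exact h2

theorem ap_mem (l : Fun φ) {I : Ideal (MvPolynomial (Fin 3) K)} {f : MvPolynomial (Fin 3) F}
    (h : f ∈ I.map (bc φ)) : ap l f ∈ I := by
  have key : ∀ h : MvPolynomial (Fin 3) F, ap l (h * f) ∈ I := by
    refine Submodule.span_induction (p := fun f _ => ∀ h : MvPolynomial (Fin 3) F, ap l (h * f) ∈ I)
      ?_ ?_ ?_ ?_ h
    · rintro _ ⟨g, hg, rfl⟩ h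
      rw [mul_comm, ap_bc_mul]
      exact I.mul_mem_right _ hg
    · intro h
      rw [mul_zero, ap_zero]
      exact I.zero_mem
    · intro x y _ _ hx hy h
      rw [mul_add, ap_add]
      exact I.add_mem (hx h) (hy h)
    · intro a x _ hx h
      rw [smul_eq_mul, ← mul_assoc]
      exact hx _
  have := key 1
  rwa [one_mul] at this

theorem ap_dvd (l : Fun φ) {g : MvPolynomial (Fin 3) K} {f : MvPolynomial (Fin 3) F}
    (h : bc φ g ∣ f) : g ∣ ap l f := by
  obtain ⟨q, rfl⟩ := h
  exact ⟨ap l q, ap_bc_mul l g q⟩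

theorem ap_hom (l : Fun φ) {f : MvPolynomial (Fin 3) F} {k : ℕ} (h : f.IsHomogeneous k) :
    (ap l f).IsHomogeneous k := by
  intro d hd
  refine h ?_
  intro h0
  refine hd ?_
  rw [coeff_ap, h0, map_zero]

theorem ap_deg (l : Fun φ) {f : MvPolynomial (Fin 3) F} {n : ℕ} (h : degreeOf 2 f ≤ n) :
    degreeOf 2 (ap l f) ≤ n := by
  rw [degreeOf_le_iff] at h ⊢
  intro m hm
  refine h m ?_
  rw [mem_support_iff] at hm ⊢
  intro h0
  refine hm ?_
  rw [coeff_ap, h0, map_zero]

theorem eq_zero_of_ap {f : MvPolynomial (Fin 3) F} (h : ∀ l : Fun φ, ap l f = 0) : f = 0 := by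
  letI : Algebra K F := φ.toAlgebra
  ext m
  rw [coeff_zero]
  refine (Module.forall_dual_apply_eq_zero_iff K (coeff m f)).1 fun l0 => ?_
  have h1 := h ⟨l0.toAddMonoidHom, fun c x => by
    have h2 : φ c * x = c • x := by
      rw [Algebra.smul_def]
      rfl
    rw [h2]
    exact l0.map_smul c x⟩
  have h2 := congrArg (coeff m) h1
  rw [coeff_ap, coeff_zero] at h2
  exact h2

variable (φ)

theorem bc_X (i : Fin 3) : bc φ (X i) = X i := by
  unfold bc
  exact map_X _ _

theorem bc_vt (d : Fin 2 → K) : bc φ (vt d) = vt (bp φ d) := by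
  unfold bc vt bp
  simp only [map_add, map_mul, map_C, map_X]

theorem bc_ln (d : Fin 2 → K) : bc φ (ln d) = ln (bp φ d) := by
  unfold ln
  rw [map_add, bc_vt, bc_X]

theorem J_bc (ρ a b : ℕ) (x y : MvPolynomial (Fin 3) K) :
    (J ρ a b x y).map (bc φ) = J ρ a b (bc φ x) (bc φ y) := by
  unfold J
  rw [Ideal.map_sup, Ideal.map_sup, Ideal.map_pow, Ideal.map_span, Ideal.map_span, Ideal.map_span,
    Set.image_pair, Set.image_singleton, Set.image_singleton, map_pow, map_pow]

theorem span_bc (x y : MvPolynomial (Fin 3) K) :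
    (Ideal.span {x} ⊔ Ideal.span {y}).map (bc φ) =
      Ideal.span {bc φ x} ⊔ Ideal.span {bc φ y} := by
  rw [Ideal.map_sup, Ideal.map_span, Ideal.map_span, Set.image_singleton, Set.image_singleton]

end

/-- injectivity is preserved by field extensions -/
theorem Inj.ext {V : Type*} [DecidableEq V] {K : Type*} [Field K] {F : Type*} [Field F]
    (φ : K →+* F) {ρ W : ℕ} {p : V → Fin 2 → K} {far pin : Finset V} {adj : V → V → Prop}
    {ty : V → ℕ} (h : Inj ρ W p far pin adj ty) :
    Inj ρ W (fun v => bp φ (p v)) far pin adj ty := by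
  intro r hr v hv
  refine eq_zero_of_ap (φ := φ) fun l => ?_
  refine h (fun v => ap l (r v)) ?_ v hv
  refine ⟨fun v hv => ap_hom l (hr.hom v hv), fun v hv => ap_deg l (hr.deg v hv), ?_, ?_, ?_, ?_⟩
  · intro u hu v hv huv
    have h1 := hr.ff u hu v hv huv
    rw [← bc_ln, ← bc_ln, ← J_bc] at h1
    rw [← ap_sub]
    exact ap_mem l h1
  · intro u hu v hv huv
    have h1 := hr.fp u hu v hv huv
    rw [← bc_ln, ← bc_ln, ← J_bc] at h1
    exact ap_mem l h1
  · intro u hu hu1
    have h1 := hr.t1 u hu hu1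
    rw [← bc_ln, ← bc_X φ, ← J_bc] at h1
    exact ap_mem l h1
  · intro u hu hu1
    have h1 := hr.t2 u hu hu1
    rw [← bc_ln, ← bc_X φ, ← map_pow, ← map_pow, ← span_bc] at h1
    exact ap_mem l h1

end Pool.Agent.SplW
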