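import Pool.Agent.SplW.Stat

/-!
# Module LO: the local lemma (one vertex of type 2 with two good neighbours)

Notation: `T = W + 1`, `k = 2 ρ - 1`, `g = ρ - W`, `t = X 2`, `y = ln d`, `z = vt d`, `A = vt a`, `B = vt b`; `W ≤ 2 g ≤ W + 2`, `g ≤ W`.  `A`, `B` are independent
forms in `X 0, X 1`, `z = α A + β B` with `α, β ≠ 0`; the frame is `A, B, y` or `A, B, t` (`t = y - z`).  `pe (dr a)` is the restriction to `A = 0`
(`pe (dr a) t = X`, `pe (dr a) y = X - C x`, `x = dt d a ≠ 0`, `pe (dr a) B` a non zero constant).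
PAPER PROOF.
(0) `Za`: `degreeOf 2 Za < W` and `Za ∈ (A, t)^ρ + (A^T) + (t^W)`, so the coefficient of `t ^ n`, `n < W` (a form in `A, B`) is divisible by
`A ^ min T (ρ - n)`.  In particular `A ^ (g + 1) ∣ Za` (`ρ - n ≥ g + 1`, `T ≥ g + 1`), and for `l ≤ W`, `Za = A ^ l Z'`: `X ^ (ρ - l) ∣ pe (dr a) Z'` (a coefficient
`t ^ n` of `Z'` not divisible by `A` needs `min T (ρ - n) ≤ l`).
(1) `M = t ^ W N + y ^ T (..)`, `N` homogeneous of degree `k - W`; changing `N` modulo `y ^ T` we may take `N = ∑_{i < T} y ^ i N_i(A, B)`.  Claim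
`A ^ g ∣ N`: if `N = A ^ l N'`, `l < g`, then `A ^ l (t ^ W N' - Za / A ^ l) ∈ J` gives (`low_level`, `min (ρ - l) T = T`) `t ^ W N' - .. ∈ (A) + (y ^ T)`, and `A ∣ Za / A ^ l`;
`pe`: `(X - x) ^ T ∣ X ^ W pe N'`, so `(X - x) ^ T ∣ pe N' = ∑_{i < T} (X - x) ^ i c_i`, so `pe N' = 0` and `A ∣ N'` (`dvd_of_pe`).  The same for `B`: `N = (A B) ^ g N'`,
`N'` homogeneous of degree `2 W - 1 - W = W - 1`.
(2) Claim: for `l ≤ W - g + 1`: `(A B) ^ l ∣ N'`, `A ^ (g + l) ∣ Za`, `B ^ (g + l) ∣ Zb`.  Step `l → l + 1`, `l ≤ W - g`: `N' = (A B) ^ l N''`, `Za = A ^ (g + l) Z''`.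
`A ^ (g + l) (t ^ W B ^ (g + l) N'' - Z'') ∈ J ρ T T y A`, `g + l < T`; `low_level` and `pe`: `(X - x) ^ min (ρ - g - l) T = (X - x) ^ (W - l)` divides
`Q := c X ^ W pe N'' - pe Z''` (`c ≠ 0`); `X ^ (W - l)` divides `Q` by (0); `deg pe N'' ≤ W - 1 - 2 l`, `deg pe Z'' < W ≤ 2 (W - l)` (as `2 (W - g) ≤ W`), so
`deg Q < 2 (W - l)` and `Q = 0`; the two parts have degrees `≥ W` and `< W`, so both vanish: `A ∣ N''`, `A ∣ Z''`.  The same for `B`; `A`, `B` are coprime.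
(3) `l = W - g + 1`: `(A B) ^ (W - g + 1)` has degree `2 (W - g + 1) > W - 1 = deg N'` (`2 g ≤ W + 2`), so `N' = 0` and `y ^ T ∣ M`.
-/

set_option autoImplicit false

namespace Pool.Agent.SplW

open MvPolynomial

variable {K : Type*} [Field K]

theorem hc_mul {a q : MvPolynomial (Fin 3) K} {s k : ℕ} (ha : a.IsHomogeneous s) (h : s ≤ k) :
    homogeneousComponent k (a * q) = a * homogeneousComponent (k - s) q := by
  have h2 : homogeneousComponent k (a * q) = homogeneousComponent k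
      (∑ n ∈ Finset.range (q.totalDegree + 1), a * homogeneousComponent n q) := by
    rw [← Finset.mul_sum, sum_homogeneousComponent]
  have h3 : ∀ n, homogeneousComponent k (a * homogeneousComponent n q) =
      if k = s + n then a * homogeneousComponent n q else 0 := fun n =>
    homogeneousComponent_of_mem ((mem_homogeneousSubmodule _ _).2
      (ha.mul (homogeneousComponent_isHomogeneous _ _)))
  have h4 : ∀ n, (if k = s + n then a * homogeneousComponent n q else 0) =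
      if n = k - s then a * homogeneousComponent (k - s) q else 0 := by
    intro n
    by_cases hn : k = s + n
    · have h5 : n = k - s := by omega
      rw [if_pos hn, if_pos h5, h5]
    · rw [if_neg hn, if_neg (by omega)]
  rw [h2, map_sum]
  simp only [h3, h4]
  rw [Finset.sum_ite_eq' (Finset.range (q.totalDegree + 1)) (k - s)
    (fun _ => a * homogeneousComponent (k - s) q)]
  split_ifs with h6
  · rfl
  · rw [Finset.mem_range] at h6
    rw [homogeneousComponent_eq_zero (k - s) q (by omega), mul_zero]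

theorem degreeOf_hc {f : MvPolynomial (Fin 3) K} {n W : ℕ} (h : degreeOf 2 f ≤ W) :
    degreeOf 2 (homogeneousComponent n f) ≤ W := by
  rw [degreeOf_le_iff] at h ⊢
  intro m hm
  apply h m
  rw [mem_support_iff, coeff_homogeneousComponent] at hm
  rw [mem_support_iff]
  intro h0
  apply hm
  rw [h0, ite_self]

theorem vt_hom (d : Fin 2 → K) : (vt d).IsHomogeneous 1 := by
  unfold vt
  refine IsHomogeneous.add ?_ ?_
  · exact (isHomogeneous_C_mul_X _ _)
  · exact (isHomogeneous_C_mul_X _ _)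

theorem ln_hom (d : Fin 2 → K) : (ln d).IsHomogeneous 1 := by
  unfold ln
  exact (vt_hom d).add (isHomogeneous_X _ _)

theorem degreeOf_vt (d : Fin 2 → K) : degreeOf 2 (vt d) = 0 := by
  have h0 : degreeOf 2 (X 0 : MvPolynomial (Fin 3) K) = 0 := by
    rw [degreeOf_X]; simp
  have h1 : degreeOf 2 (X 1 : MvPolynomial (Fin 3) K) = 0 := by
    rw [degreeOf_X]; simp
  unfold vt
  have h2 := degreeOf_add_le 2 (C (d 0) * X 0 : MvPolynomial (Fin 3) K) (C (d 1) * X 1)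
  have h3 := degreeOf_C_mul_le (X 0 : MvPolynomial (Fin 3) K) 2 (d 0)
  have h4 := degreeOf_C_mul_le (X 1 : MvPolynomial (Fin 3) K) 2 (d 1)
  have h5 : max (degreeOf 2 (C (d 0) * X 0 : MvPolynomial (Fin 3) K))
      (degreeOf 2 (C (d 1) * X 1 : MvPolynomial (Fin 3) K)) ≤ 0 := by
    apply max_le <;> omega
  omega

theorem degreeOf_ln (d : Fin 2 → K) : degreeOf 2 (ln d) ≤ 1 := by
  unfold ln
  refine (degreeOf_add_le _ _ _).trans ?_
  rw [degreeOf_vt, degreeOf_X]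
  simp

/-- division by `ln d ^ (W + 1)` -/
theorem red_ex0 {W : ℕ} (d : Fin 2 → K) (f : MvPolynomial (Fin 3) K) :
    ∃ q r : MvPolynomial (Fin 3) K, f = ln d ^ (W + 1) * q + r ∧ degreeOf 2 r ≤ W := by
  have hadd : ∀ f g : MvPolynomial (Fin 3) K,
      (∃ q r : MvPolynomial (Fin 3) K, f = ln d ^ (W + 1) * q + r ∧ degreeOf 2 r ≤ W) →
      (∃ q r : MvPolynomial (Fin 3) K, g = ln d ^ (W + 1) * q + r ∧ degreeOf 2 r ≤ W) →
      ∃ q r : MvPolynomial (Fin 3) K, f + g = ln d ^ (W + 1) * q + r ∧ degreeOf 2 r ≤ W := by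
    rintro f g ⟨q, r, h1, h2⟩ ⟨q', r', h3, h4⟩
    refine ⟨q + q', r + r', by rw [h1, h3]; ring, ?_⟩
    exact (degreeOf_add_le _ _ _).trans (max_le h2 h4)
  have hzero : ∃ q r : MvPolynomial (Fin 3) K, (0 : MvPolynomial (Fin 3) K) =
      ln d ^ (W + 1) * q + r ∧ degreeOf 2 r ≤ W := ⟨0, 0, by simp, by simp⟩
  rw [f.as_sum]
  refine Finset.sum_induction _ (fun f : MvPolynomial (Fin 3) K =>
    ∃ q r : MvPolynomial (Fin 3) K, f = ln d ^ (W + 1) * q + r ∧ degreeOf 2 r ≤ W)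
    hadd hzero ?_
  intro m _
  have h1 : monomial m (coeff m f) = C (coeff m f) * (X 0 ^ m 0 * X 1 ^ m 1) *
      (ln d + -vt d) ^ m 2 := by
    rw [monomial_eq, Finsupp.prod_fintype _ _ (fun i => pow_zero _), Fin.prod_univ_three]
    have h2 : ln d + -vt d = (X 2 : MvPolynomial (Fin 3) K) := by
      unfold ln; ring
    rw [h2]
    ring
  rw [h1, add_pow, Finset.mul_sum]
  refine Finset.sum_induction _ (fun f : MvPolynomial (Fin 3) K =>
    ∃ q r : MvPolynomial (Fin 3) K, f = ln d ^ (W + 1) * q + r ∧ degreeOf 2 r ≤ W)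
    hadd hzero ?_
  intro i _
  by_cases hi : i ≤ W
  · refine ⟨0, _, by rw [mul_zero, zero_add], ?_⟩
    have h0 : degreeOf 2 (X 0 : MvPolynomial (Fin 3) K) = 0 := by
      rw [degreeOf_X]; simp
    have h1 : degreeOf 2 (X 1 : MvPolynomial (Fin 3) K) = 0 := by
      rw [degreeOf_X]; simp
    have hp0 : degreeOf 2 (X 0 ^ m 0 : MvPolynomial (Fin 3) K) ≤ 0 := by
      refine (degreeOf_pow_le _ _ _).trans ?_
      rw [h0, mul_zero]
    have hp1 : degreeOf 2 (X 1 ^ m 1 : MvPolynomial (Fin 3) K) ≤ 0 := by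
      refine (degreeOf_pow_le _ _ _).trans ?_
      rw [h1, mul_zero]
    have hp2 : degreeOf 2 (ln d ^ i) ≤ i := by
      refine (degreeOf_pow_le _ _ _).trans ?_
      have := degreeOf_ln d
      nlinarith
    have hn : degreeOf 2 (-vt d) = 0 := by
      rw [degreeOf_neg, degreeOf_vt]
    have hp3 : degreeOf 2 ((-vt d) ^ (m 2 - i)) ≤ 0 := by
      refine (degreeOf_pow_le _ _ _).trans ?_
      rw [hn, mul_zero]
    have hp4 : degreeOf 2 (((m 2).choose i : ℕ) : MvPolynomial (Fin 3) K) ≤ 0 := by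
      have : (((m 2).choose i : ℕ) : MvPolynomial (Fin 3) K) = C (((m 2).choose i : ℕ) : K) := by
        rw [map_natCast]
      rw [this, degreeOf_C]
    have hp5 : degreeOf 2 (C (coeff m f) : MvPolynomial (Fin 3) K) = 0 := degreeOf_C _ _
    have e1 := degreeOf_mul_le 2 (C (coeff m f) * (X 0 ^ m 0 * X 1 ^ m 1))
      (ln d ^ i * (-vt d) ^ (m 2 - i) * (((m 2).choose i : ℕ) : MvPolynomial (Fin 3) K))
    have e2 := degreeOf_mul_le 2 (C (coeff m f) : MvPolynomial (Fin 3) K) (X 0 ^ m 0 * X 1 ^ m 1)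
    have e3 := degreeOf_mul_le 2 (X 0 ^ m 0 : MvPolynomial (Fin 3) K) (X 1 ^ m 1)
    have e4 := degreeOf_mul_le 2 (ln d ^ i * (-vt d) ^ (m 2 - i))
      (((m 2).choose i : ℕ) : MvPolynomial (Fin 3) K)
    have e5 := degreeOf_mul_le 2 (ln d ^ i) ((-vt d) ^ (m 2 - i))
    omega
  · refine ⟨C (coeff m f) * (X 0 ^ m 0 * X 1 ^ m 1) * (ln d ^ (i - (W + 1)) *
      (-vt d) ^ (m 2 - i) * (((m 2).choose i : ℕ) : MvPolynomial (Fin 3) K)), 0, ?_, by simp⟩
    have h2 : ln d ^ i = ln d ^ (W + 1) * ln d ^ (i - (W + 1)) := by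
      rw [← pow_add]; congr 1; omega
    rw [h2]
    ring

/-- division by `ln d ^ (W + 1)` in a homogeneous form -/
theorem red_ex {W n : ℕ} (d : Fin 2 → K) {f : MvPolynomial (Fin 3) K} (hf : f.IsHomogeneous n)
    (hn : W + 1 ≤ n) :
    ∃ q r : MvPolynomial (Fin 3) K, f = ln d ^ (W + 1) * q + r ∧ r.IsHomogeneous n ∧
      degreeOf 2 r ≤ W := by
  obtain ⟨q, r, h1, h2⟩ := red_ex0 (W := W) d f
  refine ⟨homogeneousComponent (n - (W + 1)) q, homogeneousComponent n r, ?_,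
    homogeneousComponent_isHomogeneous _ _, degreeOf_hc h2⟩
  have h3 : f = homogeneousComponent n f :=
    (homogeneousComponent_eq_self ((mem_homogeneousSubmodule _ _).2 hf)).symm
  have h4 : (ln d ^ (W + 1)).IsHomogeneous (W + 1) := by
    simpa using (ln_hom d).pow (W + 1)
  rw [← hc_mul h4 hn, ← map_add, ← h1, ← h3]

/-- the one variable step -/
theorem uni {x c : K} (hx : x ≠ 0) (hc : c ≠ 0) {F G : Polynomial K} {i j W w : ℕ}
    (hF : F.natDegree ≤ w) (hG : G.natDegree < W)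
    (h1 : (Polynomial.X - Polynomial.C x) ^ i ∣ Polynomial.X ^ W * (Polynomial.C c * F) - G)
    (h2 : Polynomial.X ^ j ∣ G) (hj : j ≤ W) (hs : W + w < i + j) : F = 0 ∧ G = 0 := by
  have h3 : (Polynomial.X : Polynomial K) ^ j ∣ Polynomial.X ^ W * (Polynomial.C c * F) - G :=
    dvd_sub (Dvd.dvd.mul_right (pow_dvd_pow _ hj) _) h2
  have hcop : IsCoprime ((Polynomial.X - Polynomial.C x) ^ i : Polynomial K)
      (Polynomial.X ^ j) := by
    apply IsCoprime.pow
    have h4 := Polynomial.isCoprime_X_sub_C_of_isUnit_sub (R := K) (a := x) (b := 0)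
      (by rw [sub_zero]; exact isUnit_iff_ne_zero.2 hx)
    simpa using h4
  have h5 := hcop.mul_dvd h1 h3
  have h6 : (Polynomial.X ^ W * (Polynomial.C c * F) - G).natDegree ≤ W + w := by
    refine (Polynomial.natDegree_sub_le _ _).trans (max_le ?_ (by omega))
    refine Polynomial.natDegree_mul_le.trans ?_
    rw [Polynomial.natDegree_X_pow]
    have h7 := Polynomial.natDegree_C_mul_le c F
    omega
  have h8 : ((Polynomial.X - Polynomial.C x) ^ i * Polynomial.X ^ j : Polynomial K).natDegree =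
      i + j := by
    rw [Polynomial.natDegree_mul (pow_ne_zero _ (Polynomial.X_sub_C_ne_zero x))
      (pow_ne_zero _ Polynomial.X_ne_zero), Polynomial.natDegree_pow,
      Polynomial.natDegree_X_sub_C, Polynomial.natDegree_X_pow, mul_one]
  have h9 := Polynomial.eq_zero_of_dvd_of_natDegree_lt h5 (by omega)
  have h10 : G = Polynomial.X ^ W * (Polynomial.C c * F) := (sub_eq_zero.1 h9).symm
  have hF0 : F = 0 := by
    by_contra hF0
    have h11 : G.natDegree = W + F.natDegree := by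
      rw [h10, Polynomial.natDegree_mul (pow_ne_zero _ Polynomial.X_ne_zero)
        (mul_ne_zero (Polynomial.C_ne_zero.2 hc) hF0), Polynomial.natDegree_X_pow,
        Polynomial.natDegree_C_mul hc]
    omega
  exact ⟨hF0, by rw [h10, hF0, mul_zero, mul_zero]⟩

theorem pe_self (P : Fin 2 → K) : pe (dr P) (vt P) = 0 := by
  rw [pe_vt]
  have : dt P P = 0 := by unfold dt; ring
  rw [this, neg_zero, Polynomial.C_0]

theorem pe_dvd {P : Fin 2 → K} {s H : MvPolynomial (Fin 3) K} {n : ℕ}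
    (h : H ∈ Ideal.span {vt P} ⊔ Ideal.span {s ^ n}) :
    (pe (dr P) s) ^ n ∣ pe (dr P) H := by
  rw [Ideal.mem_span_singleton_sup] at h
  obtain ⟨u, b, hb, hH⟩ := h
  rw [Ideal.mem_span_singleton] at hb
  obtain ⟨v, rfl⟩ := hb
  rw [← hH, map_add, map_mul, pe_self, mul_zero, zero_add, map_mul, map_pow]
  exact Dvd.intro _ rfl

theorem ne_zero_of_dt {d a : Fin 2 → K} (h : dt d a ≠ 0) : a ≠ 0 := by
  rintro rfl
  apply h
  unfold dt
  simp

/-- one side -/
theorem side {ρ W m s₁ s₂ w : ℕ} {a d : Fin 2 → K} (hda : dt d a ≠ 0) (hW : 1 ≤ W)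
    {N U Z : MvPolynomial (Fin 3) K} {c : K} (hc : c ≠ 0)
    (hU : pe (dr a) U = Polynomial.C c) (hN : N.IsHomogeneous s₁) (hZ : Z.IsHomogeneous s₂)
    (dN : degreeOf 2 N ≤ w) (dZ : degreeOf 2 Z ≤ W - 1) (hm : m < W + 1)
    (hs : W + w < min (ρ - m) (W + 1) + min (ρ - m) W)
    (e1 : vt a ^ m * (X 2 ^ W * (U * N) - Z) ∈ J ρ (W + 1) (W + 1) (ln d) (vt a))
    (e2 : vt a ^ m * Z ∈ J ρ (W + 1) W (vt a) (X 2)) : vt a ∣ N ∧ vt a ∣ Z := by
  have ha := ne_zero_of_dt hda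
  obtain ⟨φ, hφ1, hφ2, -⟩ := frame hda
  obtain ⟨φ', hφ1', hφ2', -⟩ := frame2 ha
  rw [J_comm] at e1
  have f1 := pe_dvd (low_level φ hφ1 hφ2 hm e1)
  have f2 := pe_dvd (low_level φ' hφ1' hφ2' hm e2)
  rw [pe_ln, map_sub, map_mul, map_mul, map_pow, pe_X2, hU] at f1
  rw [pe_X2] at f2
  have g1 := pe_deg (dr a) dN
  have g2 := pe_deg (dr a) dZ
  have hx : dt a d ≠ 0 := by
    intro h
    apply hda
    have : dt d a = -dt a d := by unfold dt; ring
    rw [this, h, neg_zero]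
  obtain ⟨h1, h2⟩ := uni (by first | exact hx | exact hda) hc g1 (by omega) f1 f2 (min_le_right _ _) hs
  exact ⟨dvd_of_pe ha hN h1, dvd_of_pe ha hZ h2⟩

theorem hom_vt {P : Fin 2 → K} (hP : P ≠ 0) {f : MvPolynomial (Fin 3) K} {k l j : ℕ}
    (h0 : vt P ^ l * f ≠ 0) (hf : (vt P ^ l * f).IsHomogeneous k)
    (hj : degreeOf 2 (vt P ^ l * f) ≤ j) :
    l ≤ k ∧ f.IsHomogeneous (k - l) ∧ degreeOf 2 f ≤ j := by
  have h1 : vt P ^ l ≠ 0 := left_ne_zero_of_mul h0
  have h2 : f ≠ 0 := right_ne_zero_of_mul h0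
  have h3 : (vt P ^ l).IsHomogeneous l := by
    simpa using (vt_hom P).pow l
  have h4 := totalDegree_mul_of_isDomain h1 h2
  rw [hf.totalDegree h0, h3.totalDegree h1] at h4
  have h5 : l ≤ k := by omega
  exact ⟨h5, cancel_vt hP hf h5 hj⟩

theorem local_one {ρ W g : ℕ} (hg : W + g = ρ) (h1 : W ≤ 2 * g) (h2 : 2 * g ≤ W + 2) (h3 : g ≤ W)
    (h4 : 1 ≤ W) {d a b : Fin 2 → K} (hda : dt d a ≠ 0) (hdb : dt d b ≠ 0) (hab : dt a b ≠ 0)
    {M Za Zb : MvPolynomial (Fin 3) K} (hM : M.IsHomogeneous (2 * ρ - 1))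
    (hZa : Za.IsHomogeneous (2 * ρ - 1)) (hZb : Zb.IsHomogeneous (2 * ρ - 1))
    (dZa : degreeOf 2 Za < W) (dZb : degreeOf 2 Zb < W)
    (mM : M ∈ Ideal.span {ln d ^ (W + 1)} ⊔ Ideal.span {(X 2) ^ W})
    (mZa : Za ∈ J ρ (W + 1) W (vt a) (X 2)) (mZb : Zb ∈ J ρ (W + 1) W (vt b) (X 2))
    (ma : M - Za ∈ J ρ (W + 1) (W + 1) (ln d) (vt a))
    (mb : M - Zb ∈ J ρ (W + 1) (W + 1) (ln d) (vt b)) : ln d ^ (W + 1) ∣ M := by
  have ha := ne_zero_of_dt hda
  have hb := ne_zero_of_dt hdb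
  have hba : dt b a ≠ 0 := by
    intro h
    apply hab
    have : dt a b = -dt b a := by unfold dt; ring
    rw [this, h, neg_zero]
  rw [Ideal.mem_span_singleton_sup] at mM
  obtain ⟨u, v0, hv0, hMe⟩ := mM
  rw [Ideal.mem_span_singleton] at hv0
  obtain ⟨v, rfl⟩ := hv0
  have hT : (ln d ^ (W + 1)).IsHomogeneous (W + 1) := by
    simpa using (ln_hom d).pow (W + 1)
  have ht : ((X 2 : MvPolynomial (Fin 3) K) ^ W).IsHomogeneous W := by
    simpa using (isHomogeneous_X K (2 : Fin 3)).pow W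
  have hM2 : M = ln d ^ (W + 1) * homogeneousComponent (2 * ρ - 1 - (W + 1)) u +
      X 2 ^ W * homogeneousComponent (2 * ρ - 1 - W) v := by
    have h5 : M = homogeneousComponent (2 * ρ - 1) M :=
      (homogeneousComponent_eq_self ((mem_homogeneousSubmodule _ _).2 hM)).symm
    rw [← hc_mul hT (by omega), ← hc_mul ht (by omega), ← map_add]
    refine h5.trans ?_
    congr 1
    rw [← hMe]
    ring
  obtain ⟨q, N, hq, hN, dN⟩ := red_ex (W := W) d
    (homogeneousComponent_isHomogeneous (2 * ρ - 1 - W) v) (by omega)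
  rw [hq] at hM2
  set u' := homogeneousComponent (2 * ρ - 1 - (W + 1)) u
  have hM3 : M = ln d ^ (W + 1) * (u' + X 2 ^ W * q) + X 2 ^ W * N := by
    rw [hM2]; ring
  clear_value u'
  clear hM2 hq hMe
  suffices hN0 : N = 0 by
    rw [hM3, hN0, mul_zero, add_zero]
    exact Dvd.intro _ rfl
  by_contra hN0
  have ea : X 2 ^ W * N - Za ∈ J ρ (W + 1) (W + 1) (ln d) (vt a) := by
    have h5 : X 2 ^ W * N - Za = (M - Za) - ln d ^ (W + 1) * (u' + X 2 ^ W * q) := by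
      rw [hM3]; ring
    rw [h5]
    exact Ideal.sub_mem _ ma (J_left (Dvd.intro _ rfl))
  have eb : X 2 ^ W * N - Zb ∈ J ρ (W + 1) (W + 1) (ln d) (vt b) := by
    have h5 : X 2 ^ W * N - Zb = (M - Zb) - ln d ^ (W + 1) * (u' + X 2 ^ W * q) := by
      rw [hM3]; ring
    rw [h5]
    exact Ideal.sub_mem _ mb (J_left (Dvd.intro _ rfl))
  clear hM3 ma mb hM
  have key : ∀ m : ℕ, m ≤ W + 1 → ∃ N' Za' Zb' : MvPolynomial (Fin 3) K,
      N = vt a ^ m * (vt b ^ m * N') ∧ Za = vt a ^ m * Za' ∧ Zb = vt b ^ m * Zb' := by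
    intro m
    induction m with
    | zero => exact fun _ => ⟨N, Za, Zb, by simp, by simp, by simp⟩
    | succ m ih =>
      intro hm
      obtain ⟨N', Za', Zb', hN', hZa', hZb'⟩ := ih (by omega)
      have g1 := hom_vt ha (hN' ▸ hN0) (hN' ▸ hN) (hN' ▸ dN)
      obtain ⟨g1, g2, g3⟩ := g1
      have hn1 : vt b ^ m * N' ≠ 0 := right_ne_zero_of_mul (hN' ▸ hN0)
      obtain ⟨g4, g5, g6⟩ := hom_vt hb hn1 g2 g3
      have hn2 : N' ≠ 0 := right_ne_zero_of_mul hn1
      obtain ⟨g7, g8⟩ := cancel_vt (l := m) (j := W - 1) ha (hZa' ▸ hZa) (by omega)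
        (by rw [← hZa']; omega)
      obtain ⟨g9, g10⟩ := cancel_vt (l := m) (j := W - 1) hb (hZb' ▸ hZb) (by omega)
        (by rw [← hZb']; omega)
      have hw : degreeOf 2 N' ≤ min W (2 * ρ - 1 - W - m - m) :=
        le_min g6 ((degreeOf_le_totalDegree _ _).trans g5.totalDegree_le)
      have hs : W + min W (2 * ρ - 1 - W - m - m) < min (ρ - m) (W + 1) + min (ρ - m) W := by
        omega
      have e1 : vt a ^ m * (X 2 ^ W * (vt b ^ m * N') - Za') ∈
          J ρ (W + 1) (W + 1) (ln d) (vt a) := by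
        have h5 : vt a ^ m * (X 2 ^ W * (vt b ^ m * N') - Za') = X 2 ^ W * N - Za := by
          rw [hN', hZa']; ring
        rw [h5]; exact ea
      have hU : pe (dr a) (vt b ^ m) = Polynomial.C ((-dt b a) ^ m) := by
        rw [map_pow, pe_vt, map_pow]
      obtain ⟨s1, s2⟩ := side hda h4 (pow_ne_zero m (neg_ne_zero.2 hba)) hU g5 g7 hw g8
        (by omega) hs e1 (hZa' ▸ mZa)
      obtain ⟨N1, rfl⟩ := s1
      obtain ⟨Za1, rfl⟩ := s2
      have g5' := g5
      rw [← pow_one (vt a)] at hn2 g5 hw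
      obtain ⟨k1, k2, k3⟩ := hom_vt ha hn2 g5 hw
      have e2 : vt b ^ m * (X 2 ^ W * (vt a ^ (m + 1) * N1) - Zb') ∈
          J ρ (W + 1) (W + 1) (ln d) (vt b) := by
        have h5 : vt b ^ m * (X 2 ^ W * (vt a ^ (m + 1) * N1) - Zb') = X 2 ^ W * N - Zb := by
          rw [hN', hZb']; ring
        rw [h5]; exact eb
      have hU2 : pe (dr b) (vt a ^ (m + 1)) = Polynomial.C ((-dt a b) ^ (m + 1)) := by
        rw [map_pow, pe_vt, map_pow]
      obtain ⟨s3, s4⟩ := side hdb h4 (pow_ne_zero (m + 1) (neg_ne_zero.2 hab)) hU2 k2 g9 k3 g10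
        (by omega) hs e2 (hZb' ▸ mZb)
      obtain ⟨N2, rfl⟩ := s3
      obtain ⟨Zb1, rfl⟩ := s4
      refine ⟨N2, Za1, Zb1, ?_, ?_, ?_⟩
      · rw [hN']; ring
      · rw [hZa']; ring
      · rw [hZb']; ring
  obtain ⟨N', Za', Zb', hN', -, -⟩ := key (W + 1) le_rfl
  obtain ⟨g1, g2, g3⟩ := hom_vt ha (hN' ▸ hN0) (hN' ▸ hN) (hN' ▸ dN)
  obtain ⟨g4, g5, g6⟩ := hom_vt hb (right_ne_zero_of_mul (hN' ▸ hN0)) g2 g3
  omega

end Pool.Agent.SplW
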