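import Pool.Agent.SplW.Contr
import Pool.Agent.SplW.LocOne

/-!
# Module I: the induction of the W-scheme

`Dat`: the combinatorial data (an ordering of the vertices; `A` first, then `w₁`, `w₂`; the others are moved to `A` one by one).  `tn adj R v` is the number of
neighbours of `v` in `R`, capped at `2`.
PAPER PROOF of `scheme`.  Claim (n) for `n ≥ 3`: there are a field `K` of characteristic `0` and positions `p`, good on `far_n ∪ pin`, `far_n = {v ∈ far | n ≤ rk v}`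
(good: `p v 1 ≠ 0`, `p u 1 ≠ p v 1` and `dt (p u) (p v) ≠ 0` for different `u, v`), such that `Inj ρ W p far_n pin adj (tn adj R_n)`, `R_n = {A} ∪ {v ∈ far | rk v < n}`.
For large `n` `far_n = ∅`: take `K = ℚ`, `p v = (x_v ^ 2, x_v)` with different `x_v ≠ 0`.  From `n + 1` to `n` (`n ≥ 3`): if no `v ∈ far` has rank `n` nothing changes.
Otherwise `S = {v}`, `far_(n+1) = far_n \ S`; choose `d = (x, 1)` with `x` outside a finite set such that `dt d (p a) ≠ 0` for all `a ∈ far_(n+1) ∪ pin`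
(`p a 1 ≠ 0`) and apply `contract`; the new positions are `epd d` at `v` and constants elsewhere, again good (`ep * c ≠ c'`).  `Lo` and `local_one`: `Dat.lo` gives
`tn adj R_n v = 2`; `Dat.up` gives two neighbours `x ≠ y`: a pinned one gives `M ∈ J (ln d) (vt (p x))` (use `Z = 0`), a far one has
`tn adj R_n x ≥ 1` and `tn adj R_(n+1) x ≥ 2` (it is adjacent to `v`), so `Lo.sf` gives its `Z`.
Claim (3) to the theorem: `S = {w₁, w₂}`, `far \ S = far_3`; by `Base` for the nodes `p b`, `p c`, `p e` there is `Q ≠ 0`; `K` is infinite, so there are `d₁`, `d₂`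
with `Q ≠ 0`, `dt dᵢ (p a) ≠ 0`, `dt d₁ (p a) ≠ dt d₂ (p a)` for all `a ∈ far_3 ∪ pin`, `dᵢ 1 ≠ 0`, `d₁ 1 ≠ d₂ 1` (each is a non zero polynomial condition); `contract` with
`ty = tn adj {A}`, `ty' = tn adj R_3`; the local problem: `t1` for `w₁`, `w₂` (adjacent to `A`), `ss` for the edge, `sp` for `b`; `c`: pinned (`Zc = 0`) or far with
`tn adj {A} c ≥ 1`, `tn adj R_3 c ≥ 2` (`A` and `w₂`): `Lo.sf`; `e`: adjacent to `w₁`, `w₂`, so `tn adj R_3 e ≥ 2`: `Lo.sf`.  `Pair` gives the divisibility.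
-/

set_option autoImplicit false

namespace Pool.Agent.SplW

open MvPolynomial

/-- the combinatorial data of the scheme -/
structure Dat {V : Type} [DecidableEq V] (far pin : Finset V) (adj : V → V → Prop) (rk : V → ℕ)
    (A w₁ w₂ b c e : V) : Prop where
  symm : ∀ u v, adj u v → adj v u
  irr : ∀ v, ¬ adj v v
  dis : ∀ v ∈ far, v ∉ pin
  Af : A ∉ far
  Ap : A ∉ pin
  inj : ∀ u ∈ far, ∀ v ∈ far, rk u = rk v → u = v
  w1 : w₁ ∈ far
  w2 : w₂ ∈ far
  r1 : rk w₁ = 1
  r2 : rk w₂ = 2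
  r3 : ∀ v ∈ far, v ≠ w₁ → v ≠ w₂ → 3 ≤ rk v
  a1 : adj A w₁
  a2 : adj A w₂
  a12 : adj w₁ w₂
  hb : b ∈ pin
  b1 : adj w₁ b
  hc : c ∈ pin ∨ (c ∈ far ∧ c ≠ w₁ ∧ adj A c)
  c2 : adj w₂ c
  he : e ∈ far
  e1 : adj w₁ e
  e2 : adj w₂ e
  bc : b ≠ c
  ce : c ≠ e
  lo : ∀ v ∈ far, v ≠ w₁ → v ≠ w₂ → ∃ x y, x ≠ y ∧ adj v x ∧ adj v y ∧
    (x = A ∨ (x ∈ far ∧ rk x < rk v)) ∧ (y = A ∨ (y ∈ far ∧ rk y < rk v))
  up : ∀ v ∈ far, v ≠ w₁ → v ≠ w₂ → ∃ x y, x ≠ y ∧ adj v x ∧ adj v y ∧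
    (x ∈ pin ∨ (x ∈ far ∧ rk v < rk x ∧ ∃ u, adj x u ∧ (u = A ∨ (u ∈ far ∧ rk u < rk v)))) ∧
    (y ∈ pin ∨ (y ∈ far ∧ rk v < rk y ∧ ∃ u, adj y u ∧ (u = A ∨ (u ∈ far ∧ rk u < rk v))))

open Classical in
/-- the number of neighbours in `R`, capped at `2` -/
noncomputable def tn {V : Type} (adj : V → V → Prop) (R : Set V) (v : V) : ℕ :=
  if ∃ x ∈ R, ∃ y ∈ R, x ≠ y ∧ adj x v ∧ adj y v then 2 else if ∃ x ∈ R, adj x v then 1 else 0

section tnlemmas

variable {V : Type} {adj : V → V → Prop} {R : Set V} {v : V}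

theorem ind_tn_one (h : ∃ x ∈ R, adj x v) : 1 ≤ tn adj R v := by
  unfold tn
  split_ifs <;> omega

theorem ind_tn_two (h : ∃ x ∈ R, ∃ y ∈ R, x ≠ y ∧ adj x v ∧ adj y v) : 2 ≤ tn adj R v := by
  unfold tn
  rw [if_pos h]

theorem ind_of_tn_two (h : 2 ≤ tn adj R v) : ∃ x ∈ R, ∃ y ∈ R, x ≠ y ∧ adj x v ∧ adj y v := by
  by_contra hc
  unfold tn at h
  rw [if_neg hc] at h
  split_ifs at h <;> omega

theorem ind_of_tn_one (h : 1 ≤ tn adj R v) : ∃ x ∈ R, adj x v := by
  by_contra hc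
  unfold tn at h
  rw [if_neg hc, if_neg] at h
  · omega
  · rintro ⟨x, hx, y, -, -, hxv, -⟩
    exact hc ⟨x, hx, hxv⟩

end tnlemmas

/-- good positions -/
structure IGood {V : Type} {K : Type} [Field K] (far pin : Finset V) (p : V → Fin 2 → K) : Prop where
  nz : ∀ v, (v ∈ far ∨ v ∈ pin) → p v 1 ≠ 0
  inj : ∀ u v, (u ∈ far ∨ u ∈ pin) → (v ∈ far ∨ v ∈ pin) → u ≠ v → p u 1 ≠ p v 1
  dt : ∀ u v, (u ∈ far ∨ u ∈ pin) → (v ∈ far ∨ v ∈ pin) → u ≠ v → dt (p u) (p v) ≠ 0

theorem ind_cl_inj {K : Type} [Field K] : Function.Injective (cl K) := (cl K).injective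

theorem ind_ep_ne {K : Type} [Field K] (c c' : K) (h : c' ≠ 0) : ep K * cl K c ≠ cl K c' := by
  intro h1
  have h2 : (ep K * cl K c).coeff 0 = (cl K c').coeff 0 := by rw [h1]
  unfold ep cl at h2
  rw [HahnSeries.C_apply, HahnSeries.C_apply, HahnSeries.single_mul_single] at h2
  simp only [HahnSeries.coeff_single_same] at h2
  rw [HahnSeries.coeff_single_of_ne (by norm_num)] at h2
  exact h h2.symm

theorem ind_dt_epd {K : Type} [Field K] (d q : Fin 2 → K) :
    dt (epd d) (bp (cl K) q) = ep K * cl K (dt d q) := by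
  unfold dt epd bp
  simp only [map_sub, map_mul]
  ring

theorem ind_dt_bp {K : Type} [Field K] (d q : Fin 2 → K) :
    dt (bp (cl K) d) (bp (cl K) q) = cl K (dt d q) := by
  unfold dt bp
  simp only [map_sub, map_mul]

theorem ind_dt_swap {K : Type*} [Field K] (d q : Fin 2 → K) : dt d q = - dt q d := by
  unfold dt
  ring

/-- the new positions -/
theorem ind_new_nz {V : Type} [DecidableEq V] {K : Type} [Field K] {far pin S : Finset V}
    {p d : V → Fin 2 → K} (hp : IGood far pin p) (hd : ∀ v ∈ S, d v 1 ≠ 0) :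
    ∀ v, (v ∈ far ∨ v ∈ pin) → (if v ∈ S then epd (d v) else bp (cl K) (p v)) 1 ≠ 0 := by
  intro v hv
  split_ifs with h
  · unfold epd
    exact mul_ne_zero ep_ne ((map_ne_zero _).2 (hd v h))
  · unfold bp
    exact (map_ne_zero _).2 (hp.nz v hv)

theorem ind_new_inj {V : Type} [DecidableEq V] {K : Type} [Field K] {far pin S : Finset V}
    {p d : V → Fin 2 → K} (hp : IGood far pin p)
    (hdd : ∀ u ∈ S, ∀ v ∈ S, u ≠ v → d u 1 ≠ d v 1) :
    ∀ u v, (u ∈ far ∨ u ∈ pin) → (v ∈ far ∨ v ∈ pin) → u ≠ v →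
      (if u ∈ S then epd (d u) else bp (cl K) (p u)) 1 ≠
        (if v ∈ S then epd (d v) else bp (cl K) (p v)) 1 := by
  intro u v hu hv huv
  split_ifs with h1 h2 h2
  · unfold epd
    intro h
    exact hdd u h1 v h2 huv (ind_cl_inj (mul_left_cancel₀ ep_ne h))
  · unfold epd bp
    exact ind_ep_ne _ _ (hp.nz v hv)
  · unfold epd bp
    exact (ind_ep_ne _ _ (hp.nz u hu)).symm
  · unfold bp
    exact fun h => hp.inj u v hu hv huv (ind_cl_inj h)

theorem ind_new_dt {V : Type} [DecidableEq V] {K : Type} [Field K] {far pin S : Finset V}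
    {p d : V → Fin 2 → K} (hp : IGood far pin p)
    (hS : ∀ u ∈ S, ∀ v ∈ S, u = v)
    (hd : ∀ v ∈ S, ∀ a, (a ∈ far ∨ a ∈ pin) → a ∉ S → dt (d v) (p a) ≠ 0) :
    ∀ u v, (u ∈ far ∨ u ∈ pin) → (v ∈ far ∨ v ∈ pin) → u ≠ v →
      dt (if u ∈ S then epd (d u) else bp (cl K) (p u))
        (if v ∈ S then epd (d v) else bp (cl K) (p v)) ≠ 0 := by
  intro u v hu hv huv
  split_ifs with h1 h2 h2
  · exact absurd (hS u h1 v h2) huv
  · rw [ind_dt_epd]
    exact mul_ne_zero ep_ne ((map_ne_zero _).2 (hd u h1 v hv h2))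
  · rw [ind_dt_swap, ind_dt_epd]
    exact neg_ne_zero.2 (mul_ne_zero ep_ne ((map_ne_zero _).2 (hd v h2 u hu h1)))
  · rw [ind_dt_bp]
    exact (map_ne_zero _).2 (hp.dt u v hu hv huv)

/-- the vertices which have been moved to `A` -/
def iR {V : Type} (far : Finset V) (rk : V → ℕ) (A : V) (n : ℕ) : Set V :=
  {x | x = A ∨ (x ∈ far ∧ rk x < n)}

/-- the induction hypothesis -/
def IndP (ρ W : ℕ) {V : Type} [DecidableEq V] (far pin : Finset V) (adj : V → V → Prop)
    (rk : V → ℕ) (A : V) (n : ℕ) : Prop :=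
  ∃ (K : Type) (_ : Field K) (_ : CharZero K) (p : V → Fin 2 → K), IGood far pin p ∧
    Inj ρ W p (far.filter fun v => n ≤ rk v) pin adj (tn adj (iR far rk A n))

theorem ind_start {ρ W : ℕ} {V : Type} [DecidableEq V] {far pin : Finset V}
    {adj : V → V → Prop} {rk : V → ℕ} {A : V} {n : ℕ} (hn : ∀ v ∈ far, rk v < n) :
    IndP ρ W far pin adj rk A n := by
  classical
  obtain ⟨f, hf⟩ : ∃ f : V → ℕ, ∀ u ∈ far ∪ pin, ∀ v ∈ far ∪ pin, f u = f v → u = v := by
    refine ⟨fun v => if h : v ∈ far ∪ pin then ((far ∪ pin).equivFin ⟨v, h⟩ : ℕ) else 0, ?_⟩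
    intro u hu v hv huv
    simp only [dif_pos hu, dif_pos hv] at huv
    have := (far ∪ pin).equivFin.injective (Fin.ext huv)
    exact congrArg Subtype.val this
  have hf' : ∀ u v, (u ∈ far ∨ u ∈ pin) → (v ∈ far ∨ v ∈ pin) → u ≠ v →
      ((f u : ℚ) + 1) ≠ (f v : ℚ) + 1 := by
    intro u v hu hv huv h
    apply huv
    apply hf u (Finset.mem_union.2 hu) v (Finset.mem_union.2 hv)
    have : (f u : ℚ) = f v := by linarith
    exact_mod_cast this
  have hpos : ∀ v, ((f v : ℚ) + 1) ≠ 0 := fun v => by positivity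
  refine ⟨ℚ, inferInstance, inferInstance, fun v => ![((f v : ℚ) + 1) ^ 2, (f v : ℚ) + 1], ?_, ?_⟩
  · refine ⟨fun v _ => ?_, fun u v hu hv huv => ?_, fun u v hu hv huv => ?_⟩
    · simpa using hpos v
    · simpa using hf' u v hu hv huv
    · have h : dt (![((f u : ℚ) + 1) ^ 2, (f u : ℚ) + 1] : Fin 2 → ℚ)
          ![((f v : ℚ) + 1) ^ 2, (f v : ℚ) + 1] =
          ((f u : ℚ) + 1) * ((f v : ℚ) + 1) * (((f u : ℚ) + 1) - ((f v : ℚ) + 1)) := by
        unfold dt
        simp only [Matrix.cons_val_zero, Matrix.cons_val_one]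
        ring
      rw [h]
      exact mul_ne_zero (mul_ne_zero (hpos u) (hpos v)) (sub_ne_zero.2 (hf' u v hu hv huv))
  · intro r _ v hv
    rw [Finset.mem_filter] at hv
    have := hn v hv.1
    omega

theorem ind_J_zero {K : Type} [Field K] (ρ a b : ℕ) (x y : MvPolynomial (Fin 3) K) :
    (0 : MvPolynomial (Fin 3) K) ∈ J ρ a b x y := Ideal.zero_mem _

theorem ind_step {ρ W g : ℕ} (hg : W + g = ρ) (h1 : W ≤ 2 * g) (h2 : 2 * g ≤ W + 2) (h3 : g ≤ W)
    (h4 : 1 ≤ W) {V : Type} [DecidableEq V] {far pin : Finset V}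
    {adj : V → V → Prop} {rk : V → ℕ} {A w₁ w₂ b c e : V}
    (D : Dat far pin adj rk A w₁ w₂ b c e) {n : ℕ} (hn : 3 ≤ n)
    (h : IndP ρ W far pin adj rk A (n + 1)) : IndP ρ W far pin adj rk A n := by
  classical
  obtain ⟨K, iK, iC, p, hp, hI⟩ := h
  by_cases hv : ∃ v ∈ far, rk v = n
  · obtain ⟨v, hvf, hvn⟩ := hv
    have hvw1 : v ≠ w₁ := by rintro rfl; have := D.r1; omega
    have hvw2 : v ≠ w₂ := by rintro rfl; have := D.r2; omega
    obtain ⟨x, hx⟩ := Infinite.exists_notMem_finset ((far ∪ pin).image fun a => p a 0 / p a 1)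
    obtain ⟨d0, hd00, hd01⟩ : ∃ d0 : Fin 2 → K, d0 0 = x ∧ d0 1 = 1 := ⟨![x, 1], rfl, rfl⟩
    have hd0 : ∀ a, (a ∈ far ∨ a ∈ pin) → dt d0 (p a) ≠ 0 := by
      intro a ha h0
      apply hx
      rw [Finset.mem_image]
      refine ⟨a, Finset.mem_union.2 ha, ?_⟩
      unfold dt at h0
      rw [hd00, hd01] at h0
      rw [div_eq_iff (hp.nz a ha)]
      linear_combination -h0
    have hfil : (far.filter fun u => n ≤ rk u) \ {v} = far.filter fun u => n + 1 ≤ rk u := by
      ext u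
      simp only [Finset.mem_sdiff, Finset.mem_filter, Finset.mem_singleton]
      constructor
      · rintro ⟨⟨hu, hun⟩, huv⟩
        refine ⟨hu, ?_⟩
        by_contra hlt
        exact huv (D.inj u hu v hvf (by omega))
      · rintro ⟨hu, hun⟩
        refine ⟨⟨hu, by omega⟩, ?_⟩
        rintro rfl
        omega
    have hRv : ∀ y ∈ iR far rk A (n + 1), y ∈ iR far rk A n ∨ y = v := by
      rintro y (hy | ⟨hy, hyn⟩)
      · exact Or.inl (Or.inl hy)
      · rcases Nat.lt_or_ge (rk y) n with h | h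
        · exact Or.inl (Or.inr ⟨hy, h⟩)
        · exact Or.inr (D.inj y hy v hvf (by omega))
    have hvR : v ∈ iR far rk A (n + 1) := Or.inr ⟨hvf, by omega⟩
    have hvA : v ≠ A := by rintro rfl; exact D.Af hvf
    have hRv' : ∀ y ∈ iR far rk A n, y ≠ v := by
      rintro y (hy | ⟨hy, hyn⟩) rfl
      · exact hvA hy
      · omega
    have hRmono : ∀ y ∈ iR far rk A n, y ∈ iR far rk A (n + 1) := by
      rintro y (hy | ⟨hy, hyn⟩)
      · exact Or.inl hy
      · exact Or.inr ⟨hy, by omega⟩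
    have hcon := contract (K := K) (ρ := ρ) (W := W) h4 (by omega) (by omega)
      (d := fun _ => d0) (p := p) (S := {v}) (far := far.filter fun u => n ≤ rk u) (pin := pin)
      (adj := adj) (ty := tn adj (iR far rk A n)) (ty' := tn adj (iR far rk A (n + 1)))
      (by
        intro u hu
        rw [Finset.mem_singleton] at hu
        subst hu
        exact Finset.mem_filter.2 ⟨hvf, hvn.ge⟩)
      (fun u hu => D.dis u (Finset.mem_filter.1 hu).1)
      D.symm
      (by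
        intro u hu a ha _ _
        refine hd0 a ?_
        rcases ha with ha | ha
        · exact Or.inl (Finset.mem_filter.1 ha).1
        · exact Or.inr ha)
      (by
        intro u hu u' hu' huu'
        rw [Finset.mem_singleton] at hu hu'
        exact absurd (hu.trans hu'.symm) huu')
      (by
        intro a _ _ hta
        obtain ⟨y, hy, hya⟩ := ind_of_tn_one hta
        rcases hRv y hy with h | rfl
        · exact Or.inl (ind_tn_one ⟨y, h, hya⟩)
        · exact Or.inr ⟨y, Finset.mem_singleton_self y, hya⟩)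
      (by
        intro a _ _ hta
        obtain ⟨y, hy, z, hz, hyz, hya, hza⟩ := ind_of_tn_two hta
        rcases hRv y hy with h | rfl
        · rcases hRv z hz with h' | rfl
          · exact Or.inl (ind_tn_two ⟨y, h, z, h', hyz, hya, hza⟩)
          · exact Or.inr (Or.inl ⟨ind_tn_one ⟨y, h, hya⟩, z, Finset.mem_singleton_self z, hza⟩)
        · rcases hRv z hz with h' | rfl
          · exact Or.inr (Or.inl ⟨ind_tn_one ⟨z, h', hza⟩, y, Finset.mem_singleton_self y, hya⟩)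
          · exact absurd rfl hyz)
      (by rw [hfil]; exact hI)
      (by
        intro M hM u hu
        rw [Finset.mem_singleton] at hu
        subst hu
        obtain ⟨x1, y1, hxy, hvx, hvy, hx1, hy1⟩ := D.lo u hvf hvw1 hvw2
        have hxR : x1 ∈ iR far rk A n := by
          rcases hx1 with h | ⟨h, h'⟩
          · exact Or.inl h
          · exact Or.inr ⟨h, by omega⟩
        have hyR : y1 ∈ iR far rk A n := by
          rcases hy1 with h | ⟨h, h'⟩
          · exact Or.inl h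
          · exact Or.inr ⟨h, by omega⟩
        have ht2 : 2 ≤ tn adj (iR far rk A n) u :=
          ind_tn_two ⟨x1, hxR, y1, hyR, hxy, D.symm _ _ hvx, D.symm _ _ hvy⟩
        have hMu := hM.t2 u (Finset.mem_singleton_self u) ht2
        have key : ∀ x2, adj u x2 → (x2 ∈ pin ∨ (x2 ∈ far ∧ rk u < rk x2 ∧
            ∃ u', adj x2 u' ∧ (u' = A ∨ (u' ∈ far ∧ rk u' < rk u)))) →
            (x2 ∈ far ∨ x2 ∈ pin) ∧ ∃ Z : MvPolynomial (Fin 3) K, Z.IsHomogeneous (2 * ρ - 1) ∧
              degreeOf 2 Z < W ∧ Z ∈ J ρ (W + 1) W (vt (p x2)) (X 2) ∧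
              M u - Z ∈ J ρ (W + 1) (W + 1) (ln d0) (vt (p x2)) := by
          intro x2 hux2 hx2
          rcases hx2 with hx2 | ⟨hx2, hr, u', hxu', hu'⟩
          · refine ⟨Or.inr hx2, 0, isHomogeneous_zero _ _ _, ?_, ind_J_zero _ _ _ _ _, ?_⟩
            · rw [degreeOf_zero]; omega
            · rw [sub_zero]
              exact hM.sp u (Finset.mem_singleton_self u) x2 hx2 hux2
          · refine ⟨Or.inl hx2, ?_⟩
            have hu'R : u' ∈ iR far rk A n := by
              rcases hu' with h | ⟨h, h'⟩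
              · exact Or.inl h
              · exact Or.inr ⟨h, by omega⟩
            have hx2u : x2 ∉ ({u} : Finset V) := by
              rw [Finset.mem_singleton]
              rintro rfl
              omega
            obtain ⟨Z, hZ1, hZ2, hZ3, hZ4⟩ := hM.sf x2 (Finset.mem_filter.2 ⟨hx2, by omega⟩) hx2u
              (ind_tn_two ⟨u', hRmono u' hu'R, u, hvR, hRv' u' hu'R, D.symm _ _ hxu', hux2⟩)
            exact ⟨Z, hZ1, hZ2, hZ3 (ind_tn_one ⟨u', hu'R, D.symm _ _ hxu'⟩),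
              hZ4 u (Finset.mem_singleton_self u) hux2⟩
        obtain ⟨x2, y2, hxy2, hux2, huy2, hx2, hy2⟩ := D.up u hvf hvw1 hvw2
        obtain ⟨hx2m, Za, a1, a2, a3, a4⟩ := key x2 hux2 hx2
        obtain ⟨hy2m, Zb, b1, b2, b3, b4⟩ := key y2 huy2 hy2
        exact local_one hg h1 h2 h3 h4 (hd0 x2 hx2m) (hd0 y2 hy2m) (hp.dt x2 y2 hx2m hy2m hxy2)
          (hM.hom u (Finset.mem_singleton_self u)) a1 b1 a2 b2 hMu a3 b3 a4 b4)
    refine ⟨LaurentSeries K, inferInstance,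
      ((cl K).charZero_iff (cl K).injective).1 iC, _, ⟨?_, ?_, ?_⟩, hcon⟩
    · refine ind_new_nz hp fun v _ => ?_
      rw [hd01]
      exact one_ne_zero
    · refine ind_new_inj hp fun u hu u' hu' huu' => ?_
      rw [Finset.mem_singleton] at hu hu'
      exact absurd (hu.trans hu'.symm) huu'
    · refine ind_new_dt hp (fun u hu u' hu' => ?_) fun _ _ a ha _ => hd0 a ha
      rw [Finset.mem_singleton] at hu hu'
      exact hu.trans hu'.symm
  · have hfil : (far.filter fun u => n ≤ rk u) = far.filter fun u => n + 1 ≤ rk u := by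
      ext u
      simp only [Finset.mem_filter]
      refine ⟨fun ⟨hu, hun⟩ => ⟨hu, ?_⟩, fun ⟨hu, hun⟩ => ⟨hu, by omega⟩⟩
      by_contra hlt
      exact hv ⟨u, hu, by omega⟩
    have hR : iR far rk A n = iR far rk A (n + 1) := by
      ext u
      constructor
      · rintro (h | ⟨h, h'⟩)
        · exact Or.inl h
        · exact Or.inr ⟨h, by omega⟩
      · rintro (h | ⟨h, h'⟩)
        · exact Or.inl h
        · refine Or.inr ⟨h, ?_⟩
          by_contra hlt
          exact hv ⟨u, h, by omega⟩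
    refine ⟨K, iK, iC, p, hp, ?_⟩
    rw [hfil, hR]
    exact hI

theorem ind_three {ρ W g : ℕ} (hg : W + g = ρ) (h1 : W ≤ 2 * g) (h2 : 2 * g ≤ W + 2) (h3 : g ≤ W)
    (h4 : 1 ≤ W) {V : Type} [DecidableEq V] {far pin : Finset V}
    {adj : V → V → Prop} {rk : V → ℕ} {A w₁ w₂ b c e : V}
    (D : Dat far pin adj rk A w₁ w₂ b c e) : IndP ρ W far pin adj rk A 3 := by
  have hk : ∀ k, IndP ρ W far pin adj rk A (3 + k) → IndP ρ W far pin adj rk A 3 := by
    intro k
    induction k with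
    | zero => exact fun h => h
    | succ k ih => exact fun h => ih (ind_step hg h1 h2 h3 h4 D (by omega) h)
  refine hk (far.sup rk + 1) (ind_start fun v hv => ?_)
  have := Finset.le_sup (f := rk) hv
  omega

/-- generic directions -/
theorem ind_dirs {K : Type} [Field K] [CharZero K] {V : Type} [DecidableEq V]
    (s : Finset V) (p : V → Fin 2 → K) (hp : ∀ a ∈ s, p a 1 ≠ 0) {Q : MvPolynomial (Fin 4) K}
    (hQ : Q ≠ 0) : ∃ d₁ d₂ : Fin 2 → K, eval ![d₁ 0, d₁ 1, d₂ 0, d₂ 1] Q ≠ 0 ∧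
      (∀ a ∈ s, dt d₁ (p a) ≠ 0) ∧ (∀ a ∈ s, dt d₂ (p a) ≠ 0) ∧
      (∀ a ∈ s, dt d₁ (p a) ≠ dt d₂ (p a)) ∧ d₁ 1 ≠ 0 ∧ d₂ 1 ≠ 0 ∧ d₁ 1 ≠ d₂ 1 := by
  set F : MvPolynomial (Fin 4) K := Q * (∏ a ∈ s, (X 0 * C (p a 1) - X 1 * C (p a 0))) *
    (∏ a ∈ s, (X 2 * C (p a 1) - X 3 * C (p a 0))) *
    (∏ a ∈ s, ((X 0 - X 2) * C (p a 1) - (X 1 - X 3) * C (p a 0))) *
    (X 1 * X 3 * (X 1 - X 3)) with hF
  have hne : ∀ (f : MvPolynomial (Fin 4) K) (x : Fin 4 → K), eval x f ≠ 0 → f ≠ 0 := by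
    rintro f x h rfl
    exact h (map_zero _)
  have hF0 : F ≠ 0 := by
    refine mul_ne_zero (mul_ne_zero (mul_ne_zero (mul_ne_zero hQ ?_) ?_) ?_) ?_
    · refine Finset.prod_ne_zero_iff.2 fun a ha => hne _ ![1, 0, 0, 0] ?_
      simpa using hp a ha
    · refine Finset.prod_ne_zero_iff.2 fun a ha => hne _ ![0, 0, 1, 0] ?_
      simpa using hp a ha
    · refine Finset.prod_ne_zero_iff.2 fun a ha => hne _ ![1, 0, 0, 0] ?_
      simpa using hp a ha
    · refine hne _ ![0, 1, 0, 2] ?_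
      simp
      norm_num
  obtain ⟨x, hx⟩ : ∃ x : Fin 4 → K, eval x F ≠ 0 := by
    by_contra hc
    push Not at hc
    exact hF0 (MvPolynomial.funext fun x => by rw [hc x, map_zero])
  rw [hF] at hx
  simp only [map_mul, map_prod, map_sub, eval_X, eval_C] at hx
  have hx1 := left_ne_zero_of_mul hx
  have hx5 := right_ne_zero_of_mul hx
  have hx4 := right_ne_zero_of_mul hx1
  have hx2 := left_ne_zero_of_mul hx1
  have hx3 := right_ne_zero_of_mul hx2
  have hx6 := left_ne_zero_of_mul hx2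
  have hx7 := right_ne_zero_of_mul hx6
  have hx8 := left_ne_zero_of_mul hx6
  refine ⟨![x 0, x 1], ![x 2, x 3], ?_, ?_, ?_, ?_, ?_, ?_, ?_⟩
  · have : (![(![x 0, x 1] : Fin 2 → K) 0, (![x 0, x 1] : Fin 2 → K) 1,
        (![x 2, x 3] : Fin 2 → K) 0, (![x 2, x 3] : Fin 2 → K) 1] : Fin 4 → K) = x := by
      funext i
      fin_cases i <;> rfl
    rw [this]
    exact hx8
  · intro a ha
    exact Finset.prod_ne_zero_iff.1 hx7 a ha
  · intro a ha
    exact Finset.prod_ne_zero_iff.1 hx3 a ha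
  · intro a ha h
    refine Finset.prod_ne_zero_iff.1 hx4 a ha ?_
    unfold dt at h
    simp only [Matrix.cons_val_zero, Matrix.cons_val_one] at h
    linear_combination h
  · exact left_ne_zero_of_mul (left_ne_zero_of_mul hx5)
  · exact right_ne_zero_of_mul (left_ne_zero_of_mul hx5)
  · exact sub_ne_zero.1 (right_ne_zero_of_mul hx5)

theorem scheme {ρ W g : ℕ} (hg : W + g = ρ) (h1 : W ≤ 2 * g) (h2 : 2 * g ≤ W + 2) (h3 : g ≤ W)
    (h4 : 1 ≤ W) (hB : Base ρ W) {V : Type} [DecidableEq V] {far pin : Finset V}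
    {adj : V → V → Prop} {rk : V → ℕ} {A w₁ w₂ b c e : V}
    (D : Dat far pin adj rk A w₁ w₂ b c e) :
    ∃ (K : Type) (_ : Field K) (_ : CharZero K) (p : V → Fin 2 → K),
      (∀ v, (v ∈ far ∨ v ∈ pin) → p v 1 ≠ 0) ∧
      (∀ u v, (u ∈ far ∨ u ∈ pin) → (v ∈ far ∨ v ∈ pin) → u ≠ v → p u 1 ≠ p v 1) ∧
      Inj ρ W p far pin adj (tn adj {A}) := by
  obtain ⟨K, iK, iC, p, hp, hI⟩ := ind_three hg h1 h2 h3 h4 D
  have hbfp : b ∈ far ∨ b ∈ pin := Or.inr D.hb
  have hcfp : c ∈ far ∨ c ∈ pin := by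
    rcases D.hc with h | h
    · exact Or.inr h
    · exact Or.inl h.1
  have hefp : e ∈ far ∨ e ∈ pin := Or.inl D.he
  have hbe : b ≠ e := by
    rintro rfl
    exact D.dis b D.he D.hb
  have hw12 : w₁ ≠ w₂ := by
    rintro rfl
    exact D.irr _ D.a12
  have hew1 : e ≠ w₁ := by
    rintro rfl
    exact D.irr _ D.e1
  have hew2 : e ≠ w₂ := by
    rintro rfl
    exact D.irr _ D.e2
  have hcw2 : c ≠ w₂ := by
    rintro rfl
    exact D.irr _ D.c2
  have hAw1 : A ≠ w₁ := by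
    rintro rfl
    exact D.Af D.w1
  have hAw2 : A ≠ w₂ := by
    rintro rfl
    exact D.Af D.w2
  obtain ⟨Q, hQ0, hQ⟩ := hB K (p b) (p c) (p e) (hp.dt b c hbfp hcfp D.bc)
    (hp.dt b e hbfp hefp hbe) (hp.dt c e hcfp hefp D.ce)
  obtain ⟨d₁, d₂, hd0, hd1, hd2, hd12, hn1, hn2, hn12⟩ := ind_dirs (far ∪ pin) p
    (fun a ha => hp.nz a (Finset.mem_union.1 ha)) hQ0
  have hPair := hQ d₁ d₂ hd0
  set d : V → Fin 2 → K := fun v => if v = w₁ then d₁ else d₂ with hd
  have hdw1 : d w₁ = d₁ := by rw [hd]; simp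
  have hdw2 : d w₂ = d₂ := by rw [hd]; simp [hw12.symm]
  have hS1 : w₁ ∈ ({w₁, w₂} : Finset V) := by simp
  have hS2 : w₂ ∈ ({w₁, w₂} : Finset V) := by simp
  have hfil : far \ {w₁, w₂} = far.filter fun u => 3 ≤ rk u := by
    ext u
    simp only [Finset.mem_sdiff, Finset.mem_filter, Finset.mem_insert, Finset.mem_singleton]
    constructor
    · rintro ⟨hu, huw⟩
      push Not at huw
      exact ⟨hu, D.r3 u hu huw.1 huw.2⟩
    · rintro ⟨hu, hr⟩
      refine ⟨hu, ?_⟩
      rintro (rfl | rfl)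
      · have := D.r1
        omega
      · have := D.r2
        omega
  have hR : ∀ y ∈ iR far rk A 3, y = A ∨ y = w₁ ∨ y = w₂ := by
    rintro y (hy | ⟨hy, hyn⟩)
    · exact Or.inl hy
    · right
      by_contra hc
      push Not at hc
      have := D.r3 y hy hc.1 hc.2
      omega
  have hRA : A ∈ iR far rk A 3 := Or.inl rfl
  have hR1 : w₁ ∈ iR far rk A 3 := Or.inr ⟨D.w1, by have := D.r1; omega⟩
  have hR2 : w₂ ∈ iR far rk A 3 := Or.inr ⟨D.w2, by have := D.r2; omega⟩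
  have hdS : ∀ v ∈ ({w₁, w₂} : Finset V), ∀ a, (a ∈ far ∨ a ∈ pin) → dt (d v) (p a) ≠ 0 := by
    intro v hv a ha
    rw [Finset.mem_insert, Finset.mem_singleton] at hv
    rcases hv with rfl | rfl
    · rw [hdw1]; exact hd1 a (Finset.mem_union.2 ha)
    · rw [hdw2]; exact hd2 a (Finset.mem_union.2 ha)
  have hcon := contract (K := K) (ρ := ρ) (W := W) h4 (by omega) (by omega)
    (d := d) (p := p) (S := {w₁, w₂}) (far := far) (pin := pin)
    (adj := adj) (ty := tn adj {A}) (ty' := tn adj (iR far rk A 3))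
    (by
      intro u hu
      rw [Finset.mem_insert, Finset.mem_singleton] at hu
      rcases hu with rfl | rfl
      · exact D.w1
      · exact D.w2)
    D.dis
    D.symm
    (fun v hv a ha _ _ => hdS v hv a ha)
    (by
      intro u hu v hv huv a ha _ _ _
      rw [Finset.mem_insert, Finset.mem_singleton] at hu hv
      have haa : a ∈ far ∪ pin := Finset.mem_union_left _ ha
      rcases hu with rfl | rfl
      · rcases hv with rfl | rfl
        · exact absurd rfl huv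
        · rw [hdw1, hdw2]
          exact hd12 a haa
      · rcases hv with rfl | rfl
        · rw [hdw1, hdw2]
          exact (hd12 a haa).symm
        · exact absurd rfl huv)
    (by
      intro a _ _ hta
      obtain ⟨y, hy, hya⟩ := ind_of_tn_one hta
      rcases hR y hy with rfl | rfl | rfl
      · exact Or.inl (ind_tn_one ⟨y, rfl, hya⟩)
      · exact Or.inr ⟨y, hS1, hya⟩
      · exact Or.inr ⟨y, hS2, hya⟩)
    (by
      intro a _ _ hta
      obtain ⟨y, hy, z, hz, hyz, hya, hza⟩ := ind_of_tn_two hta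
      have hS : ∀ t ∈ iR far rk A 3, t = A ∨ t ∈ ({w₁, w₂} : Finset V) := by
        intro t ht
        rcases hR t ht with h | rfl | rfl
        · exact Or.inl h
        · exact Or.inr hS1
        · exact Or.inr hS2
      rcases hS y hy with rfl | h
      · rcases hS z hz with rfl | h'
        · exact absurd rfl hyz
        · exact Or.inr (Or.inl ⟨ind_tn_one ⟨y, rfl, hya⟩, z, h', hza⟩)
      · rcases hS z hz with rfl | h'
        · exact Or.inr (Or.inl ⟨ind_tn_one ⟨z, rfl, hza⟩, y, h, hya⟩)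
        · exact Or.inr (Or.inr ⟨y, h, z, h', hyz, hya, hza⟩))
    (by rw [hfil]; exact hI)
    (by
      intro M hM
      have m1 := hM.t1 w₁ hS1 (ind_tn_one ⟨A, rfl, D.a1⟩)
      have m2 := hM.t1 w₂ hS2 (ind_tn_one ⟨A, rfl, D.a2⟩)
      have mb := hM.sp w₁ hS1 b D.hb D.b1
      have m12 := hM.ss w₁ hS1 w₂ hS2 D.a12
      obtain ⟨Zc, c1, c2, c3, c4⟩ : ∃ Z : MvPolynomial (Fin 3) K, Z.IsHomogeneous (2 * ρ - 1) ∧
          degreeOf 2 Z < W ∧ Z ∈ J ρ (W + 1) W (vt (p c)) (X 2) ∧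
          M w₂ - Z ∈ J ρ (W + 1) (W + 1) (ln (d w₂)) (vt (p c)) := by
        rcases D.hc with hc | ⟨hc, hcw1, hAc⟩
        · refine ⟨0, isHomogeneous_zero _ _ _, ?_, ind_J_zero _ _ _ _ _, ?_⟩
          · rw [degreeOf_zero]; omega
          · rw [sub_zero]
            exact hM.sp w₂ hS2 c hc D.c2
        · have hcS : c ∉ ({w₁, w₂} : Finset V) := by
            rw [Finset.mem_insert, Finset.mem_singleton]
            rintro (h | h)
            · exact hcw1 h
            · exact hcw2 h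
          obtain ⟨Z, z1, z2, z3, z4⟩ := hM.sf c hc hcS
            (ind_tn_two ⟨A, hRA, w₂, hR2, hAw2, hAc, D.c2⟩)
          exact ⟨Z, z1, z2, z3 (ind_tn_one ⟨A, rfl, hAc⟩), z4 w₂ hS2 D.c2⟩
      have heS : e ∉ ({w₁, w₂} : Finset V) := by
        rw [Finset.mem_insert, Finset.mem_singleton]
        rintro (h | h)
        · exact hew1 h
        · exact hew2 h
      obtain ⟨Ze, e1, e2, -, e4⟩ := hM.sf e D.he heS
        (ind_tn_two ⟨w₁, hR1, w₂, hR2, hw12, D.e1, D.e2⟩)
      have f1 := e4 w₁ hS1 D.e1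
      have f2 := e4 w₂ hS2 D.e2
      rw [hdw1] at m1 mb m12 f1
      rw [hdw2] at m2 m12 c4 f2
      obtain ⟨r1, r2⟩ := hPair (M w₁) (M w₂) Zc Ze (hM.hom w₁ hS1) (hM.hom w₂ hS2) c1 e1 c2 e2
        m1 m2 c3 mb m12 c4 f1 f2
      intro v hv
      rw [Finset.mem_insert, Finset.mem_singleton] at hv
      rcases hv with rfl | rfl
      · rw [hdw1]; exact r1
      · rw [hdw2]; exact r2)
  refine ⟨LaurentSeries K, inferInstance, ((cl K).charZero_iff (cl K).injective).1 iC, _, ?_, ?_,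
    hcon⟩
  · refine ind_new_nz hp fun v hv => ?_
    rw [Finset.mem_insert, Finset.mem_singleton] at hv
    rcases hv with rfl | rfl
    · rw [hdw1]; exact hn1
    · rw [hdw2]; exact hn2
  · refine ind_new_inj hp fun u hu v hv huv => ?_
    rw [Finset.mem_insert, Finset.mem_singleton] at hu hv
    rcases hu with rfl | rfl
    · rcases hv with rfl | rfl
      · exact absurd rfl huv
      · rw [hdw1, hdw2]
        exact hn12
    · rcases hv with rfl | rfl
      · rw [hdw1, hdw2]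
        exact hn12.symm
      · exact absurd rfl huv

end Pool.Agent.SplW
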