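import Pool.Agent.SplW.Defs

/-!
# Module S: static lemmas at the node of two lines

PAPER PROOFS.
* `frame`, `frame2`, `frame3`: explicit linear changes of coordinates.  For `D = dt d P ≠ 0` the three forms `vt P`, `ln d`, `X 2` are independent:
  `vt d = ln d - X 2`, `X 0 = D⁻¹ (P 1 vt d - d 1 vt P)`, `X 1 = D⁻¹ (d 0 vt P - P 0 vt d)` (`D = d 0 P 1 - d 1 P 0`).  For `frame2`, `frame3` (`P ≠ 0`)
  choose `d = (1, 0)` or `(0, 1)` as third form.
* `low_level`: the ideal `J ρ a b x y` becomes the monomial ideal `mI K 0 1 ρ a b` (`SplG.mem_mI`; both inclusions as in `SplG/Ideal.lean`).  If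
  `X 0 ^ l * H ∈ mI K 0 1 ρ a b`, `l < a`, then `coeff m H = 0` for `m 0 = 0`, `m 1 < min (ρ - l) b`, so `H ∈ (X 0) + (X 1 ^ min (ρ - l) b)`.
* `pe w` evaluates at `X 0 = w 0`, `X 1 = w 1`, `X 2 = X`.  For `w = (-P 1, P 0)` it kills `vt P`, and a HOMOGENEOUS `H` with `pe w H = 0` is divisible
  by `vt P` (`P ≠ 0`): choose the frame `vt P, X 2, z` (`z` a third form in `X 0, X 1`); modulo `vt P` the form `H` is `∑ c_n z ^ (k - n) X 2 ^ n` and
  `pe w H = ∑ c_n (pe w z) ^ (k - n) X ^ n` with `pe w z ≠ 0` a constant.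
* `stat_gen`: induction on `l`: if `vt P ^ l ∣ G`, `G = vt P ^ l * H` (`l < c`), then `H` is homogeneous, `degreeOf 2 H ≤ j`, by `low_level` and `pe` the
  polynomial `pe w H` is divisible by `(X + C α) ^ min (ρ - l) (W + 1)` with `α = <d, w> = - dt d P ≠ 0`, etc.; the factors are coprime, the sum of the
  multiplicities is `> j ≥ natDegree`, so `pe w H = 0` and `vt P ∣ H`.
* `stat_a` (one contact): multiplicity `min (ρ - l) (W + 1) > j` for `l < min (W + 1) (ρ - j)`.
* `stat_b` (one contact and type 1): `X ^ min (ρ - l) W` and `(X - x) ^ min (ρ - l) (W + 1)`, `x ≠ 0`: for `l ≤ W` the sum is `> j` as `j < W ≤ 2 (ρ - W)`.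
* `stat_c` (two contacts): `(X - x) ^ min (ρ - l) (W + 1)` and `(X - x') ^ min (ρ - l) (W + 1)`, `x ≠ x'` since `dt d P ≠ dt d' P`.
-/

set_option autoImplicit false

namespace Pool.Agent.SplW

open MvPolynomial Pool.Agent.SplG

variable {K : Type*} [Field K]

theorem J_comm (ρ a b : ℕ) (x y : MvPolynomial (Fin 3) K) : J ρ a b x y = J ρ b a y x := by
  unfold J
  rw [Set.pair_comm, sup_comm (Ideal.span {x ^ a})]

theorem J_left {ρ a b : ℕ} {x y f : MvPolynomial (Fin 3) K} (h : x ^ a ∣ f) : f ∈ J ρ a b x y :=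
  Ideal.mem_sup_right (Ideal.mem_sup_left (Ideal.mem_span_singleton.2 h))

theorem J_right {ρ a b : ℕ} {x y f : MvPolynomial (Fin 3) K} (h : y ^ b ∣ f) : f ∈ J ρ a b x y :=
  Ideal.mem_sup_right (Ideal.mem_sup_right (Ideal.mem_span_singleton.2 h))

/-- the ideal of an algebra map -/
theorem J_map {F : Type*} [Field F] {ρ a b : ℕ} {x y f : MvPolynomial (Fin 3) K}
    (φ : MvPolynomial (Fin 3) K →+* MvPolynomial (Fin 3) F) (h : f ∈ J ρ a b x y) :
    φ f ∈ J ρ a b (φ x) (φ y) := by
  have h1 : φ f ∈ (J ρ a b x y).map φ := Ideal.mem_map_of_mem φ h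
  have h2 : (J ρ a b x y).map φ = J ρ a b (φ x) (φ y) := by
    unfold J
    rw [Ideal.map_sup, Ideal.map_sup, Ideal.map_pow, Ideal.map_span, Ideal.map_span,
      Ideal.map_span, Set.image_pair, Set.image_singleton, Set.image_singleton, map_pow, map_pow]
  rw [← h2]
  exact h1

/-- an explicit linear change of coordinates -/
private theorem frame_gen {P d : Fin 2 → K} (h : dt d P ≠ 0) :
    ∃ φ : MvPolynomial (Fin 3) K ≃ₐ[K] MvPolynomial (Fin 3) K, φ (vt P) = X 0 ∧ φ (vt d) = X 1 ∧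
      φ (X 2) = X 2 ∧
      (∀ f : MvPolynomial (Fin 3) K, ∀ k : ℕ, f.IsHomogeneous k → (φ f).IsHomogeneous k) ∧
      (∀ f : MvPolynomial (Fin 3) K, ∀ k : ℕ, f.IsHomogeneous k → (φ.symm f).IsHomogeneous k) := by
  have hC : (C (dt d P)⁻¹ : MvPolynomial (Fin 3) K) * (C (d 0) * C (P 1) - C (d 1) * C (P 0)) =
      1 := by
    rw [← C_mul, ← C_mul, ← C_sub, ← C_mul, ← C_1]
    congr 1
    exact inv_mul_cancel₀ h
  set A : Fin 3 → MvPolynomial (Fin 3) K := ![C (dt d P)⁻¹ * (C (P 1) * X 1 - C (d 1) * X 0),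
    C (dt d P)⁻¹ * (C (d 0) * X 0 - C (P 0) * X 1), X 2] with hA
  set B : Fin 3 → MvPolynomial (Fin 3) K := ![vt P, vt d, X 2] with hB
  have h1 : (aeval A).comp (aeval B) = AlgHom.id K (MvPolynomial (Fin 3) K) := by
    apply MvPolynomial.algHom_ext
    intro i
    fin_cases i
    · simp only [hA, hB, vt, AlgHom.comp_apply, aeval_X, Fin.zero_eta, Matrix.cons_val_zero,
        Matrix.cons_val_one, map_mul, map_add, algHom_C, algebraMap_eq, AlgHom.id_apply,
        Matrix.cons_val]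
      linear_combination X 0 * hC
    · simp only [hA, hB, vt, AlgHom.comp_apply, aeval_X, Fin.mk_one, Matrix.cons_val_zero,
        Matrix.cons_val_one, map_mul, map_add, algHom_C, algebraMap_eq, AlgHom.id_apply,
        Matrix.cons_val]
      linear_combination X 1 * hC
    · simp [hA, hB]
  have h2 : (aeval B).comp (aeval A) = AlgHom.id K (MvPolynomial (Fin 3) K) := by
    apply MvPolynomial.algHom_ext
    intro i
    fin_cases i
    · simp only [hA, hB, vt, AlgHom.comp_apply, aeval_X, Fin.zero_eta, Matrix.cons_val_zero,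
        Matrix.cons_val_one, map_mul, map_add, map_sub, algHom_C, algebraMap_eq, AlgHom.id_apply,
        Matrix.cons_val]
      linear_combination X 0 * hC
    · simp only [hA, hB, vt, AlgHom.comp_apply, aeval_X, Fin.mk_one, Matrix.cons_val_zero,
        Matrix.cons_val_one, map_mul, map_add, map_sub, algHom_C, algebraMap_eq, AlgHom.id_apply,
        Matrix.cons_val]
      linear_combination X 1 * hC
    · simp [hA, hB]
  have hlin : ∀ (a b : K) (i j : Fin 3),
      (C a * X i + C b * X j : MvPolynomial (Fin 3) K).IsHomogeneous 1 := by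
    intro a b i j
    have h3 := isHomogeneous_C_mul_X_pow a i 1
    have h4 := isHomogeneous_C_mul_X_pow b j 1
    rw [pow_one] at h3 h4
    exact h3.add h4
  have hAh : ∀ i, (A i).IsHomogeneous 1 := by
    intro i
    fin_cases i
    · have h3 := hlin ((dt d P)⁻¹ * P 1) (-((dt d P)⁻¹ * d 1)) 1 0
      convert h3 using 1
      simp only [hA, Fin.zero_eta, Matrix.cons_val_zero, map_mul, map_neg]
      ring
    · have h3 := hlin ((dt d P)⁻¹ * d 0) (-((dt d P)⁻¹ * P 0)) 0 1
      convert h3 using 1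
      simp only [hA, Fin.mk_one, Matrix.cons_val_one, Matrix.cons_val_zero, map_mul, map_neg]
      ring
    · exact isHomogeneous_X _ _
  have hBh : ∀ i, (B i).IsHomogeneous 1 := by
    intro i
    fin_cases i
    · exact hlin _ _ _ _
    · exact hlin _ _ _ _
    · exact isHomogeneous_X _ _
  refine ⟨AlgEquiv.ofAlgHom (aeval A) (aeval B) h1 h2, ?_, ?_, ?_, ?_, ?_⟩
  · have h3 := DFunLike.congr_fun h1 (X 0)
    simpa [hB] using h3
  · have h3 := DFunLike.congr_fun h1 (X 1)
    simpa [hB] using h3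
  · simp [hA]
  · intro f k hf
    have h3 := hf.aeval A hAh
    rw [one_mul] at h3
    exact h3
  · intro f k hf
    have h3 := hf.aeval B hBh
    rw [one_mul] at h3
    exact h3

private theorem exists_dt {P : Fin 2 → K} (h : P ≠ 0) : ∃ d : Fin 2 → K, dt d P ≠ 0 := by
  by_cases h1 : P 1 = 0
  · have h0 : P 0 ≠ 0 := by
      intro h0
      apply h
      ext i
      fin_cases i
      · exact h0
      · exact h1
    refine ⟨![0, 1], ?_⟩
    simpa [dt] using h0
  · refine ⟨![1, 0], ?_⟩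
    simpa [dt] using h1

/-- a shear -/
private theorem shear_gen {i j : Fin 3} (hij : i ≠ j) :
    ∃ φ : MvPolynomial (Fin 3) K ≃ₐ[K] MvPolynomial (Fin 3) K, φ (X i) = X i - X j ∧
      ∀ k, k ≠ i → φ (X k) = X k := by
  set A : Fin 3 → MvPolynomial (Fin 3) K := fun k => if k = i then X i - X j else X k with hA
  set B : Fin 3 → MvPolynomial (Fin 3) K := fun k => if k = i then X i + X j else X k with hB
  have h1 : (aeval A).comp (aeval B) = AlgHom.id K (MvPolynomial (Fin 3) K) := by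
    apply MvPolynomial.algHom_ext
    intro k
    by_cases hk : k = i
    · subst hk
      simp [hA, hB, hij.symm]
    · simp [hA, hB, hk]
  have h2 : (aeval B).comp (aeval A) = AlgHom.id K (MvPolynomial (Fin 3) K) := by
    apply MvPolynomial.algHom_ext
    intro k
    by_cases hk : k = i
    · subst hk
      simp [hA, hB, hij.symm]
    · simp [hA, hB, hk]
  refine ⟨AlgEquiv.ofAlgHom (aeval A) (aeval B) h1 h2, ?_, ?_⟩
  · simp [hA]
  · intro k hk
    simp [hA, hk]

theorem frame {P d : Fin 2 → K} (h : dt d P ≠ 0) :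
    ∃ φ : MvPolynomial (Fin 3) K ≃ₐ[K] MvPolynomial (Fin 3) K, φ (vt P) = X 0 ∧ φ (ln d) = X 1 ∧
      φ (X 2) = X 2 := by
  obtain ⟨φ, h0, h1, h2, -, -⟩ := frame_gen h
  obtain ⟨σ, s1, s2⟩ := shear_gen (K := K) (i := 1) (j := 2) (by decide)
  refine ⟨φ.trans σ, ?_, ?_, ?_⟩
  · rw [AlgEquiv.trans_apply, h0, s2 0 (by decide)]
  · rw [AlgEquiv.trans_apply, ln, map_add, h1, h2, map_add, s1, s2 2 (by decide)]
    ring
  · rw [AlgEquiv.trans_apply, h2, s2 2 (by decide)]

/-- the stronger form of `frame2` -/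
private theorem frame2_gen {P d : Fin 2 → K} (h : dt d P ≠ 0) :
    ∃ φ : MvPolynomial (Fin 3) K ≃ₐ[K] MvPolynomial (Fin 3) K, φ (vt P) = X 0 ∧ φ (X 2) = X 1 ∧
      φ (vt d) = X 2 ∧
      (∀ f : MvPolynomial (Fin 3) K, ∀ k : ℕ, f.IsHomogeneous k → (φ f).IsHomogeneous k) ∧
      (∀ f : MvPolynomial (Fin 3) K, ∀ k : ℕ, f.IsHomogeneous k → (φ.symm f).IsHomogeneous k) := by
  obtain ⟨φ, h0, h1, h2, h3, h4⟩ := frame_gen h
  refine ⟨φ.trans (renameEquiv K (Equiv.swap (1 : Fin 3) 2)), ?_, ?_, ?_, ?_, ?_⟩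
  · rw [AlgEquiv.trans_apply, h0, renameEquiv_apply, rename_X]
    rfl
  · rw [AlgEquiv.trans_apply, h2, renameEquiv_apply, rename_X, Equiv.swap_apply_right]
  · rw [AlgEquiv.trans_apply, h1, renameEquiv_apply, rename_X, Equiv.swap_apply_left]
  · intro f k hf
    rw [AlgEquiv.trans_apply, renameEquiv_apply]
    exact (h3 f k hf).rename_isHomogeneous
  · intro f k hf
    rw [AlgEquiv.symm_trans_apply, renameEquiv_symm, renameEquiv_apply]
    exact h4 _ k hf.rename_isHomogeneous

theorem frame2 {P : Fin 2 → K} (h : P ≠ 0) :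
    ∃ φ : MvPolynomial (Fin 3) K ≃ₐ[K] MvPolynomial (Fin 3) K, φ (vt P) = X 0 ∧ φ (X 2) = X 1 ∧
      ∀ f : MvPolynomial (Fin 3) K, ∀ k : ℕ, f.IsHomogeneous k → (φ f).IsHomogeneous k := by
  obtain ⟨d, hd⟩ := exists_dt h
  obtain ⟨φ, h0, h1, -, h3, -⟩ := frame2_gen hd
  exact ⟨φ, h0, h1, h3⟩

theorem frame3 {P : Fin 2 → K} (h : P ≠ 0) :
    ∃ φ : MvPolynomial (Fin 3) K ≃ₐ[K] MvPolynomial (Fin 3) K, φ (ln P) = X 0 ∧ φ (X 2) = X 1 := by
  obtain ⟨d, hd⟩ := exists_dt h
  obtain ⟨φ, h0, h1, -, -, -⟩ := frame2_gen hd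
  obtain ⟨σ, s1, s2⟩ := shear_gen (K := K) (i := 0) (j := 1) (by decide)
  refine ⟨φ.trans σ, ?_, ?_⟩
  · rw [AlgEquiv.trans_apply, ln, map_add, h0, h1, map_add, s1, s2 1 (by decide)]
    ring
  · rw [AlgEquiv.trans_apply, h1, s2 1 (by decide)]

private theorem J_le_mI (ρ a b : ℕ) : J ρ a b (X 0) (X 1) ≤ mI K 0 1 ρ a b := by
  unfold J
  refine sup_le (pow_le_mI (by decide) ρ a b) (sup_le ?_ ?_)
  · rw [Ideal.span_le, Set.singleton_subset_iff]
    exact X_mem_left ρ a b
  · rw [Ideal.span_le, Set.singleton_subset_iff]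
    exact X_mem_right ρ a b

/-- the lowest level -/
theorem low_level {ρ a b l : ℕ} {x y H : MvPolynomial (Fin 3) K}
    (φ : MvPolynomial (Fin 3) K ≃ₐ[K] MvPolynomial (Fin 3) K) (hx : φ x = X 0) (hy : φ y = X 1)
    (hl : l < a) (h : x ^ l * H ∈ J ρ a b x y) :
    H ∈ Ideal.span {x} ⊔ Ideal.span {y ^ min (ρ - l) b} := by
  have h1 : X 0 ^ l * φ H ∈ mI K 0 1 ρ a b := by
    have h2 := J_map (φ : MvPolynomial (Fin 3) K →+* MvPolynomial (Fin 3) K) h
    have h3 : ∀ f, (φ : MvPolynomial (Fin 3) K →+* MvPolynomial (Fin 3) K) f = φ f := fun f => rfl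
    rw [h3, h3, h3, hx, hy, map_mul, map_pow, hx] at h2
    exact J_le_mI _ _ _ h2
  have h2 : ∀ m : Fin 3 →₀ ℕ, m 0 = 0 → m 1 < min (ρ - l) b → coeff m (φ H) = 0 := by
    intro m hm0 hm1
    rw [mem_mI] at h1
    have h3 := h1 (Finsupp.single 0 l + m) (by
      simp only [Finsupp.add_apply, Finsupp.single_eq_same]
      rw [Finsupp.single_apply, if_neg (by decide)]
      omega) (by
      simp only [Finsupp.add_apply, Finsupp.single_eq_same]
      omega) (by
      simp only [Finsupp.add_apply]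
      rw [Finsupp.single_apply, if_neg (by decide)]
      omega)
    rw [X_pow_eq_monomial, coeff_monomial_mul, one_mul] at h3
    exact h3
  have h3 : φ H ∈ Ideal.span {(X 0 : MvPolynomial (Fin 3) K)} ⊔
      Ideal.span {X 1 ^ min (ρ - l) b} := by
    rw [(φ H).as_sum]
    refine Ideal.sum_mem _ (fun m hm => ?_)
    rw [mem_support_iff] at hm
    by_cases h4 : m 0 = 0
    · have h5 : min (ρ - l) b ≤ m 1 := by
        by_contra h5
        exact hm (h2 m h4 (by omega))
      apply Ideal.mem_sup_right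
      rw [Ideal.mem_span_singleton, X_pow_eq_monomial, monomial_dvd_monomial]
      refine ⟨Or.inr ?_, one_dvd _⟩
      rw [Finsupp.single_le_iff]
      exact h5
    · apply Ideal.mem_sup_left
      rw [Ideal.mem_span_singleton, X, monomial_dvd_monomial]
      refine ⟨Or.inr ?_, one_dvd _⟩
      rw [Finsupp.single_le_iff]
      omega
  have h4 := Ideal.mem_map_of_mem (φ.symm : MvPolynomial (Fin 3) K →+* MvPolynomial (Fin 3) K) h3
  have h5 : ∀ f, (φ.symm : MvPolynomial (Fin 3) K →+* MvPolynomial (Fin 3) K) f = φ.symm f :=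
    fun f => rfl
  rw [Ideal.map_sup, Ideal.map_span, Ideal.map_span, Set.image_singleton, Set.image_singleton,
    map_pow, h5, h5, h5, AlgEquiv.symm_apply_apply, ← hx, ← hy, AlgEquiv.symm_apply_apply,
    AlgEquiv.symm_apply_apply] at h4
  exact h4

/-- evaluation on the line `vt P = 0` (for `w = (-P 1, P 0)`) -/
noncomputable def pe (w : Fin 2 → K) : MvPolynomial (Fin 3) K →ₐ[K] Polynomial K :=
  aeval ![Polynomial.C (w 0), Polynomial.C (w 1), Polynomial.X]

/-- the direction of the line `vt P` -/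
def dr (P : Fin 2 → K) : Fin 2 → K := ![-P 1, P 0]

theorem pe_vt (P d : Fin 2 → K) : pe (dr P) (vt d) = Polynomial.C (-dt d P) := by
  have h : ∀ a : K, algebraMap K (Polynomial K) a = Polynomial.C a := fun a => rfl
  simp only [pe, dr, vt, dt, map_add, map_mul, algHom_C, aeval_X, Matrix.cons_val_zero,
    Matrix.cons_val_one, h, map_neg, map_sub]
  ring

theorem pe_X2 (w : Fin 2 → K) : pe w (X 2) = Polynomial.X := by
  simp [pe]

theorem pe_ln (P d : Fin 2 → K) : pe (dr P) (ln d) = Polynomial.X - Polynomial.C (dt d P) := by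
  rw [ln, map_add, pe_vt, pe_X2, map_neg]
  ring

private theorem pe_monomial (w : Fin 2 → K) (m : Fin 3 →₀ ℕ) (c : K) :
    pe w (monomial m c) = Polynomial.C (c * w 0 ^ m 0 * w 1 ^ m 1) * Polynomial.X ^ m 2 := by
  unfold pe
  rw [aeval_monomial, Finsupp.prod_fintype _ _ (by simp), Fin.prod_univ_three]
  simp only [Matrix.cons_val_zero, Matrix.cons_val_one, Matrix.cons_val, map_mul, map_pow]
  have h : ∀ a : K, algebraMap K (Polynomial K) a = Polynomial.C a := fun a => rfl
  rw [h]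
  ring

theorem pe_deg (w : Fin 2 → K) {f : MvPolynomial (Fin 3) K} {n : ℕ} (h : degreeOf 2 f ≤ n) :
    (pe w f).natDegree ≤ n := by
  rw [f.as_sum, map_sum]
  refine Polynomial.natDegree_sum_le_of_forall_le _ _ (fun m hm => ?_)
  rw [pe_monomial]
  refine (Polynomial.natDegree_C_mul_X_pow_le _ _).trans ?_
  exact (monomial_le_degreeOf 2 hm).trans h

/-- divisibility by `X 0` -/
private theorem X0_dvd {g : MvPolynomial (Fin 3) K} (h : ∀ m : Fin 3 →₀ ℕ, m 0 = 0 → coeff m g = 0) :
    X 0 ∣ g := by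
  rw [g.as_sum]
  refine Finset.dvd_sum (fun m hm => ?_)
  rw [mem_support_iff] at hm
  rw [X, monomial_dvd_monomial]
  refine ⟨Or.inr ?_, one_dvd _⟩
  rw [Finsupp.single_le_iff]
  by_contra h1
  exact hm (h m (by omega))

theorem dvd_of_pe {P : Fin 2 → K} (hP : P ≠ 0) {f : MvPolynomial (Fin 3) K} {k : ℕ}
    (hf : f.IsHomogeneous k) (h : pe (dr P) f = 0) : vt P ∣ f := by
  obtain ⟨d, hd⟩ := exists_dt hP
  obtain ⟨φ, h0, h1, h2, h3, -⟩ := frame2_gen hd
  have hg := h3 f k hf
  set g := φ f with hgdef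
  have e0 : φ.symm (X 0) = vt P := by rw [← h0, AlgEquiv.symm_apply_apply]
  have e1 : φ.symm (X 1) = X 2 := by rw [← h1, AlgEquiv.symm_apply_apply]
  have e2 : φ.symm (X 2) = vt d := by rw [← h2, AlgEquiv.symm_apply_apply]
  have hfg : φ.symm g = f := by rw [hgdef, AlgEquiv.symm_apply_apply]
  have hPP : dt P P = 0 := by
    unfold dt
    ring
  -- the composite evaluation
  have hev : ∀ q : MvPolynomial (Fin 3) K, pe (dr P) (φ.symm q) =
      aeval ![0, Polynomial.X, Polynomial.C (-dt d P)] q := by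
    intro q
    have h4 : (pe (dr P)).comp (φ.symm : MvPolynomial (Fin 3) K →ₐ[K] MvPolynomial (Fin 3) K) =
        aeval ![0, Polynomial.X, Polynomial.C (-dt d P)] := by
      apply MvPolynomial.algHom_ext
      intro i
      fin_cases i
      · simp only [AlgHom.comp_apply, AlgEquiv.coe_toAlgHom, Fin.zero_eta, e0, pe_vt, hPP,
          aeval_X, Matrix.cons_val_zero, neg_zero, map_zero]
      · simp only [AlgHom.comp_apply, AlgEquiv.coe_toAlgHom, Fin.mk_one, e1, pe_X2,
          aeval_X, Matrix.cons_val_one, Matrix.cons_val_zero]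
      · simp only [AlgHom.comp_apply, AlgEquiv.coe_toAlgHom, Fin.reduceFinMk, e2, pe_vt,
          aeval_X, Matrix.cons_val]
    exact DFunLike.congr_fun h4 q
  have h5 := hev g
  rw [hfg, h] at h5
  have h6 : X 0 ∣ g := by
    apply X0_dvd
    intro m hm
    by_contra hne
    have hdeg : ∀ n : Fin 3 →₀ ℕ, coeff n g ≠ 0 → n 0 + n 1 + n 2 = k := by
      intro n hn
      have h7 := hg hn
      rw [← h7, Finsupp.weight_apply, Finsupp.sum_fintype _ _ (by simp), Fin.sum_univ_three]
      simp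
    have h7 : (aeval ![0, Polynomial.X, Polynomial.C (-dt d P)] g : Polynomial K).coeff (m 1) =
        coeff m g * (-dt d P) ^ (m 2) := by
      conv_lhs => rw [g.as_sum]
      rw [map_sum, Polynomial.finsetSum_coeff, Finset.sum_eq_single m]
      · rw [aeval_monomial, Finsupp.prod_fintype _ _ (by simp), Fin.prod_univ_three]
        simp only [Matrix.cons_val_zero, Matrix.cons_val_one, Matrix.cons_val]
        rw [hm, pow_zero, one_mul, ← Polynomial.C_pow]
        have h8 : ∀ a : K, algebraMap K (Polynomial K) a = Polynomial.C a := fun a => rfl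
        rw [h8, ← mul_assoc, mul_comm (Polynomial.C _) (Polynomial.X ^ _), mul_assoc,
          ← Polynomial.C_mul, Polynomial.coeff_X_pow_mul', if_pos le_rfl, Nat.sub_self,
          Polynomial.coeff_C_zero]
      · intro n hn hnm
        rw [mem_support_iff] at hn
        rw [aeval_monomial, Finsupp.prod_fintype _ _ (by simp), Fin.prod_univ_three]
        simp only [Matrix.cons_val_zero, Matrix.cons_val_one, Matrix.cons_val]
        have h8 : ∀ a : K, algebraMap K (Polynomial K) a = Polynomial.C a := fun a => rfl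
        by_cases hn0 : n 0 = 0
        · have hn1 : n 1 ≠ m 1 := by
            intro hn1
            apply hnm
            have h9 := hdeg n hn
            have h10 := hdeg m hne
            ext i
            fin_cases i
            · show n 0 = m 0
              omega
            · exact hn1
            · show n 2 = m 2
              omega
          rw [hn0, pow_zero, one_mul, ← Polynomial.C_pow, h8, ← mul_assoc,
            mul_comm (Polynomial.C _) (Polynomial.X ^ _), mul_assoc,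
            ← Polynomial.C_mul, Polynomial.coeff_X_pow_mul']
          split_ifs with h11
          · rw [Polynomial.coeff_C, if_neg (by omega)]
          · rfl
        · rw [zero_pow hn0]
          simp
      · intro hm'
        exact absurd (mem_support_iff.2 hne) hm'
    rw [← h5] at h7
    rw [Polynomial.coeff_zero] at h7
    have h8 : coeff m g * (-dt d P) ^ (m 2) ≠ 0 :=
      mul_ne_zero hne (pow_ne_zero _ (neg_ne_zero.2 hd))
    exact h8 h7.symm
  obtain ⟨q, hq⟩ := h6
  refine ⟨φ.symm q, ?_⟩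
  rw [← hfg, hq, map_mul, e0]

private theorem vt_ne_zero {P : Fin 2 → K} (hP : P ≠ 0) : (vt P : MvPolynomial (Fin 3) K) ≠ 0 := by
  obtain ⟨φ, h0, -⟩ := frame2 hP
  intro h
  rw [h, map_zero] at h0
  exact X_ne_zero (R := K) (0 : Fin 3) h0.symm

/-- cancelling powers of `vt P` -/
theorem cancel_vt {P : Fin 2 → K} (hP : P ≠ 0) {f : MvPolynomial (Fin 3) K} {k l j : ℕ}
    (hf : (vt P ^ l * f).IsHomogeneous k) (hl : l ≤ k) (hj : degreeOf 2 (vt P ^ l * f) ≤ j) :
    f.IsHomogeneous (k - l) ∧ degreeOf 2 f ≤ j := by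
  refine ⟨?_, ?_⟩
  · obtain ⟨d, hd⟩ := exists_dt hP
    obtain ⟨φ, h0, -, -, h3, h4⟩ := frame2_gen hd
    have h5 := h3 _ k hf
    rw [map_mul, map_pow, h0] at h5
    have h6 : (φ f).IsHomogeneous (k - l) := by
      intro m hm
      have h7 : coeff (Finsupp.single 0 l + m) (X 0 ^ l * φ f) ≠ 0 := by
        rw [X_pow_eq_monomial, coeff_monomial_mul, one_mul]
        exact hm
      have h8 := h5 h7
      rw [map_add] at h8
      have h9 : Finsupp.weight (1 : Fin 3 → ℕ) (Finsupp.single 0 l) = l := by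
        rw [Finsupp.weight_single]
        simp
      rw [h9] at h8
      omega
    have h7 := h4 _ _ h6
    rwa [AlgEquiv.symm_apply_apply] at h7
  · by_cases h0 : f = 0
    · rw [h0, degreeOf_zero]
      exact Nat.zero_le _
    · rw [degreeOf_mul_eq (pow_ne_zero _ (vt_ne_zero hP)) h0] at hj
      omega

/-- the part of degree `n` in `X 2` -/
noncomputable def part (n : ℕ) (f : MvPolynomial (Fin 3) K) : MvPolynomial (Fin 3) K :=
  ∑ m ∈ f.support.filter (fun m => m 2 = n), monomial m (coeff m f)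

private theorem statb_pe_dvd {P : Fin 2 → K} {y H : MvPolynomial (Fin 3) K} {q : Polynomial K} {m : ℕ}
    (hy : pe (dr P) y = q) (h : H ∈ Ideal.span {vt P} ⊔ Ideal.span {y ^ m}) :
    q ^ m ∣ pe (dr P) H := by
  rw [Submodule.mem_sup] at h
  obtain ⟨u, hu, v, hv, rfl⟩ := h
  rw [Ideal.mem_span_singleton] at hu hv
  obtain ⟨s, rfl⟩ := hu
  obtain ⟨t, rfl⟩ := hv
  rw [map_add, map_mul, map_mul, map_pow, pe_vt, hy]
  have h0 : dt P P = 0 := by unfold dt; ring
  rw [h0, neg_zero, Polynomial.C_0, zero_mul, zero_add]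
  exact dvd_mul_right _ _

/-- the general induction -/
private theorem stat_gen {c k j : ℕ} {P : Fin 2 → K} (hP : P ≠ 0) (hc : c ≤ k)
    {G : MvPolynomial (Fin 3) K} (hG : G.IsHomogeneous k) (hdeg : degreeOf 2 G ≤ j)
    (hstep : ∀ l, l < c → ∀ H : MvPolynomial (Fin 3) K, G = vt P ^ l * H →
      (pe (dr P) H).natDegree ≤ j → pe (dr P) H = 0) : vt P ^ c ∣ G := by
  have key : ∀ l, l ≤ c → vt P ^ l ∣ G := by
    intro l
    induction l with
    | zero => intro _; simp
    | succ l ih =>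
      intro hl
      obtain ⟨H, hH⟩ := ih (by omega)
      have h1 : (vt P ^ l * H).IsHomogeneous k := hH ▸ hG
      have h2 : degreeOf 2 (vt P ^ l * H) ≤ j := hH ▸ hdeg
      obtain ⟨h3, h4⟩ := cancel_vt hP h1 (by omega) h2
      have h5 := hstep l (by omega) H hH (pe_deg _ h4)
      obtain ⟨s, hs⟩ := dvd_of_pe hP h3 h5
      refine ⟨s, ?_⟩
      rw [hH, hs, pow_succ]
      ring
  exact key c le_rfl

private theorem statb_ne {P d : Fin 2 → K} (hd : dt d P ≠ 0) : P ≠ 0 := by
  rintro rfl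
  apply hd
  unfold dt
  simp

private theorem statb_ln {ρ W l : ℕ} {P d : Fin 2 → K} (hd : dt d P ≠ 0) (hl : l < W + 1)
    {G H : MvPolynomial (Fin 3) K} (hG : G = vt P ^ l * H)
    (h : G ∈ J ρ (W + 1) (W + 1) (ln d) (vt P)) :
    (Polynomial.X - Polynomial.C (dt d P)) ^ min (ρ - l) (W + 1) ∣ pe (dr P) H := by
  obtain ⟨φ, h1, h2, -⟩ := frame hd
  rw [J_comm, hG] at h
  exact statb_pe_dvd (pe_ln P d) (low_level φ h1 h2 hl h)

private theorem statb_X2 {ρ W l : ℕ} {P : Fin 2 → K} (hP : P ≠ 0) (hl : l < W + 1)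
    {G H : MvPolynomial (Fin 3) K} (hG : G = vt P ^ l * H)
    (h : G ∈ J ρ (W + 1) W (vt P) (X 2)) :
    (Polynomial.X : Polynomial K) ^ min (ρ - l) W ∣ pe (dr P) H := by
  obtain ⟨φ, h1, h2, -⟩ := frame2 hP
  rw [hG] at h
  exact statb_pe_dvd (pe_X2 _) (low_level φ h1 h2 hl h)

private theorem statb_zero {f q : Polynomial K} {j : ℕ} (hj : j < q.natDegree)
    (hf : f.natDegree ≤ j) (h : q ∣ f) : f = 0 := by
  by_contra h0
  have h1 := Polynomial.natDegree_le_of_dvd h h0
  omega

theorem stat_a {ρ W j k : ℕ} {P d : Fin 2 → K} (hd : dt d P ≠ 0) (hj : j < W) (hρ : ρ ≤ k)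
    {G : MvPolynomial (Fin 3) K} (hG : G.IsHomogeneous k) (hdeg : degreeOf 2 G ≤ j)
    (h : G ∈ J ρ (W + 1) (W + 1) (ln d) (vt P)) : vt P ^ min (W + 1) (ρ - j) ∣ G := by
  refine stat_gen (statb_ne hd) (by omega) hG hdeg ?_
  intro l hl H hH hn
  have h1 := statb_ln hd (by omega) hH h
  refine statb_zero ?_ hn h1
  rw [Polynomial.natDegree_pow, Polynomial.natDegree_X_sub_C]
  omega

theorem stat_b {ρ W j k : ℕ} {P d : Fin 2 → K} (hd : dt d P ≠ 0) (hj : j < W) (hρ : ρ ≤ k)
    (hW : W < ρ) (h2 : W ≤ 2 * (ρ - W)) {G : MvPolynomial (Fin 3) K} (hG : G.IsHomogeneous k)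
    (hdeg : degreeOf 2 G ≤ j) (h : G ∈ J ρ (W + 1) (W + 1) (ln d) (vt P))
    (h1 : G ∈ J ρ (W + 1) W (vt P) (X 2)) : vt P ^ (W + 1) ∣ G := by
  refine stat_gen (statb_ne hd) (by omega) hG hdeg ?_
  intro l hl H hH hn
  have h3 := statb_ln hd hl hH h
  have h4 := statb_X2 (statb_ne hd) hl hH h1
  have hco : IsCoprime ((Polynomial.X - Polynomial.C (dt d P)) ^ min (ρ - l) (W + 1))
      ((Polynomial.X : Polynomial K) ^ min (ρ - l) W) := by
    refine IsCoprime.pow ?_
    have h5 := Polynomial.isCoprime_X_sub_C_of_isUnit_sub (a := dt d P) (b := 0)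
      (by rw [sub_zero]; exact isUnit_iff_ne_zero.2 hd)
    simpa using h5
  have h6 := hco.mul_dvd h3 h4
  refine statb_zero ?_ hn h6
  rw [((Polynomial.monic_X_sub_C _).pow _).natDegree_mul (Polynomial.monic_X.pow _),
    Polynomial.natDegree_pow, Polynomial.natDegree_X_sub_C, Polynomial.natDegree_pow,
    Polynomial.natDegree_X]
  omega

theorem stat_c {ρ W j k : ℕ} {P d d' : Fin 2 → K} (hd : dt d P ≠ 0) (hd' : dt d' P ≠ 0)
    (hdd : dt d P ≠ dt d' P) (hj : j < W) (hρ : ρ ≤ k) (hW : W < ρ) (h2 : W ≤ 2 * (ρ - W))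
    {G : MvPolynomial (Fin 3) K} (hG : G.IsHomogeneous k) (hdeg : degreeOf 2 G ≤ j)
    (h : G ∈ J ρ (W + 1) (W + 1) (ln d) (vt P)) (h' : G ∈ J ρ (W + 1) (W + 1) (ln d') (vt P)) :
    vt P ^ (W + 1) ∣ G := by
  refine stat_gen (statb_ne hd) (by omega) hG hdeg ?_
  intro l hl H hH hn
  have h3 := statb_ln hd hl hH h
  have h4 := statb_ln hd' hl hH h'
  have hco : IsCoprime ((Polynomial.X - Polynomial.C (dt d P)) ^ min (ρ - l) (W + 1))
      ((Polynomial.X - Polynomial.C (dt d' P)) ^ min (ρ - l) (W + 1)) :=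
    (Polynomial.isCoprime_X_sub_C_of_isUnit_sub
      (isUnit_iff_ne_zero.2 (sub_ne_zero.2 hdd))).pow
  have h6 := hco.mul_dvd h3 h4
  refine statb_zero ?_ hn h6
  rw [((Polynomial.monic_X_sub_C _).pow _).natDegree_mul ((Polynomial.monic_X_sub_C _).pow _),
    Polynomial.natDegree_pow, Polynomial.natDegree_X_sub_C, Polynomial.natDegree_pow,
    Polynomial.natDegree_X_sub_C]
  omega

theorem coeff_part (n : ℕ) (f : MvPolynomial (Fin 3) K) (m : Fin 3 →₀ ℕ) :
    coeff m (part n f) = if m 2 = n then coeff m f else 0 := by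
  classical
  unfold part
  rw [coeff_sum]
  simp only [coeff_monomial]
  rw [Finset.sum_ite_eq' (f.support.filter (fun m => m 2 = n)) m (fun m' => coeff m' f)]
  by_cases hm : m 2 = n
  · rw [if_pos hm]
    by_cases h0 : coeff m f = 0
    · rw [h0]; simp
    · rw [if_pos (by rw [Finset.mem_filter]; exact ⟨mem_support_iff.2 h0, hm⟩)]
  · rw [if_neg hm, if_neg (by rw [Finset.mem_filter]; tauto)]

private theorem part_add (n : ℕ) (f g : MvPolynomial (Fin 3) K) :
    part n (f + g) = part n f + part n g := by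
  ext m
  rw [coeff_add, coeff_part, coeff_part, coeff_part, coeff_add]
  split_ifs <;> simp

private theorem part_C_mul (n : ℕ) (a : K) (f : MvPolynomial (Fin 3) K) :
    part n (C a * f) = C a * part n f := by
  ext m
  rw [coeff_C_mul, coeff_part, coeff_part, coeff_C_mul]
  split_ifs <;> simp

private theorem part_X_mul (n : ℕ) {i : Fin 3} (hi : i ≠ 2) (f : MvPolynomial (Fin 3) K) :
    part n (X i * f) = X i * part n f := by
  classical
  ext m
  rw [coeff_X_mul', coeff_part, coeff_X_mul', coeff_part]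
  have h1 : (m - Finsupp.single i 1 : Fin 3 →₀ ℕ) 2 = m 2 := by
    rw [Finsupp.tsub_apply, Finsupp.single_eq_of_ne (Ne.symm hi), Nat.sub_zero]
  rw [h1]
  split_ifs <;> simp

private theorem part_vt_mul (n : ℕ) (P : Fin 2 → K) (f : MvPolynomial (Fin 3) K) :
    part n (vt P * f) = vt P * part n f := by
  unfold vt
  rw [add_mul, part_add, mul_assoc, mul_assoc, part_C_mul, part_C_mul,
    part_X_mul n (by decide), part_X_mul n (by decide)]
  ring

private theorem part_vt_pow_mul (n c : ℕ) (P : Fin 2 → K) (f : MvPolynomial (Fin 3) K) :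
    part n (vt P ^ c * f) = vt P ^ c * part n f := by
  induction c with
  | zero => simp
  | succ c ih =>
    rw [pow_succ', mul_assoc, part_vt_mul, ih, mul_assoc]

theorem dvd_part {P : Fin 2 → K} {c n : ℕ} {f : MvPolynomial (Fin 3) K} (h : vt P ^ c ∣ f) :
    vt P ^ c ∣ part n f := by
  obtain ⟨g, rfl⟩ := h
  rw [part_vt_pow_mul]
  exact dvd_mul_right _ _

private theorem part_part (n : ℕ) (f : MvPolynomial (Fin 3) K) : part n (part n f) = part n f := by
  ext m
  rw [coeff_part, coeff_part]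
  split_ifs <;> rfl

private theorem X_dvd_part (n : ℕ) (f : MvPolynomial (Fin 3) K) : X 2 ^ n ∣ part n f := by
  unfold part
  refine Finset.dvd_sum fun m hm => ?_
  rw [Finset.mem_filter] at hm
  refine ⟨monomial (m - Finsupp.single 2 n) (coeff m f), ?_⟩
  rw [X_pow_eq_monomial, monomial_mul, one_mul]
  congr 1
  rw [add_tsub_cancel_of_le]
  rw [Finsupp.single_le_iff, hm.2]

private theorem part_sum (f : MvPolynomial (Fin 3) K) :
    ∑ n ∈ Finset.range (degreeOf 2 f + 1), part n f = f := by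
  ext m
  rw [coeff_sum]
  simp only [coeff_part]
  rw [Finset.sum_ite_eq]
  by_cases h0 : coeff m f = 0
  · rw [h0]; simp
  · rw [if_pos]
    rw [Finset.mem_range]
    have := monomial_le_degreeOf 2 (mem_support_iff.2 h0)
    omega

private theorem sh_sh (e : Fin 2 → K) (r : MvPolynomial (Fin 3) K) :
    sh e (sh (fun i => -e i) r) = r := by
  have h : (sh e).comp (sh (fun i => -e i)) = AlgHom.id K _ := by
    apply algHom_ext
    intro i
    unfold sh
    fin_cases i <;> simp
  have h2 := congrArg (fun f => f r) h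
  simpa using h2

private theorem sh_vt {P e : Fin 2 → K} (he : P 0 * e 0 + P 1 * e 1 = 1) : sh e (vt P) = ln P := by
  unfold sh ln vt
  have h1 : (C (P 0) * C (e 0) + C (P 1) * C (e 1) : MvPolynomial (Fin 3) K) = 1 := by
    rw [← C_mul, ← C_mul, ← C_add, he, C_1]
  simp only [map_add, map_mul, aeval_X, algHom_C, algebraMap_eq, Matrix.cons_val_zero,
    Matrix.cons_val_one]
  linear_combination X 2 * h1

private theorem sh_X2 (e : Fin 2 → K) : sh e (X 2) = X 2 := by
  unfold sh
  simp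

/-- type 1 from the parts -/
theorem type_one {ρ W : ℕ} {P e : Fin 2 → K} (he : P 0 * e 0 + P 1 * e 1 = 1)
    {r : MvPolynomial (Fin 3) K}
    (h : ∀ n, n < W → vt P ^ min (W + 1) (ρ - n) ∣ part n (sh (fun i => -e i) r)) :
    r ∈ J ρ (W + 1) W (ln P) (X 2) := by
  set f := sh (fun i => -e i) r with hf
  have hr : r = sh e f := (sh_sh e r).symm
  rw [hr, ← part_sum f, map_sum]
  refine Ideal.sum_mem _ fun n _ => ?_
  by_cases hn : n < W
  · obtain ⟨g, hg⟩ := h n hn
    have h1 : part n f = vt P ^ min (W + 1) (ρ - n) * part n g := by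
      rw [← part_vt_pow_mul, ← hg, part_part]
    obtain ⟨s, hs⟩ := X_dvd_part n g
    rw [h1, hs, map_mul, map_mul, map_pow, map_pow, sh_vt he, sh_X2]
    rcases le_total (W + 1) (ρ - n) with h2 | h2
    · rw [min_eq_left h2]
      exact J_left (Dvd.intro _ rfl)
    · rw [min_eq_right h2]
      unfold J
      refine Ideal.mem_sup_left ?_
      rw [← mul_assoc]
      refine Ideal.mul_mem_right _ _ ?_
      have h3 : ln P ^ (ρ - n) * X 2 ^ n ∈ Ideal.span {ln P, X 2} ^ (ρ - n + n) := by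
        rw [pow_add]
        exact Ideal.mul_mem_mul
          (Ideal.pow_mem_pow (Ideal.subset_span (by simp)) _)
          (Ideal.pow_mem_pow (Ideal.subset_span (by simp)) _)
      exact Ideal.pow_le_pow_right (by omega) h3
  · obtain ⟨s, hs⟩ := X_dvd_part n f
    rw [hs, map_mul, map_pow, sh_X2]
    exact J_right (dvd_mul_of_dvd_left (pow_dvd_pow _ (by omega)) _)

theorem type_two {W : ℕ} {P e : Fin 2 → K} (he : P 0 * e 0 + P 1 * e 1 = 1)
    {r : MvPolynomial (Fin 3) K}
    (h : ∀ n, n < W → vt P ^ (W + 1) ∣ part n (sh (fun i => -e i) r)) :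
    r ∈ Ideal.span {ln P ^ (W + 1)} ⊔ Ideal.span {(X 2) ^ W} := by
  set f := sh (fun i => -e i) r with hf
  have hr : r = sh e f := (sh_sh e r).symm
  rw [hr, ← part_sum f, map_sum]
  refine Ideal.sum_mem _ fun n _ => ?_
  by_cases hn : n < W
  · obtain ⟨g, hg⟩ := h n hn
    rw [hg, map_mul, map_pow, sh_vt he]
    exact Ideal.mem_sup_left (Ideal.mem_span_singleton.2 (Dvd.intro _ rfl))
  · obtain ⟨s, hs⟩ := X_dvd_part n f
    rw [hs, map_mul, map_pow, sh_X2]
    exact Ideal.mem_sup_right (Ideal.mem_span_singleton.2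
      (dvd_mul_of_dvd_left (pow_dvd_pow _ (by omega)) _))

end Pool.Agent.SplW
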