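import Pool.Agent.SplW.Ext
import Pool.Agent.SplW.Stat

/-!
# Module L: Laurent series

`F = LaurentSeries K`, `ep` the variable, `ex i f` the coefficient of `ep ^ i` of a polynomial `f` over `F` (a special case of `ap`).  `Od f`: all coefficients
of `f` are power series.  `ga` is the substitution `X 2 ↦ ep X 2`.
PAPER PROOFS.  `Od.mul`, `ex0_mul`: Cauchy product of Laurent series without negative terms.  `ex_ga`: `coeff m (ga f) = ep ^ (m 2) * coeff m f`.
`od_sh`, `ex0_sh`: `sh (ep η) = aeval ![X 0 + C (ep η 0) X 2, ..]` maps `monomial m 1` to a product of polynomials `X i + ep (..)` with coefficients in `K[[ep]]`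
which reduces to `monomial m 1` modulo `ep`; sum over the monomials of `f`.
`ex_sh_mod`: let `f' = f - ∑_{i < j} ep ^ i bc (ex i f)`; `Od (ep ^ (-j) f')`; `sh (ep η) f = ∑_{i<j} ep^i sh (ep η) (bc (ex i f)) + ep ^ j sh (ep η) (ep ^ (-j) f')`;
`vt P ^ c ∣ ex i f` for `i < j`, `sh (ep η) (vt P) = vt P` (as `<P, η> = 0`), so the first part is divisible by `vt P ^ c` over `F`, and so is its
`ex j` (`ap_dvd`); `ex j` of the second part is `ex 0 (sh (ep η) (ep ^ (-j) f')) = ex 0 (ep ^ (-j) f') = ex j f' = ex j f` (`ex0_sh`).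
`scale`: the orders of the finitely many non zero coefficients have a minimum `n`; multiply by `ep ^ (-n)`.
-/

set_option autoImplicit false

namespace Pool.Agent.SplW

open MvPolynomial

variable {K : Type*} [Field K]

/-- the variable -/
noncomputable def ep (K : Type*) [Field K] : LaurentSeries K := HahnSeries.single 1 1

/-- the inclusion of the constants -/
noncomputable def cl (K : Type*) [Field K] : K →+* LaurentSeries K := HahnSeries.C

/-- the coefficient of `ep ^ i` -/
noncomputable def co (K : Type*) [Field K] (i : ℤ) : Fun (cl K) where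
  l := { toFun := fun x => x.coeff i
         map_zero' := rfl
         map_add' := fun _ _ => rfl }
  hl := fun c x => by
    change (HahnSeries.C c * x).coeff i = c * x.coeff i
    rw [HahnSeries.C_mul_eq_smul, HahnSeries.coeff_smul, smul_eq_mul]

/-- the coefficient of `ep ^ i` of a polynomial -/
noncomputable def ex (i : ℤ) (f : MvPolynomial (Fin 3) (LaurentSeries K)) : MvPolynomial (Fin 3) K :=
  ap (co K i) f

/-- the substitution `X 2 ↦ ep X 2` -/
noncomputable def ga (K : Type*) [Field K] :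
    MvPolynomial (Fin 3) (LaurentSeries K) →ₐ[LaurentSeries K]
      MvPolynomial (Fin 3) (LaurentSeries K) :=
  aeval ![X 0, X 1, C (ep K) * X 2]

/-- no negative powers of `ep` -/
def Od (f : MvPolynomial (Fin 3) (LaurentSeries K)) : Prop := ∀ i : ℤ, i < 0 → ex i f = 0

theorem coeff_ex (i : ℤ) (f : MvPolynomial (Fin 3) (LaurentSeries K)) (m : Fin 3 →₀ ℕ) :
    coeff m (ex i f) = (coeff m f).coeff i := by
  unfold ex
  rw [coeff_ap]
  rfl

theorem ep_ne : ep K ≠ 0 := by
  unfold ep
  exact HahnSeries.single_ne_zero one_ne_zero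

theorem ep_zpow (n : ℤ) : ep K ^ n = HahnSeries.single n 1 := by
  unfold ep
  exact (RatFunc.single_zpow n).symm

theorem coeff_ep_zpow (n i : ℤ) (x : LaurentSeries K) : (ep K ^ n * x).coeff i = x.coeff (i - n) := by
  rw [ep_zpow, HahnSeries.coeff_single_mul, one_mul]

theorem coeff_ep_pow (n : ℕ) (i : ℤ) (x : LaurentSeries K) :
    (ep K ^ n * x).coeff i = x.coeff (i - n) := by
  rw [← zpow_natCast, coeff_ep_zpow]

/-- multiplication by a power of `ep` -/
theorem ex_ep (n i : ℤ) (f : MvPolynomial (Fin 3) (LaurentSeries K)) :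
    ex i (C (ep K ^ n) * f) = ex (i - n) f := by
  ext m
  rw [coeff_ex, coeff_C_mul, coeff_ex, coeff_ep_zpow]

theorem ex_bc (i : ℤ) (g : MvPolynomial (Fin 3) K) :
    ex i (bc (cl K) g) = if i = 0 then g else 0 := by
  ext m
  rw [coeff_ex, bc, coeff_map, cl, HahnSeries.C_apply, HahnSeries.coeff_single]
  split_ifs with h
  · rfl
  · simp

theorem ex_zero (i : ℤ) : ex i (0 : MvPolynomial (Fin 3) (LaurentSeries K)) = 0 := ap_zero _

theorem ex_add (i : ℤ) (f g : MvPolynomial (Fin 3) (LaurentSeries K)) :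
    ex i (f + g) = ex i f + ex i g := ap_add _ _ _

theorem ex_sub (i : ℤ) (f g : MvPolynomial (Fin 3) (LaurentSeries K)) :
    ex i (f - g) = ex i f - ex i g := ap_sub _ _ _

theorem ex_sum {ι : Type*} (i : ℤ) (s : Finset ι) (f : ι → MvPolynomial (Fin 3) (LaurentSeries K)) :
    ex i (∑ a ∈ s, f a) = ∑ a ∈ s, ex i (f a) := by
  classical
  induction s using Finset.induction_on with
  | empty => simp [ex_zero]
  | insert a s ha ih => rw [Finset.sum_insert ha, Finset.sum_insert ha, ex_add, ih]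

/-- no negative powers -/
def Ox (x : LaurentSeries K) : Prop := ∀ i : ℤ, i < 0 → x.coeff i = 0

theorem Ox.mul {x y : LaurentSeries K} (hx : Ox x) (hy : Ox y) : Ox (x * y) := by
  intro i hi
  rw [HahnSeries.coeff_mul]
  refine Finset.sum_eq_zero fun ij hij => ?_
  have h3 : ij.1 + ij.2 = i := by
    have := Finset.mem_antidiagonal.mp hij
    exact this.2.2
  rcases lt_or_ge ij.1 0 with h | h
  · rw [hx _ h, zero_mul]
  · rw [hy _ (by omega), mul_zero]

theorem Ox.coeff_mul {x y : LaurentSeries K} (hx : Ox x) (hy : Ox y) :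
    (x * y).coeff 0 = x.coeff 0 * y.coeff 0 := by
  rw [HahnSeries.coeff_mul]
  have key : ∀ ij ∈ Finset.antidiagonal x.isPWO_support y.isPWO_support 0, ij ≠ (0, 0) →
      x.coeff ij.1 * y.coeff ij.2 = 0 := by
    intro ij hij hne
    have h3 : ij.1 + ij.2 = 0 := by
      have := Finset.mem_antidiagonal.mp hij
      exact this.2.2
    rcases lt_or_ge ij.1 0 with h | h
    · rw [hx _ h, zero_mul]
    · rcases lt_or_ge ij.2 0 with h' | h'
      · rw [hy _ h', mul_zero]
      · exact absurd (Prod.ext (by simp; omega) (by simp; omega)) hne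
  by_cases h0 : ((0 : ℤ), (0 : ℤ)) ∈ Finset.antidiagonal x.isPWO_support y.isPWO_support 0
  · rw [Finset.sum_eq_single_of_mem _ h0 key]
  · rw [Finset.sum_eq_zero fun ij hij => key ij hij (fun h => h0 (h ▸ hij))]
    rw [Finset.mem_antidiagonal] at h0
    by_contra hne
    apply h0
    refine ⟨?_, ?_, by simp⟩
    · rw [HahnSeries.mem_support]
      intro h
      exact hne (by rw [h, zero_mul])
    · rw [HahnSeries.mem_support]
      intro h
      exact hne (by rw [h, mul_zero])

theorem od_iff {f : MvPolynomial (Fin 3) (LaurentSeries K)} : Od f ↔ ∀ m, Ox (coeff m f) := by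
  constructor
  · intro h m i hi
    rw [← coeff_ex, h i hi, coeff_zero]
  · intro h i hi
    ext m
    rw [coeff_ex, coeff_zero]
    exact h m i hi

theorem Ox.sum {ι : Type*} {s : Finset ι} {f : ι → LaurentSeries K} (h : ∀ a ∈ s, Ox (f a)) :
    Ox (∑ a ∈ s, f a) := by
  intro i hi
  rw [HahnSeries.coeff_sum]
  exact Finset.sum_eq_zero fun a ha => h a ha i hi

theorem Od.add {f g : MvPolynomial (Fin 3) (LaurentSeries K)} (hf : Od f) (hg : Od g) :
    Od (f + g) := by
  intro i hi
  rw [ex_add, hf i hi, hg i hi, add_zero]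

theorem Od.sub {f g : MvPolynomial (Fin 3) (LaurentSeries K)} (hf : Od f) (hg : Od g) :
    Od (f - g) := by
  intro i hi
  rw [ex_sub, hf i hi, hg i hi, sub_zero]

theorem Od.mul {f g : MvPolynomial (Fin 3) (LaurentSeries K)} (hf : Od f) (hg : Od g) :
    Od (f * g) := by
  rw [od_iff] at hf hg ⊢
  intro m
  rw [coeff_mul]
  exact Ox.sum fun p _ => (hf _).mul (hg _)

theorem ex0_mul {f g : MvPolynomial (Fin 3) (LaurentSeries K)} (hf : Od f) (hg : Od g) :
    ex 0 (f * g) = ex 0 f * ex 0 g := by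
  rw [od_iff] at hf hg
  ext m
  rw [coeff_ex, coeff_mul, coeff_mul, HahnSeries.coeff_sum]
  refine Finset.sum_congr rfl fun p _ => ?_
  rw [(hf _).coeff_mul (hg _), coeff_ex, coeff_ex]

theorem coeff_ga (f : MvPolynomial (Fin 3) (LaurentSeries K)) (m : Fin 3 →₀ ℕ) :
    coeff m (ga K f) = ep K ^ (m 2) * coeff m f := by
  classical
  have hmon : ∀ (u : Fin 3 →₀ ℕ) (a : LaurentSeries K),
      ga K (monomial u a) = monomial u (ep K ^ (u 2) * a) := by
    intro u a
    unfold ga
    rw [aeval_monomial, Finsupp.prod_fintype _ _ (fun i => by simp), Fin.prod_univ_three]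
    simp only [Matrix.cons_val_zero, Matrix.cons_val_one, Matrix.cons_val_two, Matrix.head_cons,
      Matrix.tail_cons]
    rw [monomial_eq, Finsupp.prod_fintype _ _ (fun i => by simp), Fin.prod_univ_three, mul_pow,
      map_mul, map_pow, algebraMap_eq]
    ring
  induction f using MvPolynomial.induction_on' with
  | monomial u a =>
    rw [hmon, coeff_monomial, coeff_monomial]
    split_ifs with h
    · rw [h]
    · rw [mul_zero]
  | add p q hp hq => rw [map_add, coeff_add, coeff_add, hp, hq, mul_add]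

/-- the substitution `ga` -/
theorem coeff_ex_ga (i : ℤ) (f : MvPolynomial (Fin 3) (LaurentSeries K)) (m : Fin 3 →₀ ℕ) :
    coeff m (ex i (ga K f)) = coeff m (ex (i - m 2) f) := by
  rw [coeff_ex, coeff_ga, coeff_ep_pow, coeff_ex]

theorem mem_support_ga {f : MvPolynomial (Fin 3) (LaurentSeries K)} {m : Fin 3 →₀ ℕ} :
    m ∈ (ga K f).support ↔ m ∈ f.support := by
  rw [mem_support_iff, mem_support_iff, coeff_ga]
  constructor
  · intro h h'
    exact h (by rw [h', mul_zero])
  · intro h h'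
    rcases mul_eq_zero.mp h' with h'' | h''
    · exact pow_ne_zero _ ep_ne h''
    · exact h h''

theorem ga_hom {f : MvPolynomial (Fin 3) (LaurentSeries K)} {k : ℕ} (h : f.IsHomogeneous k) :
    (ga K f).IsHomogeneous k := by
  intro m hm
  refine h ?_
  rw [← mem_support_iff] at hm ⊢
  exact mem_support_ga.mp hm

theorem ga_deg {f : MvPolynomial (Fin 3) (LaurentSeries K)} {n : ℕ} (h : degreeOf 2 f ≤ n) :
    degreeOf 2 (ga K f) ≤ n := by
  rw [degreeOf_le_iff] at h ⊢
  intro m hm
  exact h m (mem_support_ga.mp hm)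

theorem ga_inj {f : MvPolynomial (Fin 3) (LaurentSeries K)} (h : ga K f = 0) : f = 0 := by
  ext m
  have h1 := coeff_ga f m
  rw [h, coeff_zero] at h1
  rcases mul_eq_zero.mp h1.symm with h2 | h2
  · exact absurd h2 (pow_ne_zero _ ep_ne)
  · rw [h2, coeff_zero]

/-- `ga` and shifts -/
theorem ga_sh (e : Fin 2 → LaurentSeries K) (f : MvPolynomial (Fin 3) (LaurentSeries K)) :
    ga K (sh e f) = sh (fun i => ep K * e i) (ga K f) := by
  have h : (ga K).comp (sh e) = (sh (fun i => ep K * e i)).comp (ga K) := by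
    apply MvPolynomial.algHom_ext
    intro i
    fin_cases i <;> simp [ga, sh, algebraMap_eq, mul_comm, mul_left_comm]
  exact DFunLike.congr_fun h f

theorem sh_hom {F : Type*} [Field F] (e : Fin 2 → F) {f : MvPolynomial (Fin 3) F} {k : ℕ}
    (h : f.IsHomogeneous k) : (sh e f).IsHomogeneous k := by
  have h1 := h.aeval (S := F)
    (![X 0 + C (e 0) * X 2, X 1 + C (e 1) * X 2, X 2] : Fin 3 → MvPolynomial (Fin 3) F) (n := 1) (by
    intro i
    have hc : ∀ c : F, (C c * X 2 : MvPolynomial (Fin 3) F).IsHomogeneous 1 := by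
      intro c
      have := (isHomogeneous_C (Fin 3) c).mul (isHomogeneous_X F (2 : Fin 3))
      simpa using this
    fin_cases i
    · exact (isHomogeneous_X F (0 : Fin 3)).add (hc _)
    · exact (isHomogeneous_X F (1 : Fin 3)).add (hc _)
    · exact isHomogeneous_X F (2 : Fin 3))
  rw [one_mul] at h1
  exact h1

theorem sh_vt {F : Type*} [Field F] (e p : Fin 2 → F) :
    sh e (vt p) = vt p + C (p 0 * e 0 + p 1 * e 1) * X 2 := by
  simp [sh, vt, algebraMap_eq]
  ring

theorem sh_ln {F : Type*} [Field F] (e p : Fin 2 → F) :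
    sh e (ln p) = vt p + C (1 + (p 0 * e 0 + p 1 * e 1)) * X 2 := by
  simp [sh, ln, vt, algebraMap_eq]
  ring

theorem sh_X2 {F : Type*} [Field F] (e : Fin 2 → F) : sh e (X 2) = X 2 := by
  simp [sh]

theorem sh_sh {F : Type*} [Field F] (e e' : Fin 2 → F) (f : MvPolynomial (Fin 3) F) :
    sh e (sh e' f) = sh (fun i => e i + e' i) f := by
  have h : (sh e).comp (sh e') = sh (fun i => e i + e' i) := by
    apply MvPolynomial.algHom_ext
    intro i
    fin_cases i <;> simp [sh, algebraMap_eq] <;> ring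
  exact DFunLike.congr_fun h f

theorem sh_zero {F : Type*} [Field F] (f : MvPolynomial (Fin 3) F) : sh (fun _ => 0) f = f := by
  have h : sh (fun _ => (0 : F)) = AlgHom.id F (MvPolynomial (Fin 3) F) := by
    apply MvPolynomial.algHom_ext
    intro i
    fin_cases i <;> simp [sh]
  exact DFunLike.congr_fun h f

theorem sh_bc {F : Type*} [Field F] (φ : K →+* F) (e : Fin 2 → K) (f : MvPolynomial (Fin 3) K) :
    sh (bp φ e) (bc φ f) = bc φ (sh e f) := by
  have h : ((sh (bp φ e)).toRingHom).comp (bc φ) = (bc φ).comp (sh e).toRingHom := by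
    apply MvPolynomial.ringHom_ext
    · intro r
      simp [bc, sh, algebraMap_eq]
    · intro i
      fin_cases i <;> simp [bc, sh, bp]
  exact DFunLike.congr_fun h f

theorem ap_sh {F : Type*} [Field F] {φ : K →+* F} (l : Fun φ) (e : Fin 2 → K)
    (f : MvPolynomial (Fin 3) F) : ap l (sh (bp φ e) f) = sh e (ap l f) := by
  induction f using MvPolynomial.induction_on' with
  | monomial u a =>
    have h1 : (monomial u a : MvPolynomial (Fin 3) F) = bc φ (monomial u 1) * C a := by
      rw [bc, map_monomial, map_one, mul_comm, C_mul_monomial, mul_one]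
    have h2 : ∀ x : F, ap l (C x) = C (l.l x) := by
      intro x
      ext m
      rw [coeff_ap, coeff_C, coeff_C]
      split_ifs
      · rfl
      · exact map_zero _
    rw [h1, map_mul, sh_bc, ap_bc_mul]
    have h3 : sh (bp φ e) (C a) = C a := by
      rw [← algebraMap_eq, AlgHom.commutes]
    have h4 : ∀ x : K, sh e (C x) = C x := by
      intro x
      rw [← algebraMap_eq, AlgHom.commutes]
    rw [h3, h2, ap_bc_mul, h2, map_mul, h4]
  | add p q hp hq => rw [map_add, ap_add, hp, hq, ap_add, map_add]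

/-- constant shifts commute with `ex` -/
theorem ex_sh (i : ℤ) (e : Fin 2 → K) (f : MvPolynomial (Fin 3) (LaurentSeries K)) :
    ex i (sh (bp (cl K) e) f) = sh e (ex i f) := ap_sh _ _ _

theorem od_C {a : LaurentSeries K} (h : Ox a) : Od (C a : MvPolynomial (Fin 3) _) := by
  rw [od_iff]
  intro m
  rw [coeff_C]
  split_ifs
  · exact h
  · intro i _
    rfl

theorem ex0_C (a : LaurentSeries K) : ex 0 (C a) = C (a.coeff 0) := by
  ext m
  rw [coeff_ex, coeff_C, coeff_C]
  split_ifs
  · rfl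
  · rfl

theorem ox_one : Ox (1 : LaurentSeries K) := by
  intro i hi
  rw [HahnSeries.coeff_one, if_neg (by omega)]

theorem od_bc (g : MvPolynomial (Fin 3) K) : Od (bc (cl K) g) := by
  intro i hi
  rw [ex_bc, if_neg (by omega)]

theorem bc_X' (i : Fin 3) : (X i : MvPolynomial (Fin 3) (LaurentSeries K)) = bc (cl K) (X i) := by
  rw [bc, map_X]

theorem Od.pow {f : MvPolynomial (Fin 3) (LaurentSeries K)} (hf : Od f) (n : ℕ) : Od (f ^ n) := by
  induction n with
  | zero =>
    rw [pow_zero, ← C_1]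
    exact od_C ox_one
  | succ n ih =>
    rw [pow_succ]
    exact ih.mul hf

theorem ex0_pow {f : MvPolynomial (Fin 3) (LaurentSeries K)} (hf : Od f) (n : ℕ) :
    ex 0 (f ^ n) = ex 0 f ^ n := by
  induction n with
  | zero =>
    rw [pow_zero, pow_zero, ← C_1, ex0_C, HahnSeries.coeff_one, if_pos rfl, C_1]
  | succ n ih =>
    rw [pow_succ, pow_succ, ex0_mul (hf.pow n) hf, ih]

/-- the image of a variable -/
theorem small_X (η : Fin 2 → K) (i : Fin 3) :
    Od (sh (fun i => ep K * bp (cl K) η i) (X i)) ∧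
      ex 0 (sh (fun i => ep K * bp (cl K) η i) (X i)) = X i := by
  have h1 : ∀ c : K, Ox (ep K * cl K c) := by
    intro c i hi
    have h := coeff_ep_zpow 1 i (cl K c)
    rw [zpow_one] at h
    rw [h, cl, HahnSeries.C_apply, HahnSeries.coeff_single, if_neg (by omega)]
  have h0 : ∀ c : K, (ep K * cl K c).coeff 0 = 0 := by
    intro c
    have h := coeff_ep_zpow 1 0 (cl K c)
    rw [zpow_one] at h
    rw [h, cl, HahnSeries.C_apply, HahnSeries.coeff_single, if_neg (by omega)]
  have h2 : ∀ (j : Fin 3) (c : K), Od (X j + C (ep K * cl K c) * X 2) ∧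
      ex 0 (X j + C (ep K * cl K c) * X 2) = X j := by
    intro j c
    have hX : ∀ j : Fin 3, Od (X j : MvPolynomial (Fin 3) (LaurentSeries K)) := by
      intro j
      rw [bc_X']
      exact od_bc _
    refine ⟨(hX j).add ((od_C (h1 c)).mul (hX 2)), ?_⟩
    rw [ex_add, ex0_mul (od_C (h1 c)) (hX 2), ex0_C, h0, C_0, zero_mul, add_zero, bc_X', ex_bc,
      if_pos rfl]
  fin_cases i
  · simpa [sh, bp] using h2 0 (η 0)
  · simpa [sh, bp] using h2 1 (η 1)
  · have h3 := od_bc (K := K) (X 2)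
    have h4 := ex_bc (K := K) 0 (X 2)
    rw [← bc_X'] at h3 h4
    rw [if_pos rfl] at h4
    simpa [sh] using And.intro h3 h4

theorem small_mon (η : Fin 2 → K) (u : Fin 3 →₀ ℕ) {a : LaurentSeries K} (ha : Ox a) :
    Od (sh (fun i => ep K * bp (cl K) η i) (monomial u a)) ∧
      ex 0 (sh (fun i => ep K * bp (cl K) η i) (monomial u a)) = ex 0 (monomial u a) := by
  have hC : sh (fun i => ep K * bp (cl K) η i) (C a) = C a := by
    rw [← algebraMap_eq, AlgHom.commutes]
  have hX : ∀ j : Fin 3, Od (X j : MvPolynomial (Fin 3) (LaurentSeries K)) ∧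
      ex 0 (X j : MvPolynomial (Fin 3) (LaurentSeries K)) = X j := by
    intro j
    rw [bc_X']
    exact ⟨od_bc _, by rw [ex_bc, if_pos rfl]⟩
  have s0 := small_X η 0
  have s1 := small_X η 1
  have s2 := small_X η 2
  rw [monomial_eq, Finsupp.prod_fintype _ _ (fun i => by simp), Fin.prod_univ_three]
  simp only [map_mul, map_pow, hC]
  refine ⟨(od_C ha).mul (((s0.1.pow _).mul (s1.1.pow _)).mul (s2.1.pow _)), ?_⟩
  rw [ex0_mul (od_C ha) (((s0.1.pow _).mul (s1.1.pow _)).mul (s2.1.pow _)),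
    ex0_mul ((s0.1.pow _).mul (s1.1.pow _)) (s2.1.pow _),
    ex0_mul (s0.1.pow _) (s1.1.pow _), ex0_pow s0.1, ex0_pow s1.1, ex0_pow s2.1,
    ex0_mul (od_C ha) ((((hX 0).1.pow _).mul ((hX 1).1.pow _)).mul ((hX 2).1.pow _)),
    ex0_mul (((hX 0).1.pow _).mul ((hX 1).1.pow _)) ((hX 2).1.pow _),
    ex0_mul ((hX 0).1.pow _) ((hX 1).1.pow _), ex0_pow (hX 0).1, ex0_pow (hX 1).1,
    ex0_pow (hX 2).1, s0.2, s1.2, s2.2, (hX 0).2, (hX 1).2, (hX 2).2]

theorem od_sum {ι : Type*} {s : Finset ι} {f : ι → MvPolynomial (Fin 3) (LaurentSeries K)}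
    (h : ∀ a ∈ s, Od (f a)) : Od (∑ a ∈ s, f a) := by
  intro i hi
  rw [ex_sum]
  exact Finset.sum_eq_zero fun a ha => h a ha i hi

/-- small shifts do not change the leading term -/
theorem od_sh {f : MvPolynomial (Fin 3) (LaurentSeries K)} (h : Od f) (η : Fin 2 → K) :
    Od (sh (fun i => ep K * bp (cl K) η i) f) := by
  rw [f.as_sum, map_sum]
  exact od_sum fun m _ => (small_mon η m (od_iff.mp h m)).1

theorem ex0_sh {f : MvPolynomial (Fin 3) (LaurentSeries K)} (h : Od f) (η : Fin 2 → K) :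
    ex 0 (sh (fun i => ep K * bp (cl K) η i) f) = ex 0 f := by
  conv_lhs => rw [f.as_sum, map_sum, ex_sum]
  conv_rhs => rw [f.as_sum, ex_sum]
  exact Finset.sum_congr rfl fun m _ => (small_mon η m (od_iff.mp h m)).2

/-- small shifts modulo a power of `vt P`, where `<P, η> = 0` -/
theorem ex_sh_mod {f : MvPolynomial (Fin 3) (LaurentSeries K)} (h : Od f) {P η : Fin 2 → K}
    (hη : P 0 * η 0 + P 1 * η 1 = 0) {c : ℕ} {j : ℕ}
    (hj : ∀ i : ℕ, i < j → vt P ^ c ∣ ex i f) :
    vt P ^ c ∣ ex j (sh (fun i => ep K * bp (cl K) η i) f) - ex j f := by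
  set S := sh (fun i => ep K * bp (cl K) η i) with hS
  set f1 : MvPolynomial (Fin 3) (LaurentSeries K) :=
    ∑ i ∈ Finset.range j, C (ep K ^ (i : ℤ)) * bc (cl K) (ex i f) with hf1
  have e1 : ∀ n : ℤ, ex n f1 = if 0 ≤ n ∧ n < j then ex n f else 0 := by
    intro n
    rw [hf1, ex_sum]
    split_ifs with hn
    · obtain ⟨k, rfl⟩ := Int.eq_ofNat_of_zero_le hn.1
      rw [Finset.sum_eq_single_of_mem k (Finset.mem_range.mpr (by omega))]
      · rw [ex_ep, sub_self, ex_bc, if_pos rfl]
      · intro b _ hb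
        rw [ex_ep, ex_bc, if_neg (by omega)]
    · refine Finset.sum_eq_zero fun b hb => ?_
      rw [Finset.mem_range] at hb
      rw [ex_ep, ex_bc, if_neg (by omega)]
  have e2 : ∀ n : ℤ, n < j → ex n (f - f1) = 0 := by
    intro n hn
    rw [ex_sub, e1]
    split_ifs with h'
    · rw [sub_self]
    · rw [h n (by omega), sub_zero]
  set g := C (ep K ^ (-(j : ℤ))) * (f - f1) with hg
  have hgO : Od g := by
    intro i hi
    rw [hg, ex_ep]
    exact e2 _ (by omega)
  have hfg : f - f1 = C (ep K ^ (j : ℤ)) * g := by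
    rw [hg, ← mul_assoc, ← C_mul, ← zpow_add₀ ep_ne, add_neg_cancel, zpow_zero, C_1, one_mul]
  have hSC : ∀ a : LaurentSeries K, S (C a) = C a := by
    intro a
    rw [← algebraMap_eq, AlgHom.commutes]
  have e3 : ex j (S (f - f1)) = ex j f := by
    rw [hfg, map_mul, hSC, ex_ep, sub_self, hS, ex0_sh hgO, hg, ex_ep, ex_sub, e1, if_neg (by omega),
      sub_zero]
    congr 1
    omega
  have e4 : S f = S f1 + S (f - f1) := by
    rw [← map_add]
    congr 1
    ring
  have e5 : ex j (S f) - ex j f = ex j (S f1) := by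
    rw [e4, ex_add, e3, add_sub_cancel_right]
  rw [e5]
  apply ap_dvd
  have hSv : S (vt (bp (cl K) P)) = vt (bp (cl K) P) := by
    rw [hS, sh_vt]
    have : bp (cl K) P 0 * (ep K * bp (cl K) η 0) + bp (cl K) P 1 * (ep K * bp (cl K) η 1) = 0 := by
      have h7 : (cl K) (P 0 * η 0 + P 1 * η 1) = 0 := by rw [hη, map_zero]
      rw [map_add, map_mul, map_mul] at h7
      simp only [bp]
      linear_combination (ep K) * h7
    rw [this, C_0, zero_mul, add_zero]
  rw [hf1, map_sum]
  refine Finset.dvd_sum fun i hi => ?_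
  rw [map_mul]
  refine Dvd.dvd.mul_left ?_ _
  obtain ⟨q, hq⟩ := hj i (Finset.mem_range.mp hi)
  rw [hq, map_mul, map_mul, map_pow, map_pow, bc_vt, hSv]
  exact dvd_mul_right _ _

/-- scaling a finite family -/
theorem scale {ι : Type*} (s : Finset ι) (f : ι → MvPolynomial (Fin 3) (LaurentSeries K))
    (h : ∃ i ∈ s, f i ≠ 0) : ∃ n : ℤ, (∀ i ∈ s, Od (C (ep K ^ n) * f i)) ∧
      ∃ i ∈ s, ex 0 (C (ep K ^ n) * f i) ≠ 0 := by
  classical
  obtain ⟨i1, hi1, hf1⟩ := h
  obtain ⟨m1, hm1⟩ := ne_zero_iff.mp hf1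
  set T : Finset (Σ _ : ι, (Fin 3 →₀ ℕ)) := s.sigma fun i => (f i).support with hT
  have hTn : T.Nonempty := ⟨⟨i1, m1⟩, by
    rw [hT, Finset.mem_sigma]
    exact ⟨hi1, mem_support_iff.mpr hm1⟩⟩
  obtain ⟨⟨i0, m0⟩, h0, hmin⟩ := Finset.exists_min_image T (fun q => (coeff q.2 (f q.1)).order) hTn
  rw [hT, Finset.mem_sigma] at h0
  refine ⟨-(coeff m0 (f i0)).order, ?_, i0, h0.1, ?_⟩
  · intro i hi k hk
    rw [ex_ep]
    ext m
    rw [coeff_ex, coeff_zero]
    by_cases hm : coeff m (f i) = 0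
    · rw [hm]
      rfl
    · have := hmin ⟨i, m⟩ (by
        rw [hT, Finset.mem_sigma]
        exact ⟨hi, mem_support_iff.mpr hm⟩)
      apply HahnSeries.coeff_eq_zero_of_lt_order
      simp only at this
      omega
  · rw [ex_ep]
    intro h
    have h2 : coeff m0 (ex (0 - -(coeff m0 (f i0)).order) (f i0)) = 0 := by rw [h, coeff_zero]
    rw [coeff_ex, zero_sub, neg_neg, HahnSeries.coeff_order_eq_zero] at h2
    exact (mem_support_iff.mp h0.2) h2

end Pool.Agent.SplW
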