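import Pool.Agent.Spl2.SphOrdH

/-!
# Canonical orderings with prescribed first edge (variant of `Spl2.canon_top` by helper68)
-/

set_option autoImplicit false

namespace Pool.Agent.SplW

open Finset Pool.Agent.Spl1 Pool.Agent.Spl2

variable {V : Type*} [Fintype V] [DecidableEq V]

/-- existence of canonical orderings, the last two vertices are any two vertices of the face, the first two are the ends of an edge `u0 u1` of the link
of the last vertex -/
theorem canon_bot {T : Finset (Finset V)} (h : Sph T) (hF : Fac3 T) (h4 : 4 < T.card)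
    {F₀ : Finset V} (hF₀ : F₀ ∈ T) {f0 f1 : V} (hf0 : f0 ∈ F₀) (hf1 : f1 ∈ F₀)
    (h01' : f0 ≠ f1) {u0 u1 : V} (h01 : u0 ≠ u1) (he : ({u0, u1} : Finset V) ∈ bdry (star T f0))
    (hfe : f1 ≠ u0 ∧ f1 ≠ u1) : ∃ rk : V → ℕ, Can T F₀ rk ∧ rk f0 + 1 = (uv T).card ∧
      rk f1 + 2 = (uv T).card ∧ rk u0 = 0 ∧ rk u1 = 1 := by
  classical
  obtain ⟨f2, h02', h12', hF0⟩ : ∃ f2, f0 ≠ f2 ∧ f1 ≠ f2 ∧ F₀ = {f0, f1, f2} := by
    have h3 := h.card3 F₀ hF₀
    have hsub : ({f0, f1} : Finset V) ⊆ F₀ := by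
      intro z hz
      simp only [Finset.mem_insert, Finset.mem_singleton] at hz
      rcases hz with rfl | rfl
      · exact hf0
      · exact hf1
    obtain ⟨f2, hf2⟩ : (F₀ \ {f0, f1}).Nonempty := by
      rw [← Finset.card_pos, Finset.card_sdiff_of_subset hsub, h3, Finset.card_pair h01']
      norm_num
    rw [Finset.mem_sdiff, Finset.mem_insert, Finset.mem_singleton, not_or] at hf2
    refine ⟨f2, fun h' => hf2.2.1 h'.symm, fun h' => hf2.2.2 h'.symm, ?_⟩
    symm
    apply Finset.eq_of_subset_of_card_le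
    · intro z hz
      simp only [Finset.mem_insert, Finset.mem_singleton] at hz
      rcases hz with rfl | rfl | rfl
      · exact hf0
      · exact hf1
      · exact hf2.1
    · rw [h3, Finset.card_eq_three.2 ⟨f0, f1, f2, h01', fun h' => hf2.2.1 h'.symm,
        fun h' => hf2.2.2 h'.symm, rfl⟩]
  have hf0T : f0 ∈ uv T := mem_uv_of_mem hF₀ (by rw [hF0]; simp)
  have hf1T : f1 ∈ uv T := mem_uv_of_mem hF₀ (by rw [hF0]; simp)
  have hf2T : f2 ∈ uv T := mem_uv_of_mem hF₀ (by rw [hF0]; simp)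
  have e01 : ({f0, f1} : Finset V) ∈ edges T :=
    edge_of_tri hF₀ h01' (by rw [hF0]; simp) (by rw [hF0]; simp)
  have e02 : ({f0, f2} : Finset V) ∈ edges T :=
    edge_of_tri hF₀ h02' (by rw [hF0]; simp) (by rw [hF0]; simp)
  have hst3 : ∀ t ∈ star T f0, t.card = 3 := fun t ht => h.card3 t (mem_star.1 ht).1
  have hstv : ∀ t ∈ star T f0, f0 ∈ t := fun t ht => (mem_star.1 ht).2
  have hstsub : star T f0 ⊆ T := fun t ht => (mem_star.1 ht).1
  have hI0 := h.link_irr (mem_uv.1 hf0T)
  have hdeg0 := h.four_le hF h4 (mem_uv.1 hf0T)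
  have hlk : ∀ e : Finset V, e.card = 2 → f0 ∉ e → (e ∈ bdry (star T f0) ↔ insert f0 e ∈ T) := by
    intro e he hfe
    rw [bdry_at hst3 hstv he hfe, mem_star]
    exact ⟨fun h' => h'.1, fun h' => ⟨h', Finset.mem_insert_self _ _⟩⟩
  have hf1v : f1 ∈ vx (bdry (star T f0)) := by
    refine mem_vx.2 ⟨{f1, f2}, ?_, by simp⟩
    rw [hlk _ (Finset.card_pair h12') (by simp [h01', h02'])]
    rw [← hF0]
    exact hF₀
  obtain ⟨D0, hD0⟩ : ∃ D0, D0 = T \ star T f0 := ⟨_, rfl⟩
  have hb0 : bdry D0 = bdry (star T f0) := by rw [hD0, h.bdry_compl hstsub]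
  have memD0 : ∀ t, t ∈ D0 ↔ t ∈ T ∧ f0 ∉ t := by
    intro t
    rw [hD0, Finset.mem_sdiff, mem_star]
    tauto
  have huv0 : uv D0 = (uv T).erase f0 := by
    ext x
    rw [Finset.mem_erase]
    constructor
    · intro hx
      obtain ⟨t, ht⟩ := mem_uv.1 hx
      rw [mem_star, memD0] at ht
      refine ⟨?_, mem_uv_of_mem ht.1.1 ht.2⟩
      rintro rfl
      exact ht.1.2 ht.2
    · rintro ⟨hxf, hx⟩
      obtain ⟨t, ht, hxt, hft⟩ := h.vdeg_ge hx f0 hxf
      exact mem_uv_of_mem ((memD0 t).2 ⟨ht, hft⟩) hxt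
  have hS0 : Sta T D0 u0 u1 := by
    refine ⟨fun t ht => ((memD0 t).1 ht).1, by rw [hb0]; exact hI0, by rw [hb0]; exact he, ?_,
      ⟨f0, hf0T, ?_⟩⟩
    · intro e' he' heu
      have hfe' : f0 ∉ e' := by
        intro h'
        have := heu h'
        rw [huv0] at this
        simp at this
      have hc := (mem_edges.1 he').1
      obtain ⟨t1, ht1, t2, ht2, h12, het1, het2, -⟩ := h.two_tri he'
      rw [mem_edges]
      refine ⟨hc, ?_⟩
      by_cases hv1 : f0 ∈ t1
      · refine ⟨t2, (memD0 t2).2 ⟨ht2, ?_⟩, het2⟩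
        intro hv2
        apply h12
        rw [tri_eq (h.card3 t1 ht1) hc het1 hv1 hfe', tri_eq (h.card3 t2 ht2) hc het2 hv2 hfe']
      · exact ⟨t1, (memD0 t1).2 ⟨ht1, hv1⟩, het1⟩
    · rw [huv0]; simp
  have hc1 : Chl D0 f1 := by
    intro w hw hwv
    rw [hb0] at hwv ⊢
    have hwE := edges_mono hS0.sub hw
    have hf1w : f1 ≠ w := edge_ne hw
    obtain ⟨e', he', hwe'⟩ := mem_vx.1 hwv
    have hfe' : f0 ∉ e' := by
      intro h'
      obtain ⟨t, ht, het⟩ := in_tri (hb0 ▸ he' : e' ∈ bdry D0)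
      exact ((memD0 t).1 ht).2 (het h')
    have hT := (hlk e' (hI0.cyc.1 e' he') hfe').1 he'
    have hf0w : f0 ≠ w := fun h' => hfe' (h' ▸ hwe')
    have e0w : ({f0, w} : Finset V) ∈ edges T := edge_of_tri hT hf0w (by simp)
      (Finset.mem_insert_of_mem hwe')
    have htri := hF f0 f1 w h01' hf1w hf0w e01 hwE e0w
    rw [hlk _ (Finset.card_pair hf1w) (by simp [h01', hf0w])]
    exact htri
  have hD0c : 2 ≤ D0.card := by
    by_contra hcon
    obtain ⟨t, ht, -⟩ := in_tri hS0.hb
    have hpos : 0 < D0.card := Finset.card_pos.2 ⟨t, ht⟩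
    obtain ⟨s, hs⟩ := Finset.card_eq_one.1 (show D0.card = 1 by omega)
    have hsT : s ∈ D0 := by rw [hs]; simp
    have h3 := h.card3 s ((memD0 s).1 hsT).1
    have h5 : bdry D0 ⊆ s.powersetCard 2 := by
      intro e' he'
      rw [hs, mem_bdry_single h3] at he'
      rw [Finset.mem_powersetCard]
      exact ⟨he'.2, he'.1⟩
    have h6 := Finset.card_le_card h5
    rw [Finset.card_powersetCard, h3, hb0, h.star_of_bdry f0] at h6
    have : Nat.choose 3 2 = 3 := rfl
    omega
  obtain ⟨hS1, huv1⟩ := hS0.remove h (by rw [hb0]; exact hf1v) hc1 hfe.1 hfe.2 hD0c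
  obtain ⟨D1, hD1⟩ : ∃ D1, D1 = D0.filter (fun t => f1 ∉ t) := ⟨_, rfl⟩
  rw [← hD1] at hS1 huv1
  have memU : ∀ x, x ∈ uv D1 ↔ x ∈ uv T ∧ x ≠ f0 ∧ x ≠ f1 := by
    intro x
    rw [huv1, Finset.mem_erase, huv0, Finset.mem_erase]
    tauto
  have hN : (uv D1).card + 2 = (uv T).card := by
    have h5 : f1 ∈ uv D0 := by rw [huv0]; exact Finset.mem_erase.2 ⟨h01'.symm, hf1T⟩
    have h6 : 0 < (uv D0).card := Finset.card_pos.2 ⟨f1, h5⟩
    have h7 : 0 < (uv T).card := Finset.card_pos.2 ⟨f0, hf0T⟩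
    have h8 : (uv D0).card = (uv T).card - 1 := by rw [huv0, Finset.card_erase_of_mem hf0T]
    rw [huv1, Finset.card_erase_of_mem h5]
    omega
  obtain ⟨rk, hinj, hlt, hr0, hr1, hlow, hup⟩ := Sta.order h hF h4 h01 _ D1 le_rfl hS1 (by
    intro r
    by_cases hr : f0 = r
    · refine ⟨f1, by rw [← hr]; exact h01'.symm, hf1T, ?_⟩
      rw [memU]; tauto
    · refine ⟨f0, hr, hf0T, ?_⟩
      rw [memU]; tauto)
  have hu0D : u0 ∈ uv D1 := vx_uv (T := T) (mem_vx.2 ⟨_, hS1.hb, by simp⟩)
  have hu1D : u1 ∈ uv D1 := vx_uv (T := T) (mem_vx.2 ⟨_, hS1.hb, by simp⟩)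
  have hu0T := (memU u0).1 hu0D
  have hu1T := (memU u1).1 hu1D
  obtain ⟨R, hR⟩ : ∃ R : V → ℕ, R = fun x => if x = f0 then (uv D1).card + 1 else
    if x = f1 then (uv D1).card else rk x := ⟨_, rfl⟩
  have R0 : R f0 = (uv D1).card + 1 := by rw [hR]; simp
  have R1 : R f1 = (uv D1).card := by rw [hR]; simp [h01'.symm]
  have RD : ∀ x ∈ uv D1, R x = rk x := by
    intro x hx
    have := (memU x).1 hx
    rw [hR]
    simp [this.2.1, this.2.2]
  have Rlt : ∀ x ∈ uv D1, R x < (uv D1).card := by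
    intro x hx
    rw [RD x hx]
    exact hlt x hx
  have cases3 : ∀ x ∈ uv T, x = f0 ∨ x = f1 ∨ x ∈ uv D1 := by
    intro x hx
    by_cases h5 : x = f0
    · exact Or.inl h5
    · by_cases h6 : x = f1
      · exact Or.inr (Or.inl h6)
      · exact Or.inr (Or.inr ((memU x).2 ⟨hx, h5, h6⟩))
  have nbT : ∀ {x y : V}, ({x, y} : Finset V) ∈ edges T → y ∈ uv T := by
    intro x y hxy
    obtain ⟨-, t, ht, het⟩ := mem_edges.1 hxy
    exact mem_uv_of_mem ht (het (by simp))
  refine ⟨R, ⟨?_, ?_, ?_, ?_, ?_, ?_⟩, by rw [R0]; omega, by rw [R1]; omega,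
    by rw [RD u0 hu0D]; exact hr0, by rw [RD u1 hu1D]; exact hr1⟩
  · intro x hx y hy hxy
    rcases cases3 x hx with rfl | rfl | hx' <;> rcases cases3 y hy with rfl | rfl | hy'
    · rfl
    · rw [R0, R1] at hxy; omega
    · have := Rlt y hy'; rw [R0] at hxy; omega
    · rw [R0, R1] at hxy; omega
    · rfl
    · have := Rlt y hy'; rw [R1] at hxy; omega
    · have := Rlt x hx'; rw [R0] at hxy; omega
    · have := Rlt x hx'; rw [R1] at hxy; omega
    · rw [RD x hx', RD y hy'] at hxy
      exact hinj x hx' y hy' hxy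
  · intro x hx
    rcases cases3 x hx with rfl | rfl | hx'
    · rw [R0]; omega
    · rw [R1]; omega
    · have := Rlt x hx'; omega
  · intro x hx h2
    rcases cases3 x hx with rfl | rfl | hx'
    · obtain ⟨y, z, hyz, hyA, hzA, hey, hez⟩ := h.two_nb hF h4 hx ∅ (by simp)
      refine ⟨y, z, hyz, hey, hez, ?_, ?_⟩
      · rcases cases3 y (nbT hey) with rfl | rfl | hy'
        · exact absurd rfl (edge_ne hey)
        · rw [R0, R1]; omega
        · have := Rlt y hy'; rw [R0]; omega
      · rcases cases3 z (nbT hez) with rfl | rfl | hz'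
        · exact absurd rfl (edge_ne hez)
        · rw [R0, R1]; omega
        · have := Rlt z hz'; rw [R0]; omega
    · obtain ⟨y, z, hyz, hyA, hzA, hey, hez⟩ := h.two_nb hF h4 hx {f0} (by simp)
      rw [Finset.mem_singleton] at hyA hzA
      refine ⟨y, z, hyz, hey, hez, ?_, ?_⟩
      · rcases cases3 y (nbT hey) with h5 | h5 | hy'
        · exact absurd h5 hyA
        · exact absurd h5.symm (edge_ne hey)
        · have := Rlt y hy'; rw [R1]; omega
      · rcases cases3 z (nbT hez) with h5 | h5 | hz'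
        · exact absurd h5 hzA
        · exact absurd h5.symm (edge_ne hez)
        · have := Rlt z hz'; rw [R1]; omega
    · rw [RD x hx'] at h2
      obtain ⟨y, hy, z, hz, hyz, hey, hez, hry, hrz⟩ := hlow x hx' (by rintro rfl; omega)
        (by rintro rfl; omega)
      refine ⟨y, z, hyz, hey, hez, ?_, ?_⟩
      · rw [RD x hx', RD y hy]; exact hry
      · rw [RD x hx', RD z hz]; exact hrz
  · intro x hx h3
    rcases cases3 x hx with rfl | rfl | hx'
    · rw [R0] at h3; omega
    · rw [R1] at h3; omega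
    · have hxl := Rlt x hx'
      by_cases hx0 : x = u0
      · subst hx0
        obtain ⟨y, z, hyz, hyA, hzA, hey, hez⟩ := h.two_nb hF h4 hx ∅ (by simp)
        have key : ∀ y, ({x, y} : Finset V) ∈ edges T → R x < R y := by
          intro y hey
          rcases cases3 y (nbT hey) with rfl | rfl | hy'
          · rw [R0]; omega
          · rw [R1]; omega
          · rw [RD x hx', RD y hy', hr0]
            by_contra hcon
            exact edge_ne hey (hinj x hx' y hy' (by omega))
        exact ⟨y, z, hyz, hey, hez, key y hey, key z hez⟩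
      · by_cases hx1 : x = u1
        · subst hx1
          obtain ⟨y, z, hyz, hyA, hzA, hey, hez⟩ := h.two_nb hF h4 hx {u0} (by simp)
          rw [Finset.mem_singleton] at hyA hzA
          have key : ∀ y, y ≠ u0 → ({x, y} : Finset V) ∈ edges T → R x < R y := by
            intro y hy0 hey
            rcases cases3 y (nbT hey) with rfl | rfl | hy'
            · rw [R0]; omega
            · rw [R1]; omega
            · rw [RD x hx', RD y hy', hr1]
              by_contra hcon
              have h5 : rk y = 0 ∨ rk y = 1 := by omega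
              rcases h5 with h5 | h5
              · exact hy0 (hinj y hy' u0 hu0D (by omega))
              · exact edge_ne hey (hinj x hx' y hy' (by omega))
          exact ⟨y, z, hyz, hey, hez, key y hyA hey, key z hzA hez⟩
        · obtain ⟨y, z, hyz, hey, hez, hry, hrz⟩ := hup x hx' hx0 hx1
          have key : ∀ y, (y ∈ uv D1 → rk x < rk y) → ({x, y} : Finset V) ∈ edges T →
              R x < R y := by
            intro y hry hey
            rcases cases3 y (nbT hey) with rfl | rfl | hy'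
            · rw [R0]; omega
            · rw [R1]; omega
            · rw [RD x hx', RD y hy']; exact hry hy'
          exact ⟨y, z, hyz, hey, hez, key y hry hey, key z hrz hez⟩
  · intro x hx y hy h5 h6
    have hxu : x = u0 := by
      rcases cases3 x hx with rfl | rfl | hx'
      · rw [R0] at h5; omega
      · rw [R1] at h5
        have := Rlt u0 hu0D
        omega
      · rw [RD x hx'] at h5
        exact hinj x hx' u0 hu0D (by omega)
    have hyu : y = u1 := by
      rcases cases3 y hy with rfl | rfl | hy'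
      · rw [R0] at h6
        have := Rlt u0 hu0D
        omega
      · rw [R1] at h6
        have := Rlt u1 hu1D
        rw [RD u1 hu1D] at this
        omega
      · rw [RD y hy'] at h6
        exact hinj y hy' u1 hu1D (by omega)
    rw [hxu, hyu]
    exact bdry_subset_edges hS1.sub hS1.hb
  · intro x hx h5
    rcases cases3 x hx with rfl | rfl | hx'
    · rw [hF0]; simp
    · rw [hF0]; simp
    · have := Rlt x hx'
      omega


end Pool.Agent.SplW
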