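import Pool.Agent.SplW.Stat
import Pool.Agent.Spl2.BrMat

/-!
# Module SE: semicontinuity of the pair problem

PAPER PROOF of `pair_semi`.  `k = 2 ρ - 1`, `T = W + 1`.
(0) REDUCTION to a square-free linear system: unknowns `x = (coefficients of M₁, M₂ at the monomials of degree k with m 2 ≤ W; zc (l,n), l < T, n < W, ρ ≤ l + n;
ze (l,n), l < T, n < W)`, `Zc = ∑ zc (l,n) vt c ^ l X 2 ^ n z ^ (k-l-n)`, `Ze = ∑ ze (l,n) vt e ^ l X 2 ^ n z' ^ (k-l-n)` with `z, z' ∈ {X 0, X 1}` independent of `vt c`,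
`vt e` (choose them at `ψ`).  CLAIM over a field, if `dt d₁ b, dt d₁ d₂, dt d₁ e, dt d₂ c, dt d₂ e ≠ 0`, `dt d₁ e ≠ dt d₂ e` and `det (z, vt c) ≠ 0`, `det (z', vt e) ≠ 0`:
`Pair` holds iff the seven conditions (`M₁, M₂` type 1; `M₁` at `b`; `M₁ - M₂`; `M₂ - Zc`; `M₁ - Ze`, `M₂ - Ze`) have only the solution `x = 0`.  (=>) `Pair` gives
`ln dᵢ ^ T ∣ Mᵢ`, `degreeOf 2 Mᵢ ≤ W`, so `Mᵢ = 0` (`degreeOf` is additive); then `Ze` is in both ideals at `e`: `stat_c` gives `vt e ^ T ∣ Ze`, and `Zc` is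
in `J (ln d₂) (vt c)` and of type 1: `stat_b`; the monomials `vt e ^ l X 2 ^ n z' ^ m` with `l < T` are independent modulo `vt e ^ T`.  (<=) replace `Mᵢ` by the
remainder modulo `ln dᵢ ^ T` (all conditions are modulo `ln dᵢ ^ T`), and `Zc`, `Ze` by their parts of degree `< T` in `vt c`, `vt e`.
(1) Over a commutative ring: membership of a form of degree `k` in `J ρ a b x y` (`x`, `y`, `z` linear forms with invertible determinant) is the vanishing of the
coefficients `(i, j, k-i-j)`, `i + j < ρ`, `i < a`, `j < b`, after the substitution by the ADJUGATE matrix of `(x, y, z)` (as `adp`, `edge_mem`, `SplG/Ideal.lean`); third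
forms: `X 2` for the pairs (`ln d`, `vt b`), (`ln d₁`, `ln d₂`), and `X 0` or `X 1` for (`ln d`, `X 2`).  So the system is `A x = 0` with a matrix `A` over `R`, compatible
with ring homomorphisms (`BrSemi.lean` is a model).
(2) `A.map ψ` has trivial kernel, so a maximal minor is not zero at `ψ`; `q` = this minor times `dt d₁ b * dt d₁ d₂ * dt d₁ e * dt d₂ c * dt d₂ e * (dt d₁ e - dt d₂ e)`
`* det (z, vt c) * det (z', vt e) * (the determinants of the frames of (ln dᵢ, X 2))`.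
-/

set_option autoImplicit false

namespace Pool.Agent.SplW

open MvPolynomial

section lin

variable {R : Type*} [CommRing R]

/-- a linear form -/
private noncomputable def lf (u : Fin 3 → R) : MvPolynomial (Fin 3) R := ∑ i, C (u i) * X i

/-- a linear substitution -/
private noncomputable def sb (M : Matrix (Fin 3) (Fin 3) R) :
    MvPolynomial (Fin 3) R →ₐ[R] MvPolynomial (Fin 3) R :=
  aeval fun i => lf (M i)

private theorem lf_hom (u : Fin 3 → R) : (lf u).IsHomogeneous 1 :=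
  IsHomogeneous.sum _ _ _ fun _ _ => isHomogeneous_C_mul_X _ _

private theorem lf_smul (a : R) (u : Fin 3 → R) : lf (a • u) = C a * lf u := by
  unfold lf
  rw [Finset.mul_sum]
  refine Finset.sum_congr rfl fun i _ => ?_
  rw [Pi.smul_apply, smul_eq_mul, C_mul, mul_assoc]

private theorem sb_lf (M : Matrix (Fin 3) (Fin 3) R) (u : Fin 3 → R) :
    sb M (lf u) = lf (Matrix.vecMul u M) := by
  unfold lf sb
  simp only [map_mul, algHom_C, algebraMap_eq, aeval_X, Matrix.vecMul, dotProduct, lf,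
    Fin.sum_univ_three, map_add]
  ring

private theorem sb_sb (M N : Matrix (Fin 3) (Fin 3) R) (f : MvPolynomial (Fin 3) R) :
    sb N (sb M f) = sb (M * N) f := by
  have h : (sb N).comp (sb M) = sb (M * N) := by
    apply MvPolynomial.algHom_ext
    intro i
    rw [AlgHom.comp_apply]
    have h1 : sb M (X i) = lf (M i) := aeval_X _ _
    have h2 : sb (M * N) (X i) = lf ((M * N) i) := aeval_X _ _
    rw [h1, h2, sb_lf]
    rfl
  exact DFunLike.congr_fun h f

private theorem sb_one (f : MvPolynomial (Fin 3) R) : sb (1 : Matrix (Fin 3) (Fin 3) R) f = f := by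
  have h : sb (1 : Matrix (Fin 3) (Fin 3) R) = AlgHom.id R _ := by
    apply MvPolynomial.algHom_ext
    intro i
    have h1 : sb (1 : Matrix (Fin 3) (Fin 3) R) (X i) = lf ((1 : Matrix (Fin 3) (Fin 3) R) i) :=
      aeval_X _ _
    rw [h1]
    unfold lf
    simp only [AlgHom.id_apply, Matrix.one_apply]
    rw [Finset.sum_eq_single i]
    · rw [if_pos rfl, C_1, one_mul]
    · intro j _ hj
      rw [if_neg (Ne.symm hj), C_0, zero_mul]
    · intro hi
      exact absurd (Finset.mem_univ i) hi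
  rw [h]
  rfl

private theorem sb_hom (M : Matrix (Fin 3) (Fin 3) R) {f : MvPolynomial (Fin 3) R} {k : ℕ}
    (hf : f.IsHomogeneous k) : (sb M f).IsHomogeneous k := by
  have h := hf.aeval (fun i => lf (M i)) (fun i => lf_hom _)
  rw [one_mul] at h
  exact h

private theorem map_sb {S : Type*} [CommRing S] (φ : R →+* S) (M : Matrix (Fin 3) (Fin 3) R)
    (f : MvPolynomial (Fin 3) R) : map φ (sb M f) = sb (M.map φ) (map φ f) := by
  have h : (map φ).comp (sb M).toRingHom = ((sb (M.map φ)).toRingHom).comp (map φ) := by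
    apply MvPolynomial.ringHom_ext
    · intro a
      simp [sb]
    · intro i
      simp [sb, lf]
  exact RingHom.congr_fun h f

end lin

section fld

variable {K : Type*} [Field K]

private theorem J_iff {ρ a b k : ℕ} {L : Matrix (Fin 3) (Fin 3) K} (hL : L.det ≠ 0)
    {f : MvPolynomial (Fin 3) K} (hf : f.IsHomogeneous k) :
    (∀ i j, i + j < ρ → i < a → j < b →
        coeff (Spl2.ex3 i j (k - i - j)) (sb L.adjugate f) = 0) ↔
      f ∈ J ρ a b (lf (L 0)) (lf (L 1)) := by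
  have hg := sb_hom L.adjugate hf
  have h1 : (∀ i j, i + j < ρ → i < a → j < b →
      coeff (Spl2.ex3 i j (k - i - j)) (sb L.adjugate f) = 0) ↔
      sb L.adjugate f ∈ SplG.mI K 0 1 ρ a b := by
    rw [SplG.mem_mI]
    constructor
    · intro h1 m h2 h3 h4
      by_contra h5
      have h6 : m 0 + m 1 + m 2 = k := by
        have h7 := hg h5
        rw [← h7, Finsupp.weight_apply, Finsupp.sum_fintype _ _ (by simp), Fin.sum_univ_three]
        simp
      have h7 := h1 (m 0) (m 1) h2 h3 h4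
      rw [show k - m 0 - m 1 = m 2 by omega, ← SplG.eq_ex3] at h7
      exact h5 h7
    · intro h1 i j h2 h3 h4
      exact h1 _ h2 h3 h4
  rw [h1]
  have hadj : ∀ i, sb L.adjugate (lf (L i)) = C L.det * X i := by
    intro i
    rw [sb_lf]
    have h2 : Matrix.vecMul (L i) L.adjugate = (L * L.adjugate) i := rfl
    rw [h2, Matrix.mul_adjugate]
    have h3 : (L.det • (1 : Matrix (Fin 3) (Fin 3) K)) i = L.det • (1 : Matrix (Fin 3) (Fin 3) K) i :=
      rfl
    rw [h3, lf_smul]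
    have h4 := sb_one (R := K) (X i)
    have h5 : sb (1 : Matrix (Fin 3) (Fin 3) K) (X i) = lf ((1 : Matrix (Fin 3) (Fin 3) K) i) :=
      aeval_X _ _
    rw [← h5, h4]
  constructor
  · intro h
    have h2 : sb (L.det⁻¹ • L) (sb L.adjugate f) = f := by
      rw [sb_sb, Matrix.mul_smul, Matrix.adjugate_mul, smul_smul, inv_mul_cancel₀ hL, one_smul,
        sb_one]
    have h3 : sb (L.det⁻¹ • L) (sb L.adjugate f) ∈
        (SplG.mI K 0 1 ρ a b).map (sb (L.det⁻¹ • L)) := Ideal.mem_map_of_mem _ h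
    rw [h2] at h3
    have h4 : (SplG.mI K 0 1 ρ a b).map (sb (L.det⁻¹ • L)) ≤ J ρ a b (lf (L 0)) (lf (L 1)) := by
      unfold SplG.mI
      rw [Ideal.map_span, Ideal.span_le]
      rintro _ ⟨_, ⟨m, hm, rfl⟩, rfl⟩
      have h5 : sb (L.det⁻¹ • L) (monomial m 1) = lf (L 0) ^ (m 0) * lf (L 1) ^ (m 1) *
          (C L.det⁻¹ ^ (m 0) * C L.det⁻¹ ^ (m 1) * (C L.det⁻¹ * lf (L 2)) ^ (m 2)) := by
        have h6 : ∀ i, lf ((L.det⁻¹ • L) i) = C L.det⁻¹ * lf (L i) := fun i => lf_smul _ _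
        unfold sb
        rw [aeval_monomial, Finsupp.prod_fintype _ _ (by simp), Fin.prod_univ_three, map_one,
          h6, h6, h6]
        ring
      show sb (L.det⁻¹ • L) (monomial m 1) ∈ J ρ a b (lf (L 0)) (lf (L 1))
      rw [h5]
      apply Ideal.mul_mem_right
      unfold J
      rcases hm with hm | hm | hm
      · exact Ideal.mem_sup_left (SplG.mem_pow_of hm)
      · apply Ideal.mem_sup_right
        apply Ideal.mem_sup_left
        apply Ideal.mul_mem_right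
        exact Ideal.mem_span_singleton.2 (pow_dvd_pow _ hm)
      · apply Ideal.mem_sup_right
        apply Ideal.mem_sup_right
        apply Ideal.mul_mem_left
        exact Ideal.mem_span_singleton.2 (pow_dvd_pow _ hm)
    exact h4 h3
  · intro h
    have h2 : sb L.adjugate f ∈ (J ρ a b (lf (L 0)) (lf (L 1))).map (sb L.adjugate) :=
      Ideal.mem_map_of_mem _ h
    have hu : X 0 ∣ sb L.adjugate (lf (L 0)) := by
      rw [hadj]
      exact dvd_mul_left _ _
    have hv : X 1 ∣ sb L.adjugate (lf (L 1)) := by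
      rw [hadj]
      exact dvd_mul_left _ _
    have h3 : (J ρ a b (lf (L 0)) (lf (L 1))).map (sb L.adjugate) ≤ SplG.mI K 0 1 ρ a b := by
      unfold J
      rw [Ideal.map_sup, Ideal.map_sup, Ideal.map_pow]
      refine sup_le ?_ (sup_le ?_ ?_)
      · refine le_trans (Ideal.pow_right_mono ?_ ρ) (SplG.pow_le_mI (by decide) ρ a b)
        rw [Ideal.map_span, Ideal.span_le]
        rintro _ ⟨g, hg, rfl⟩
        simp only [Set.mem_insert_iff, Set.mem_singleton_iff] at hg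
        rcases hg with rfl | rfl
        · exact Ideal.mem_of_dvd _ hu (Ideal.subset_span (by simp))
        · exact Ideal.mem_of_dvd _ hv (Ideal.subset_span (by simp))
      · rw [Ideal.map_span, Ideal.span_le]
        rintro _ ⟨g, hg, rfl⟩
        rw [Set.mem_singleton_iff] at hg
        subst hg
        rw [map_pow]
        exact Ideal.mem_of_dvd _ (pow_dvd_pow_of_dvd hu a) (SplG.X_mem_left ρ a b)
      · rw [Ideal.map_span, Ideal.span_le]
        rintro _ ⟨g, hg, rfl⟩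
        rw [Set.mem_singleton_iff] at hg
        subst hg
        rw [map_pow]
        exact Ideal.mem_of_dvd _ (pow_dvd_pow_of_dvd hv b) (SplG.X_mem_right ρ a b)
    exact h3 h2

private theorem lf_ne {L : Matrix (Fin 3) (Fin 3) K} (hL : L.det ≠ 0) (i : Fin 3) :
    lf (L i) ≠ 0 := by
  intro h0
  have h1 : sb L.adjugate (lf (L i)) = C L.det * X i := by
    rw [sb_lf]
    have h2 : Matrix.vecMul (L i) L.adjugate = (L * L.adjugate) i := rfl
    rw [h2, Matrix.mul_adjugate]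
    have h3 : (L.det • (1 : Matrix (Fin 3) (Fin 3) K)) i = L.det • (1 : Matrix (Fin 3) (Fin 3) K) i :=
      rfl
    rw [h3, lf_smul]
    have h4 := sb_one (R := K) (X i)
    have h5 : sb (1 : Matrix (Fin 3) (Fin 3) K) (X i) = lf ((1 : Matrix (Fin 3) (Fin 3) K) i) :=
      aeval_X _ _
    rw [← h5, h4]
  rw [h0, map_zero] at h1
  rcases mul_eq_zero.1 h1.symm with h2 | h2
  · exact hL (C_eq_zero.1 h2)
  · exact X_ne_zero i h2

/-- quotients of homogeneous forms -/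
private theorem hom_quot {l f g : MvPolynomial (Fin 3) K} {t k : ℕ} (hl : l.IsHomogeneous t)
    (hf : f.IsHomogeneous k) (htk : t ≤ k) (h : f = l * g) :
    f = l * homogeneousComponent (k - t) g := by
  let _ := MvPolynomial.gradedAlgebra (R := K) (σ := Fin 3)
  have h1 := DirectSum.coe_decompose_mul_of_left_mem_of_le (𝒜 := homogeneousSubmodule (Fin 3) K)
    (a := l) (b := g) ((mem_homogeneousSubmodule t l).2 hl) htk
  have h2 : (DirectSum.decompose (homogeneousSubmodule (Fin 3) K) (l * g) k :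
      MvPolynomial (Fin 3) K) = homogeneousComponent k (l * g) :=
    decomposition.decompose'_apply (l * g) k
  have h3 : (DirectSum.decompose (homogeneousSubmodule (Fin 3) K) g (k - t) :
      MvPolynomial (Fin 3) K) = homogeneousComponent (k - t) g :=
    decomposition.decompose'_apply g (k - t)
  rw [h2, h3, ← h, homogeneousComponent_eq_self hf] at h1
  exact h1

end fld


section mats

/-- a matrix over a commutative ring: the dimension of the kernel is semicontinuous -/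
private theorem ker_semi {U Y : Type} [Fintype U] [Fintype Y] [DecidableEq U] [DecidableEq Y]
    {R : Type*} [CommRing R] (A : Matrix Y U R) {F : Type*} [Field F] (ψ : R →+* F) :
    ∃ q : R, ψ q ≠ 0 ∧ ∀ (K : Type) [Field K] (χ : R →+* K), χ q ≠ 0 →
      Module.finrank K (LinearMap.ker (A.map χ).mulVecLin) ≤
        Module.finrank F (LinearMap.ker (A.map ψ).mulVecLin) := by
  obtain ⟨f, g, hfg⟩ := Spl2.exists_minor (A.map ψ)
  have hdet : ∀ {S : Type _} [CommRing S] (φ : R →+* S),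
      ((A.map φ).submatrix f g).det = φ (A.submatrix f g).det := by
    intro S _ φ
    rw [RingHom.map_det]
    rfl
  refine ⟨(A.submatrix f g).det, ?_, ?_⟩
  · rw [← hdet]
    exact hfg
  · intro K _ χ hχ
    have h1 : (A.map ψ).rank ≤ (A.map χ).rank := by
      apply Spl2.le_rank_of_minor _ _ f g
      rw [RingHom.map_det] at hχ
      exact hχ
    have h2 := LinearMap.finrank_range_add_finrank_ker (A.map ψ).mulVecLin
    have h3 := LinearMap.finrank_range_add_finrank_ker (A.map χ).mulVecLin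
    rw [Module.finrank_fintype_fun_eq_card] at h2 h3
    unfold Matrix.rank at h1
    omega

/-- a matrix over a commutative ring with trivial kernel after `ψ` has a minor with this property for all homomorphisms -/
theorem minor_semi {U Y : Type} [Fintype U] [Fintype Y] [DecidableEq U] [DecidableEq Y]
    {R : Type*} [CommRing R] (A : Matrix Y U R) {F : Type*} [Field F] (ψ : R →+* F)
    (h : ∀ x : U → F, (A.map ψ).mulVec x = 0 → x = 0) :
    ∃ q : R, ψ q ≠ 0 ∧ ∀ (K : Type) [Field K] (χ : R →+* K), χ q ≠ 0 →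
      ∀ x : U → K, (A.map χ).mulVec x = 0 → x = 0 := by
  obtain ⟨q, hq, hq2⟩ := ker_semi A ψ
  refine ⟨q, hq, fun K _ χ hχ x hx => ?_⟩
  have h1 : LinearMap.ker (A.map ψ).mulVecLin = ⊥ := by
    rw [Submodule.eq_bot_iff]
    intro y hy
    exact h y (by simpa using hy)
  have h2 := hq2 K χ hχ
  rw [h1, finrank_bot, Nat.le_zero, Submodule.finrank_eq_zero] at h2
  have h3 : x ∈ LinearMap.ker (A.map χ).mulVecLin := by
    rw [LinearMap.mem_ker, Matrix.mulVecLin_apply]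
    exact hx
  rw [h2] at h3
  exact (Submodule.mem_bot K).1 h3

private abbrev Mon (k : ℕ) : Type :=
  ↥(Finset.finsuppAntidiag (Finset.univ : Finset (Fin 3)) k)

private theorem mon_degree {k : ℕ} (m : Mon k) : (m : Fin 3 →₀ ℕ).degree = k := by
  have h := (Finset.mem_finsuppAntidiag.1 m.2).1
  rw [Finsupp.degree_eq_sum]
  exact h

private theorem mem_mon {k : ℕ} {n : Fin 3 →₀ ℕ} (h : n.degree = k) :
    n ∈ Finset.finsuppAntidiag (Finset.univ : Finset (Fin 3)) k := by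
  rw [Finset.mem_finsuppAntidiag]
  rw [Finsupp.degree_eq_sum] at h
  exact ⟨h, Finset.subset_univ _⟩

/-- the unknown coefficients of the four forms `M₁, M₂, Zc, Ze` -/
private abbrev Col (k W : ℕ) : Type :=
  {c : Fin 4 × Mon k // (2 : ℕ) ≤ (c.1 : ℕ) → (c.2 : Fin 3 →₀ ℕ) 2 < W}

/-- The family of forms with given coefficients. -/
private noncomputable def PP {K : Type*} [Field K] {k W : ℕ} :
    (Col k W → K) →ₗ[K] (Fin 4 → MvPolynomial (Fin 3) K) where
  toFun x v := ∑ c : Col k W, if c.1.1 = v then monomial (c.1.2 : Fin 3 →₀ ℕ) (x c) else 0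
  map_add' x y := by
    funext v
    rw [Pi.add_apply, ← Finset.sum_add_distrib]
    refine Finset.sum_congr rfl fun c _ => ?_
    split_ifs
    · rw [Pi.add_apply, map_add]
    · rw [add_zero]
  map_smul' a x := by
    funext v
    rw [RingHom.id_apply, Pi.smul_apply, Finset.smul_sum]
    refine Finset.sum_congr rfl fun c _ => ?_
    split_ifs
    · rw [Pi.smul_apply, map_smul]
    · rw [smul_zero]

variable {K : Type*} [Field K] {k W : ℕ}

private theorem PP_apply (x : Col k W → K) (v : Fin 4) : PP x v =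
    ∑ c : Col k W, if c.1.1 = v then monomial (c.1.2 : Fin 3 →₀ ℕ) (x c) else 0 := rfl

private theorem coeff_PP (x : Col k W → K) (c : Col k W) :
    coeff (c.1.2 : Fin 3 →₀ ℕ) (PP x c.1.1) = x c := by
  rw [PP_apply, coeff_sum, Finset.sum_eq_single c]
  · rw [if_pos rfl, coeff_monomial, if_pos rfl]
  · intro c' _ hc
    split_ifs with h
    · rw [coeff_monomial, if_neg]
      intro h2
      exact hc (Subtype.ext (Prod.ext h (Subtype.ext h2)))
    · rw [coeff_zero]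
  · intro h
    exact absurd (Finset.mem_univ _) h

private theorem PP_hom (x : Col k W → K) (v : Fin 4) : (PP x v).IsHomogeneous k := by
  rw [PP_apply]
  refine IsHomogeneous.sum _ _ _ fun c _ => ?_
  split_ifs
  · exact isHomogeneous_monomial _ (mon_degree c.1.2)
  · exact isHomogeneous_zero _ _ _

private theorem PP_off (x : Col k W → K) {v : Fin 4} (hv : 2 ≤ (v : ℕ)) {m : Fin 3 →₀ ℕ}
    (hm : W ≤ m 2) : coeff m (PP x v) = 0 := by
  rw [PP_apply, coeff_sum]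
  refine Finset.sum_eq_zero fun c _ => ?_
  split_ifs with h
  · rw [coeff_monomial, if_neg]
    rintro rfl
    have := c.2 (by rw [h]; exact hv)
    omega
  · exact coeff_zero _

private theorem PP_surj (P : Fin 4 → MvPolynomial (Fin 3) K) (h1 : ∀ v, (P v).IsHomogeneous k)
    (h2 : ∀ v : Fin 4, 2 ≤ (v : ℕ) → ∀ m : Fin 3 →₀ ℕ, W ≤ m 2 → coeff m (P v) = 0) :
    PP (fun c : Col k W => coeff (c.1.2 : Fin 3 →₀ ℕ) (P c.1.1)) = P := by
  funext v
  ext n
  by_cases hn : n.degree = k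
  · by_cases h3 : 2 ≤ (v : ℕ) ∧ W ≤ n 2
    · rw [PP_off _ h3.1 h3.2, h2 v h3.1 n h3.2]
    · exact coeff_PP (fun c : Col k W => coeff (c.1.2 : Fin 3 →₀ ℕ) (P c.1.1))
        ⟨(v, ⟨n, mem_mon hn⟩), fun h4 => by
          by_contra h5
          exact h3 ⟨h4, by simpa using h5⟩⟩
  · rw [(h1 v).coeff_eq_zero hn, (PP_hom _ v).coeff_eq_zero hn]

end mats


section cond

/-- a condition: coefficients `g`, exponents `a`, `b`, frame `L` -/
@[ext]
private structure Cd (R : Type*) where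
  g : Fin 4 → R
  a : ℕ
  b : ℕ
  L : Matrix (Fin 3) (Fin 3) R

private def Cd.mp {R S : Type*} [CommRing R] [CommRing S] (φ : R →+* S) (c : Cd R) : Cd S :=
  ⟨fun l => φ (c.g l), c.a, c.b, c.L.map φ⟩

/-- the matrix of the system -/
private noncomputable def mt {R : Type*} [CommRing R] (ρ k W : ℕ) (cs : Fin 8 → Cd R) :
    Matrix (Fin 8 × Fin ρ × Fin ρ) (Col k W) R :=
  fun r c => if (r.2.1 : ℕ) + r.2.2 < ρ ∧ (r.2.1 : ℕ) < (cs r.1).a ∧ (r.2.2 : ℕ) < (cs r.1).b then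
    (cs r.1).g c.1.1 * coeff (Spl2.ex3 r.2.1 r.2.2 (k - r.2.1 - r.2.2))
      (sb (cs r.1).L.adjugate (monomial (c.1.2 : Fin 3 →₀ ℕ) 1)) else 0

private theorem mt_map {R S : Type*} [CommRing R] [CommRing S] (φ : R →+* S) (ρ k W : ℕ)
    (cs : Fin 8 → Cd R) : (mt ρ k W cs).map φ = mt ρ k W (fun t => (cs t).mp φ) := by
  ext r c
  rw [Matrix.map_apply]
  unfold mt
  by_cases h : (r.2.1 : ℕ) + r.2.2 < ρ ∧ (r.2.1 : ℕ) < (cs r.1).a ∧ (r.2.2 : ℕ) < (cs r.1).b
  · have h' : (r.2.1 : ℕ) + r.2.2 < ρ ∧ (r.2.1 : ℕ) < ((cs r.1).mp φ).a ∧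
      (r.2.2 : ℕ) < ((cs r.1).mp φ).b := h
    rw [if_pos h, if_pos h', map_mul, ← coeff_map, map_sb, map_monomial, map_one]
    have h2 : (cs r.1).L.adjugate.map φ = ((cs r.1).mp φ).L.adjugate :=
      RingHom.map_adjugate φ (cs r.1).L
    rw [h2]
    rfl
  · have h' : ¬ ((r.2.1 : ℕ) + r.2.2 < ρ ∧ (r.2.1 : ℕ) < ((cs r.1).mp φ).a ∧
      (r.2.2 : ℕ) < ((cs r.1).mp φ).b) := h
    rw [if_neg h, if_neg h', map_zero]

variable {K : Type*} [Field K] {k W : ℕ}

private theorem coeff_row (g : Fin 4 → K) (N : Matrix (Fin 3) (Fin 3) K) (x : Col k W → K)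
    (e : Fin 3 →₀ ℕ) :
    coeff e (sb N (∑ l, g l • PP x l)) =
      ∑ c : Col k W, (g c.1.1 * coeff e (sb N (monomial (c.1.2 : Fin 3 →₀ ℕ) 1))) * x c := by
  have h1 : ∑ l, g l • PP x l =
      ∑ c : Col k W, (g c.1.1 * x c) • monomial (c.1.2 : Fin 3 →₀ ℕ) (1 : K) := by
    simp only [PP_apply, Finset.smul_sum]
    rw [Finset.sum_comm]
    refine Finset.sum_congr rfl fun c _ => ?_
    rw [Finset.sum_eq_single c.1.1]
    · rw [if_pos rfl, mul_smul, smul_monomial (x c), smul_eq_mul, mul_one]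
    · intro l _ hl
      rw [if_neg (Ne.symm hl), smul_zero]
    · intro h
      exact absurd (Finset.mem_univ _) h
  rw [h1, map_sum, coeff_sum]
  refine Finset.sum_congr rfl fun c _ => ?_
  rw [map_smul, coeff_smul, smul_eq_mul]
  ring

private theorem mt_ker {ρ : ℕ} (cs : Fin 8 → Cd K) (x : Col k W → K) :
    (mt ρ k W cs).mulVec x = 0 ↔ ∀ t, ∀ i j, i + j < ρ → i < (cs t).a → j < (cs t).b →
      coeff (Spl2.ex3 i j (k - i - j)) (sb (cs t).L.adjugate (∑ l, (cs t).g l • PP x l)) = 0 := by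
  constructor
  · intro h t i j h1 h2 h3
    have h4 := congrFun h (t, (⟨i, by omega⟩ : Fin ρ), (⟨j, by omega⟩ : Fin ρ))
    rw [coeff_row]
    refine Eq.trans ?_ h4
    unfold Matrix.mulVec dotProduct
    refine Finset.sum_congr rfl fun c _ => ?_
    have h5 : mt ρ k W cs (t, (⟨i, by omega⟩ : Fin ρ), (⟨j, by omega⟩ : Fin ρ)) c =
        (cs t).g c.1.1 * coeff (Spl2.ex3 i j (k - i - j))
          (sb (cs t).L.adjugate (monomial (c.1.2 : Fin 3 →₀ ℕ) 1)) := if_pos ⟨h1, h2, h3⟩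
    exact (congrArg (fun a => a * x c) h5).symm
  · intro h
    funext r
    obtain ⟨t, i, j⟩ := r
    by_cases h1 : (i : ℕ) + j < ρ ∧ (i : ℕ) < (cs t).a ∧ (j : ℕ) < (cs t).b
    · have h4 := h t i j h1.1 h1.2.1 h1.2.2
      rw [coeff_row] at h4
      refine Eq.trans ?_ h4
      unfold Matrix.mulVec dotProduct
      refine Finset.sum_congr rfl fun c _ => ?_
      have h5 : mt ρ k W cs (t, i, j) c =
          (cs t).g c.1.1 * coeff (Spl2.ex3 i j (k - i - j))
            (sb (cs t).L.adjugate (monomial (c.1.2 : Fin 3 →₀ ℕ) 1)) := if_pos h1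
      exact congrArg (fun a => a * x c) h5
    · unfold Matrix.mulVec dotProduct
      refine Finset.sum_eq_zero fun c _ => ?_
      have h5 : mt ρ k W cs (t, i, j) c = 0 := if_neg h1
      exact (congrArg (fun a => a * x c) h5).trans (zero_mul _)

/-- the frame of two forms and a third one -/
private def fr {R : Type*} (u v w : Fin 3 → R) : Matrix (Fin 3) (Fin 3) R := Matrix.of ![u, v, w]

private def vl {R : Type*} [CommRing R] (d : Fin 2 → R) : Fin 3 → R := ![d 0, d 1, 1]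

private def vv {R : Type*} [CommRing R] (d : Fin 2 → R) : Fin 3 → R := ![d 0, d 1, 0]

private def v2 (R : Type*) [CommRing R] : Fin 3 → R := ![0, 0, 1]

private theorem lf_vl (d : Fin 2 → K) : lf (vl d) = ln d := by
  simp [lf, vl, ln, vt, Fin.sum_univ_three]

private theorem lf_vv (d : Fin 2 → K) : lf (vv d) = vt d := by
  simp [lf, vv, vt, Fin.sum_univ_three]

private theorem lf_v2 : lf (v2 K) = X 2 := by
  simp [lf, v2, Fin.sum_univ_three]

/-- the eight conditions -/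
private def cs {R : Type*} [CommRing R] (W : ℕ) (d₁ d₂ b c e z₁ z₂ z₃ : Fin 2 → R) :
    Fin 8 → Cd R :=
  ![⟨![1, 0, 0, 0], W + 1, W, fr (vl d₁) (v2 R) (vv z₁)⟩,
    ⟨![0, 1, 0, 0], W + 1, W, fr (vl d₂) (v2 R) (vv z₂)⟩,
    ⟨![0, 0, 1, 0], W + 1, W, fr (vv c) (v2 R) (vv z₃)⟩,
    ⟨![1, 0, 0, 0], W + 1, W + 1, fr (vl d₁) (vv b) (v2 R)⟩,
    ⟨![1, -1, 0, 0], W + 1, W + 1, fr (vl d₁) (vl d₂) (v2 R)⟩,
    ⟨![0, 1, -1, 0], W + 1, W + 1, fr (vl d₂) (vv c) (v2 R)⟩,
    ⟨![1, 0, 0, -1], W + 1, W + 1, fr (vl d₁) (vv e) (v2 R)⟩,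
    ⟨![0, 1, 0, -1], W + 1, W + 1, fr (vl d₂) (vv e) (v2 R)⟩]

private theorem cs_map {R S : Type*} [CommRing R] [CommRing S] (φ : R →+* S) (W : ℕ)
    (d₁ d₂ b c e z₁ z₂ z₃ : Fin 2 → R) :
    (fun t => (cs W d₁ d₂ b c e z₁ z₂ z₃ t).mp φ) =
      cs W (fun i => φ (d₁ i)) (fun i => φ (d₂ i)) (fun i => φ (b i)) (fun i => φ (c i))
        (fun i => φ (e i)) (fun i => φ (z₁ i)) (fun i => φ (z₂ i)) (fun i => φ (z₃ i)) := by
  have h4 : ∀ a b c d : R, (fun l => φ ((![a, b, c, d] : Fin 4 → R) l)) =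
      ![φ a, φ b, φ c, φ d] := by
    intro a b c d
    funext l
    fin_cases l <;> rfl
  have hm : ∀ u v w : Fin 3 → R, (fr u v w).map φ =
      fr (fun i => φ (u i)) (fun i => φ (v i)) (fun i => φ (w i)) := by
    intro u v w
    ext i j
    fin_cases i <;> rfl
  have h1 : ∀ d : Fin 2 → R, (fun i => φ (vl d i)) = vl (fun i => φ (d i)) := by
    intro d
    funext i
    fin_cases i <;> simp [vl]
  have h2 : ∀ d : Fin 2 → R, (fun i => φ (vv d i)) = vv (fun i => φ (d i)) := by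
    intro d
    funext i
    fin_cases i <;> simp [vv]
  have h3 : (fun i => φ (v2 R i)) = v2 S := by
    funext i
    fin_cases i <;> simp [v2]
  have hg : ∀ (g : Fin 4 → R) (a b : ℕ) (L : Matrix (Fin 3) (Fin 3) R),
      (⟨g, a, b, L⟩ : Cd R).mp φ = ⟨fun l => φ (g l), a, b, L.map φ⟩ := fun _ _ _ _ => rfl
  funext t
  fin_cases t
  all_goals
    simp only [cs, Fin.zero_eta, Fin.mk_one, Fin.reduceFinMk, Matrix.cons_val_zero,
      Matrix.cons_val_one, Matrix.cons_val, hg, h4, hm, h1, h2, h3, map_one, map_zero, map_neg]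

end cond


section final

variable {K : Type*} [Field K] {k W : ℕ}

/-- the eight memberships -/
private def M8 (ρ W : ℕ) (d₁ d₂ b c e : Fin 2 → K) (P : Fin 4 → MvPolynomial (Fin 3) K) : Prop :=
  P 0 ∈ J ρ (W + 1) W (ln d₁) (X 2) ∧ P 1 ∈ J ρ (W + 1) W (ln d₂) (X 2) ∧
    P 2 ∈ J ρ (W + 1) W (vt c) (X 2) ∧ P 0 ∈ J ρ (W + 1) (W + 1) (ln d₁) (vt b) ∧
    P 0 - P 1 ∈ J ρ (W + 1) (W + 1) (ln d₁) (ln d₂) ∧
    P 1 - P 2 ∈ J ρ (W + 1) (W + 1) (ln d₂) (vt c) ∧
    P 0 - P 3 ∈ J ρ (W + 1) (W + 1) (ln d₁) (vt e) ∧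
    P 1 - P 3 ∈ J ρ (W + 1) (W + 1) (ln d₂) (vt e)

private theorem fr0 {R : Type*} (u v w : Fin 3 → R) : fr u v w 0 = u := rfl

private theorem fr1 {R : Type*} (u v w : Fin 3 → R) : fr u v w 1 = v := rfl

private theorem cond_iff {ρ : ℕ} (q : Cd K) (hL : q.L.det ≠ 0)
    {P : Fin 4 → MvPolynomial (Fin 3) K} (hP : ∀ l, (P l).IsHomogeneous k) :
    (∀ i j, i + j < ρ → i < q.a → j < q.b →
      coeff (Spl2.ex3 i j (k - i - j)) (sb q.L.adjugate (∑ l, q.g l • P l)) = 0) ↔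
    ∑ l, q.g l • P l ∈ J ρ q.a q.b (lf (q.L 0)) (lf (q.L 1)) := by
  apply J_iff hL
  refine IsHomogeneous.sum _ _ _ fun l _ => ?_
  rw [smul_eq_C_mul]
  exact (hP l).C_mul _

private theorem ker_iff {ρ : ℕ} {d₁ d₂ b c e z₁ z₂ z₃ : Fin 2 → K}
    (hdet : ∀ t, (cs W d₁ d₂ b c e z₁ z₂ z₃ t).L.det ≠ 0) (x : Col k W → K) :
    (mt ρ k W (cs W d₁ d₂ b c e z₁ z₂ z₃)).mulVec x = 0 ↔ M8 ρ W d₁ d₂ b c e (PP x) := by
  rw [mt_ker]
  have key : ∀ t : Fin 8, _ := fun t =>
    cond_iff (ρ := ρ) (k := k) _ (hdet t) (P := PP x) (fun l => PP_hom x l)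
  have h0 := key 0
  have h1 := key 1
  have h2 := key 2
  have h3 := key 3
  have h4 := key 4
  have h5 := key 5
  have h6 := key 6
  have h7 := key 7
  have hall : (∀ t : Fin 8, ∑ l, (cs W d₁ d₂ b c e z₁ z₂ z₃ t).g l • PP x l ∈
      J ρ (cs W d₁ d₂ b c e z₁ z₂ z₃ t).a (cs W d₁ d₂ b c e z₁ z₂ z₃ t).b
        (lf ((cs W d₁ d₂ b c e z₁ z₂ z₃ t).L 0)) (lf ((cs W d₁ d₂ b c e z₁ z₂ z₃ t).L 1))) ↔
      M8 ρ W d₁ d₂ b c e (PP x) := by
    have hv : ∀ a b c d : K, ∑ l, (![a, b, c, d] : Fin 4 → K) l • PP x l =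
        a • PP x 0 + b • PP x 1 + c • PP x 2 + d • PP x 3 := by
      intro a b c d
      rw [Fin.sum_univ_four]
      rfl
    unfold M8
    constructor
    · intro h
      have g0 := h 0
      have g1 := h 1
      have g2 := h 2
      have g3 := h 3
      have g4 := h 4
      have g5 := h 5
      have g6 := h 6
      have g7 := h 7
      simp only [cs, Matrix.cons_val_zero, Matrix.cons_val_one, Matrix.cons_val, hv, fr0, fr1,
        lf_vl, lf_vv, lf_v2, one_smul, zero_smul, add_zero, zero_add, neg_smul,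
        ← sub_eq_add_neg] at g0 g1 g2 g3 g4 g5 g6 g7
      exact ⟨g0, g1, g2, g3, g4, g5, g6, g7⟩
    · rintro ⟨g0, g1, g2, g3, g4, g5, g6, g7⟩ t
      fin_cases t <;>
        simp only [cs, Fin.zero_eta, Fin.mk_one, Fin.reduceFinMk, Matrix.cons_val_zero,
          Matrix.cons_val_one, Matrix.cons_val, hv, fr0, fr1, lf_vl, lf_vv, lf_v2, one_smul,
          zero_smul, add_zero, zero_add, neg_smul, ← sub_eq_add_neg]
      · exact g0
      · exact g1
      · exact g2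
      · exact g3
      · exact g4
      · exact g5
      · exact g6
      · exact g7
  rw [← hall]
  exact forall_congr' key

/-- multiples of the `T`-th powers of the lines -/
private noncomputable def mu (ℓ : Fin 4 → MvPolynomial (Fin 3) K) (T k W : ℕ) :
    (Col (k - T) W → K) →ₗ[K] (Col k W → K) where
  toFun y c := coeff (c.1.2 : Fin 3 →₀ ℕ) (ℓ c.1.1 ^ T * PP y c.1.1)
  map_add' y z := by
    funext c
    rw [Pi.add_apply, map_add, Pi.add_apply, mul_add, coeff_add]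
  map_smul' a y := by
    funext c
    rw [Pi.smul_apply, map_smul, Pi.smul_apply, mul_smul_comm, coeff_smul, RingHom.id_apply]

private theorem PP_mu {ℓ : Fin 4 → MvPolynomial (Fin 3) K} {T : ℕ}
    (h1 : ∀ v, (ℓ v).IsHomogeneous 1) (h2 : ∀ v : Fin 4, 2 ≤ (v : ℕ) → degreeOf 2 (ℓ v) = 0)
    (hT : T ≤ k) (hW : 1 ≤ W) (y : Col (k - T) W → K) :
    PP (mu ℓ T k W y) = fun v => ℓ v ^ T * PP y v := by
  refine PP_surj (fun v => ℓ v ^ T * PP y v) (fun v => ?_) (fun v hv m hm => ?_)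
  · have h3 := ((h1 v).pow T).mul (PP_hom y v)
    rw [one_mul, Nat.add_sub_cancel' hT] at h3
    exact h3
  · by_contra h3
    have h4 : m ∈ (ℓ v ^ T * PP y v).support := mem_support_iff.2 h3
    have h5 := monomial_le_degreeOf 2 h4
    have h6 := degreeOf_mul_le 2 (ℓ v ^ T) (PP y v)
    have h7 := degreeOf_pow_le 2 (ℓ v) T
    rw [h2 v hv, mul_zero] at h7
    have h8 : degreeOf 2 (PP y v) ≤ W - 1 := by
      rw [degreeOf_le_iff]
      intro m' hm'
      by_contra h9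
      exact (mem_support_iff.1 hm') (PP_off y hv (by omega))
    omega

private theorem mu_inj {ℓ : Fin 4 → MvPolynomial (Fin 3) K} {T : ℕ}
    (h1 : ∀ v, (ℓ v).IsHomogeneous 1) (h2 : ∀ v : Fin 4, 2 ≤ (v : ℕ) → degreeOf 2 (ℓ v) = 0)
    (hT : T ≤ k) (hW : 1 ≤ W) (h0 : ∀ v, ℓ v ≠ 0) : Function.Injective (mu ℓ T k W) := by
  rw [injective_iff_map_eq_zero]
  intro y hy
  have h3 := PP_mu h1 h2 hT hW y
  rw [hy, map_zero] at h3
  funext c
  have h4 : ℓ c.1.1 ^ T * PP y c.1.1 = 0 := (congrFun h3 c.1.1).symm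
  rcases mul_eq_zero.1 h4 with h5 | h5
  · exact absurd h5 (pow_ne_zero _ (h0 _))
  · have h6 := coeff_PP y c
    rw [h5, coeff_zero] at h6
    exact h6.symm


private theorem vt_hom (P : Fin 2 → K) : (vt P).IsHomogeneous 1 :=
  (isHomogeneous_C_mul_X _ _).add (isHomogeneous_C_mul_X _ _)

private theorem ln_hom (P : Fin 2 → K) : (ln P).IsHomogeneous 1 :=
  (vt_hom P).add (isHomogeneous_X _ _)

private theorem vt_deg (P : Fin 2 → K) : degreeOf 2 (vt P) = 0 := by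
  have h1 := degreeOf_add_le 2 (C (P 0) * X 0 : MvPolynomial (Fin 3) K) (C (P 1) * X 1)
  have h2 := degreeOf_C_mul_le (X 0 : MvPolynomial (Fin 3) K) 2 (P 0)
  have h3 := degreeOf_C_mul_le (X 1 : MvPolynomial (Fin 3) K) 2 (P 1)
  have h4 : degreeOf 2 (X 0 : MvPolynomial (Fin 3) K) = 0 := by
    rw [degreeOf_X, if_neg (by decide)]
  have h5 : degreeOf 2 (X 1 : MvPolynomial (Fin 3) K) = 0 := by
    rw [degreeOf_X, if_neg (by decide)]
  rw [h4] at h2
  rw [h5] at h3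
  unfold vt
  omega

/-- the four lines -/
private noncomputable def el (d₁ d₂ c e : Fin 2 → K) : Fin 4 → MvPolynomial (Fin 3) K :=
  ![ln d₁, ln d₂, vt c, vt e]

private theorem el_hom (d₁ d₂ c e : Fin 2 → K) (v : Fin 4) :
    (el d₁ d₂ c e v).IsHomogeneous 1 := by
  fin_cases v
  · exact ln_hom _
  · exact ln_hom _
  · exact vt_hom _
  · exact vt_hom _

private theorem el_deg (d₁ d₂ c e : Fin 2 → K) (v : Fin 4) (hv : 2 ≤ (v : ℕ)) :
    degreeOf 2 (el d₁ d₂ c e v) = 0 := by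
  fin_cases v
  · exact absurd hv (by decide)
  · exact absurd hv (by decide)
  · exact vt_deg _
  · exact vt_deg _

private theorem range_le {ρ : ℕ} {d₁ d₂ b c e z₁ z₂ z₃ : Fin 2 → K}
    (hdet : ∀ t, (cs W d₁ d₂ b c e z₁ z₂ z₃ t).L.det ≠ 0) (hT : W + 1 ≤ k) (hW : 1 ≤ W) :
    LinearMap.range (mu (el d₁ d₂ c e) (W + 1) k W) ≤
      LinearMap.ker (mt ρ k W (cs W d₁ d₂ b c e z₁ z₂ z₃)).mulVecLin := by
  rintro _ ⟨y, rfl⟩
  rw [LinearMap.mem_ker, Matrix.mulVecLin_apply, ker_iff hdet,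
    PP_mu (el_hom _ _ _ _) (el_deg _ _ _ _) hT hW]
  have g0 : ln d₁ ^ (W + 1) ∣ ln d₁ ^ (W + 1) * PP y 0 := dvd_mul_right _ _
  have g1 : ln d₂ ^ (W + 1) ∣ ln d₂ ^ (W + 1) * PP y 1 := dvd_mul_right _ _
  have g2 : vt c ^ (W + 1) ∣ vt c ^ (W + 1) * PP y 2 := dvd_mul_right _ _
  have g3 : vt e ^ (W + 1) ∣ vt e ^ (W + 1) * PP y 3 := dvd_mul_right _ _
  exact ⟨J_left g0, J_left g1, J_left g2, J_left g0, Ideal.sub_mem _ (J_left g0) (J_right g1),
    Ideal.sub_mem _ (J_left g1) (J_right g2), Ideal.sub_mem _ (J_left g0) (J_right g3),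
    Ideal.sub_mem _ (J_left g1) (J_right g3)⟩

private theorem ker_le {ρ : ℕ} {d₁ d₂ b c e z₁ z₂ z₃ : Fin 2 → K}
    (hdet : ∀ t, (cs W d₁ d₂ b c e z₁ z₂ z₃ t).L.det ≠ 0) (hW : 1 ≤ W) (hρ : W < ρ)
    (h2 : W ≤ 2 * (ρ - W)) (n3 : dt d₁ e ≠ 0) (n4 : dt d₂ c ≠ 0) (n5 : dt d₂ e ≠ 0)
    (n6 : dt d₁ e ≠ dt d₂ e) (h : Pair ρ W d₁ d₂ b c e) :
    LinearMap.ker (mt ρ (2 * ρ - 1) W (cs W d₁ d₂ b c e z₁ z₂ z₃)).mulVecLin ≤
      LinearMap.range (mu (el d₁ d₂ c e) (W + 1) (2 * ρ - 1) W) := by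
  intro x hx
  rw [LinearMap.mem_ker, Matrix.mulVecLin_apply, ker_iff hdet] at hx
  obtain ⟨m0, m1, m2, m3, m4, m5, m6, m7⟩ := hx
  have hlt : ∀ v : Fin 4, 2 ≤ (v : ℕ) → degreeOf 2 (PP x v) < W := by
    intro v hv
    rw [degreeOf_lt_iff (by omega)]
    intro m hm
    by_contra h9
    exact (mem_support_iff.1 hm) (PP_off x hv (by omega))
  have hd2 := hlt 2 (by decide)
  have hd3 := hlt 3 (by decide)
  obtain ⟨p0, p1⟩ := h (PP x 0) (PP x 1) (PP x 2) (PP x 3) (PP_hom x 0) (PP_hom x 1)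
    (PP_hom x 2) (PP_hom x 3) hd2 hd3 m0 m1 m2 m3 m4 m5 m6 m7
  have p2 : vt c ^ (W + 1) ∣ PP x 2 := by
    refine stat_b (j := W - 1) (k := 2 * ρ - 1) n4 (by omega) (by omega) hρ h2 (PP_hom x 2)
      (by omega) ?_ m2
    have h3 := Ideal.sub_mem _ (J_left (ρ := ρ) (b := W + 1) (y := vt c) p1) m5
    rw [sub_sub_cancel] at h3
    exact h3
  have p3 : vt e ^ (W + 1) ∣ PP x 3 := by
    refine stat_c (j := W - 1) (k := 2 * ρ - 1) n3 n5 n6 (by omega) (by omega) hρ h2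
      (PP_hom x 3) (by omega) ?_ ?_
    · have h3 := Ideal.sub_mem _ (J_left (ρ := ρ) (b := W + 1) (y := vt e) p0) m6
      rw [sub_sub_cancel] at h3
      exact h3
    · have h3 := Ideal.sub_mem _ (J_left (ρ := ρ) (b := W + 1) (y := vt e) p1) m7
      rw [sub_sub_cancel] at h3
      exact h3
  have hc0 : c ≠ 0 := by
    rintro rfl
    exact n4 (by simp [dt])
  have he0 : e ≠ 0 := by
    rintro rfl
    exact n3 (by simp [dt])
  have hT : W + 1 ≤ 2 * ρ - 1 := by omega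
  have hln : ∀ d : Fin 2 → K, (ln d ^ (W + 1)).IsHomogeneous (W + 1) := by
    intro d
    have h3 := (ln_hom d).pow (W + 1)
    rw [one_mul] at h3
    exact h3
  obtain ⟨a0, ha0⟩ := p0
  obtain ⟨a1, ha1⟩ := p1
  obtain ⟨a2, ha2⟩ := p2
  obtain ⟨a3, ha3⟩ := p3
  have q0 := hom_quot (hln d₁) (PP_hom x 0) hT ha0
  have q1 := hom_quot (hln d₂) (PP_hom x 1) hT ha1
  have c2 := cancel_vt (l := W + 1) (j := W - 1) hc0 (by rw [← ha2]; exact PP_hom x 2) hT
    (by rw [← ha2]; omega)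
  have c3 := cancel_vt (l := W + 1) (j := W - 1) he0 (by rw [← ha3]; exact PP_hom x 3) hT
    (by rw [← ha3]; omega)
  have hoff : ∀ f : MvPolynomial (Fin 3) K, degreeOf 2 f ≤ W - 1 → ∀ m : Fin 3 →₀ ℕ,
      W ≤ m 2 → coeff m f = 0 := by
    intro f hf m hm
    by_contra h3
    have h5 := monomial_le_degreeOf 2 (mem_support_iff.2 h3)
    omega
  obtain ⟨B, hB⟩ : ∃ B : Fin 4 → MvPolynomial (Fin 3) K,
      B = ![homogeneousComponent (2 * ρ - 1 - (W + 1)) a0,
        homogeneousComponent (2 * ρ - 1 - (W + 1)) a1, a2, a3] := ⟨_, rfl⟩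
  have hB1 : ∀ v, (B v).IsHomogeneous (2 * ρ - 1 - (W + 1)) := by
    intro v
    rw [hB]
    fin_cases v
    · exact homogeneousComponent_isHomogeneous _ _
    · exact homogeneousComponent_isHomogeneous _ _
    · exact c2.1
    · exact c3.1
  have hB2 : ∀ v : Fin 4, 2 ≤ (v : ℕ) → ∀ m : Fin 3 →₀ ℕ, W ≤ m 2 → coeff m (B v) = 0 := by
    intro v hv
    rw [hB]
    fin_cases v
    · exact absurd hv (by decide)
    · exact absurd hv (by decide)
    · exact hoff _ c2.2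
    · exact hoff _ c3.2
  have hB3 : (fun v => el d₁ d₂ c e v ^ (W + 1) * B v) = PP x := by
    funext v
    rw [hB]
    fin_cases v
    · exact q0.symm
    · exact q1.symm
    · exact ha2.symm
    · exact ha3.symm
  refine ⟨fun q => coeff (q.1.2 : Fin 3 →₀ ℕ) (B q.1.1), ?_⟩
  have h5 := PP_mu (el_hom d₁ d₂ c e) (el_deg d₁ d₂ c e) hT hW
    (fun q : Col (2 * ρ - 1 - (W + 1)) W => coeff (q.1.2 : Fin 3 →₀ ℕ) (B q.1.1))
  rw [PP_surj B hB1 hB2, hB3] at h5
  funext q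
  have h7 := coeff_PP (mu (el d₁ d₂ c e) (W + 1) (2 * ρ - 1) W
    (fun q : Col (2 * ρ - 1 - (W + 1)) W => coeff (q.1.2 : Fin 3 →₀ ℕ) (B q.1.1))) q
  rw [h5] at h7
  rw [← h7, coeff_PP]

private theorem third {R : Type*} [CommRing R] {F : Type*} [Field F] (ψ : R →+* F)
    (d : Fin 2 → R) {p : Fin 2 → F} (h : dt (fun i => ψ (d i)) p ≠ 0) :
    ∃ z : Fin 2 → R, dt (fun i => ψ (d i)) (fun i => ψ (z i)) ≠ 0 := by
  by_contra hcon
  push Not at hcon
  have h1 := hcon ![0, 1]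
  have h2 := hcon ![1, 0]
  simp [dt] at h1 h2
  apply h
  simp [dt, h1, h2]

private theorem det_map {R S : Type*} [CommRing R] [CommRing S] (φ : R →+* S) (W : ℕ)
    (d₁ d₂ b c e z₁ z₂ z₃ : Fin 2 → R) (t : Fin 8) :
    φ (cs W d₁ d₂ b c e z₁ z₂ z₃ t).L.det =
      (cs W (fun i => φ (d₁ i)) (fun i => φ (d₂ i)) (fun i => φ (b i)) (fun i => φ (c i))
      (fun i => φ (e i)) (fun i => φ (z₁ i)) (fun i => φ (z₂ i)) (fun i => φ (z₃ i)) t).L.det := by
  rw [← cs_map, RingHom.map_det]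
  rfl

private theorem dets_ne {d₁ d₂ b c e z₁ z₂ z₃ : Fin 2 → K} (n1 : dt d₁ d₂ ≠ 0)
    (n2 : dt d₁ b ≠ 0) (n3 : dt d₁ e ≠ 0) (n4 : dt d₂ c ≠ 0) (n5 : dt d₂ e ≠ 0)
    (h1 : dt d₁ z₁ ≠ 0) (h2 : dt d₂ z₂ ≠ 0) (h3 : dt c z₃ ≠ 0) (t : Fin 8) :
    (cs W d₁ d₂ b c e z₁ z₂ z₃ t).L.det ≠ 0 := by
  have ha : ∀ p z : Fin 2 → K, (fr (vl p) (v2 K) (vv z)).det = - dt p z := by
    intro p z
    rw [Matrix.det_fin_three]
    simp [fr, vl, v2, vv, dt]
    ring
  have hb : ∀ p z : Fin 2 → K, (fr (vv p) (v2 K) (vv z)).det = - dt p z := by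
    intro p z
    rw [Matrix.det_fin_three]
    simp [fr, v2, vv, dt]
    ring
  have hc : ∀ p z : Fin 2 → K, (fr (vl p) (vv z) (v2 K)).det = dt p z := by
    intro p z
    rw [Matrix.det_fin_three]
    simp [fr, vl, v2, vv, dt]
  have hd : ∀ p z : Fin 2 → K, (fr (vl p) (vl z) (v2 K)).det = dt p z := by
    intro p z
    rw [Matrix.det_fin_three]
    simp [fr, vl, v2, dt]
  fin_cases t
  · exact fun h0 => h1 (neg_eq_zero.1 ((ha d₁ z₁).symm.trans h0))
  · exact fun h0 => h2 (neg_eq_zero.1 ((ha d₂ z₂).symm.trans h0))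
  · exact fun h0 => h3 (neg_eq_zero.1 ((hb c z₃).symm.trans h0))
  · exact fun h0 => n2 ((hc d₁ b).symm.trans h0)
  · exact fun h0 => n1 ((hd d₁ d₂).symm.trans h0)
  · exact fun h0 => n4 ((hc d₂ c).symm.trans h0)
  · exact fun h0 => n3 ((hc d₁ e).symm.trans h0)
  · exact fun h0 => n5 ((hc d₂ e).symm.trans h0)

theorem pair_semi {ρ W : ℕ} (hW : 1 ≤ W) (hρ : W < ρ) (h2 : W ≤ 2 * (ρ - W)) {R : Type*}
    [CommRing R] (d₁ d₂ b c e : Fin 2 → R) {F : Type*} [Field F] (ψ : R →+* F)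
    (n1 : dt (fun i => ψ (d₁ i)) (fun i => ψ (d₂ i)) ≠ 0)
    (n2 : dt (fun i => ψ (d₁ i)) (fun i => ψ (b i)) ≠ 0)
    (n3 : dt (fun i => ψ (d₁ i)) (fun i => ψ (e i)) ≠ 0)
    (n4 : dt (fun i => ψ (d₂ i)) (fun i => ψ (c i)) ≠ 0)
    (n5 : dt (fun i => ψ (d₂ i)) (fun i => ψ (e i)) ≠ 0)
    (n6 : dt (fun i => ψ (d₁ i)) (fun i => ψ (e i)) ≠ dt (fun i => ψ (d₂ i)) (fun i => ψ (e i)))
    (h : Pair ρ W (fun i => ψ (d₁ i)) (fun i => ψ (d₂ i)) (fun i => ψ (b i)) (fun i => ψ (c i))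
      (fun i => ψ (e i))) :
    ∃ q : R, ψ q ≠ 0 ∧ ∀ (K : Type) [Field K] (χ : R →+* K), χ q ≠ 0 →
      Pair ρ W (fun i => χ (d₁ i)) (fun i => χ (d₂ i)) (fun i => χ (b i)) (fun i => χ (c i))
        (fun i => χ (e i)) := by
  obtain ⟨z₁, hz₁⟩ := third ψ d₁ n1
  obtain ⟨z₂, hz₂⟩ := third ψ d₂ n4
  have n4' : dt (fun i => ψ (c i)) (fun i => ψ (d₂ i)) ≠ 0 := by
    intro h0
    apply n4
    unfold dt at h0 ⊢
    linear_combination -h0
  obtain ⟨z₃, hz₃⟩ := third ψ c n4'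
  obtain ⟨q0, hq0, hq1⟩ := ker_semi (mt ρ (2 * ρ - 1) W (cs W d₁ d₂ b c e z₁ z₂ z₃)) ψ
  refine ⟨q0 * ∏ t, (cs W d₁ d₂ b c e z₁ z₂ z₃ t).L.det, ?_, ?_⟩
  · rw [map_mul, map_prod]
    refine mul_ne_zero hq0 (Finset.prod_ne_zero_iff.2 fun t _ => ?_)
    rw [det_map]
    exact dets_ne n1 n2 n3 n4 n5 hz₁ hz₂ hz₃ t
  · intro K _ χ hχ
    rw [map_mul, map_prod] at hχ
    have hχ0 := left_ne_zero_of_mul hχ
    have hdχ : ∀ t, (cs W (fun i => χ (d₁ i)) (fun i => χ (d₂ i)) (fun i => χ (b i))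
        (fun i => χ (c i)) (fun i => χ (e i)) (fun i => χ (z₁ i)) (fun i => χ (z₂ i))
        (fun i => χ (z₃ i)) t).L.det ≠ 0 := by
      intro t
      rw [← det_map]
      exact Finset.prod_ne_zero_iff.1 (right_ne_zero_of_mul hχ) t (Finset.mem_univ t)
    have hdψ : ∀ t, (cs W (fun i => ψ (d₁ i)) (fun i => ψ (d₂ i)) (fun i => ψ (b i))
        (fun i => ψ (c i)) (fun i => ψ (e i)) (fun i => ψ (z₁ i)) (fun i => ψ (z₂ i))
        (fun i => ψ (z₃ i)) t).L.det ≠ 0 := dets_ne n1 n2 n3 n4 n5 hz₁ hz₂ hz₃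
    have hsemi := hq1 K χ hχ0
    rw [mt_map, mt_map, cs_map, cs_map] at hsemi
    have hT : W + 1 ≤ 2 * ρ - 1 := by omega
    have r1 := Submodule.finrank_mono (ker_le hdψ hW hρ h2 n3 n4 n5 n6 h)
    have r2 := LinearMap.finrank_range_le (mu (el (fun i => ψ (d₁ i)) (fun i => ψ (d₂ i))
      (fun i => ψ (c i)) (fun i => ψ (e i))) (W + 1) (2 * ρ - 1) W)
    have hne : ∀ v, el (fun i => χ (d₁ i)) (fun i => χ (d₂ i)) (fun i => χ (c i))
        (fun i => χ (e i)) v ≠ 0 := by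
      intro v
      fin_cases v
      · have h5 := lf_ne (hdχ 0) 0
        have h6 : lf (vl fun i => χ (d₁ i)) ≠ 0 := h5
        rw [lf_vl] at h6
        exact h6
      · have h5 := lf_ne (hdχ 1) 0
        have h6 : lf (vl fun i => χ (d₂ i)) ≠ 0 := h5
        rw [lf_vl] at h6
        exact h6
      · have h5 := lf_ne (hdχ 2) 0
        have h6 : lf (vv fun i => χ (c i)) ≠ 0 := h5
        rw [lf_vv] at h6
        exact h6
      · have h5 := lf_ne (hdχ 6) 1
        have h6 : lf (vv fun i => χ (e i)) ≠ 0 := h5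
        rw [lf_vv] at h6
        exact h6
    have r3 := LinearMap.finrank_range_of_inj (mu_inj (k := 2 * ρ - 1) (W := W) (T := W + 1)
      (el_hom (fun i => χ (d₁ i)) (fun i => χ (d₂ i)) (fun i => χ (c i)) (fun i => χ (e i)))
      (el_deg _ _ _ _) hT hW hne)
    rw [Module.finrank_fintype_fun_eq_card] at r2 r3
    have heq := Submodule.eq_of_le_of_finrank_le (range_le (ρ := ρ) hdχ hT hW)
      (by rw [r3]; omega)
    intro M₁ M₂ Zc Ze hM₁ hM₂ hZc hZe dZc dZe m0 m1 m2 m3 m4 m5 m6 m7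
    obtain ⟨P, hP⟩ : ∃ P : Fin 4 → MvPolynomial (Fin 3) K, P = ![M₁, M₂, Zc, Ze] := ⟨_, rfl⟩
    have hPh : ∀ v, (P v).IsHomogeneous (2 * ρ - 1) := by
      intro v
      rw [hP]
      fin_cases v
      · exact hM₁
      · exact hM₂
      · exact hZc
      · exact hZe
    have hoff : ∀ f : MvPolynomial (Fin 3) K, degreeOf 2 f < W → ∀ m : Fin 3 →₀ ℕ,
        W ≤ m 2 → coeff m f = 0 := by
      intro f hf m hm
      by_contra h3
      have h5 := monomial_le_degreeOf 2 (mem_support_iff.2 h3)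
      omega
    have hPo : ∀ v : Fin 4, 2 ≤ (v : ℕ) → ∀ m : Fin 3 →₀ ℕ, W ≤ m 2 → coeff m (P v) = 0 := by
      intro v hv
      rw [hP]
      fin_cases v
      · exact absurd hv (by decide)
      · exact absurd hv (by decide)
      · exact hoff _ dZc
      · exact hoff _ dZe
    have hPP := PP_surj (k := 2 * ρ - 1) (W := W) P hPh hPo
    have hker := (ker_iff (ρ := ρ) hdχ (fun q : Col (2 * ρ - 1) W =>
      coeff (q.1.2 : Fin 3 →₀ ℕ) (P q.1.1))).2 (by
        rw [hPP, hP]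
        exact ⟨m0, m1, m2, m3, m4, m5, m6, m7⟩)
    rw [← Matrix.mulVecLin_apply, ← LinearMap.mem_ker, ← heq] at hker
    obtain ⟨y, hy⟩ := hker
    have h8 := PP_mu (el_hom (fun i => χ (d₁ i)) (fun i => χ (d₂ i)) (fun i => χ (c i))
      (fun i => χ (e i))) (el_deg _ _ _ _) hT hW y
    rw [hy, hPP, hP] at h8
    exact ⟨⟨_, congrFun h8 0⟩, ⟨_, congrFun h8 1⟩⟩

end final

end Pool.Agent.SplW
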