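import Pool.Agent.SplW.Stat

/-!
# Module S2: proofs of the second half of Stat

Proofs of `stat_a`, `stat_b`, `stat_c`, `coeff_part`, `dvd_part`, `type_one`, `type_two` from the first half of `Stat`.  (`part` is the definition in `Stat`.)
-/

set_option autoImplicit false

namespace Pool.Agent.SplW.StatB

open MvPolynomial

variable {K : Type*} [Field K]

private theorem statb_pe_dvd {P : Fin 2 → K} {y H : MvPolynomial (Fin 3) K} {q : Polynomial K} {m : ℕ}
    (hy : pe (dr P) y = q) (h : H ∈ Ideal.span {vt P} ⊔ Ideal.span {y ^ m}) :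
    q ^ m ∣ pe (dr P) H := by
  rw [Submodule.mem_sup] at h
  obtain ⟨u, hu, v, hv, rfl⟩ := h
  rw [Ideal.mem_span_singleton] at hu hv
  obtain ⟨s, rfl⟩ := hu
  obtain ⟨t, rfl⟩ := hv
  rw [map_add, map_mul, map_mul, map_pow, pe_vt, hy]
  have h0 : dt P P = 0 := by unfold dt; ring
  rw [h0, neg_zero, Polynomial.C_0, zero_mul, zero_add]
  exact dvd_mul_right _ _

/-- the general induction -/
private theorem stat_gen {c k j : ℕ} {P : Fin 2 → K} (hP : P ≠ 0) (hc : c ≤ k)
    {G : MvPolynomial (Fin 3) K} (hG : G.IsHomogeneous k) (hdeg : degreeOf 2 G ≤ j)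
    (hstep : ∀ l, l < c → ∀ H : MvPolynomial (Fin 3) K, G = vt P ^ l * H →
      (pe (dr P) H).natDegree ≤ j → pe (dr P) H = 0) : vt P ^ c ∣ G := by
  have key : ∀ l, l ≤ c → vt P ^ l ∣ G := by
    intro l
    induction l with
    | zero => intro _; simp
    | succ l ih =>
      intro hl
      obtain ⟨H, hH⟩ := ih (by omega)
      have h1 : (vt P ^ l * H).IsHomogeneous k := hH ▸ hG
      have h2 : degreeOf 2 (vt P ^ l * H) ≤ j := hH ▸ hdeg
      obtain ⟨h3, h4⟩ := cancel_vt hP h1 (by omega) h2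
      have h5 := hstep l (by omega) H hH (pe_deg _ h4)
      obtain ⟨s, hs⟩ := dvd_of_pe hP h3 h5
      refine ⟨s, ?_⟩
      rw [hH, hs, pow_succ]
      ring
  exact key c le_rfl

private theorem statb_ne {P d : Fin 2 → K} (hd : dt d P ≠ 0) : P ≠ 0 := by
  rintro rfl
  apply hd
  unfold dt
  simp

private theorem statb_ln {ρ W l : ℕ} {P d : Fin 2 → K} (hd : dt d P ≠ 0) (hl : l < W + 1)
    {G H : MvPolynomial (Fin 3) K} (hG : G = vt P ^ l * H)
    (h : G ∈ J ρ (W + 1) (W + 1) (ln d) (vt P)) :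
    (Polynomial.X - Polynomial.C (dt d P)) ^ min (ρ - l) (W + 1) ∣ pe (dr P) H := by
  obtain ⟨φ, h1, h2, -⟩ := frame hd
  rw [J_comm, hG] at h
  exact statb_pe_dvd (pe_ln P d) (low_level φ h1 h2 hl h)

private theorem statb_X2 {ρ W l : ℕ} {P : Fin 2 → K} (hP : P ≠ 0) (hl : l < W + 1)
    {G H : MvPolynomial (Fin 3) K} (hG : G = vt P ^ l * H)
    (h : G ∈ J ρ (W + 1) W (vt P) (X 2)) :
    (Polynomial.X : Polynomial K) ^ min (ρ - l) W ∣ pe (dr P) H := by
  obtain ⟨φ, h1, h2, -⟩ := frame2 hP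
  rw [hG] at h
  exact statb_pe_dvd (pe_X2 _) (low_level φ h1 h2 hl h)

private theorem statb_zero {f q : Polynomial K} {j : ℕ} (hj : j < q.natDegree)
    (hf : f.natDegree ≤ j) (h : q ∣ f) : f = 0 := by
  by_contra h0
  have h1 := Polynomial.natDegree_le_of_dvd h h0
  omega

theorem stat_a {ρ W j k : ℕ} {P d : Fin 2 → K} (hd : dt d P ≠ 0) (hj : j < W) (hρ : ρ ≤ k)
    {G : MvPolynomial (Fin 3) K} (hG : G.IsHomogeneous k) (hdeg : degreeOf 2 G ≤ j)
    (h : G ∈ J ρ (W + 1) (W + 1) (ln d) (vt P)) : vt P ^ min (W + 1) (ρ - j) ∣ G := by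
  refine stat_gen (statb_ne hd) (by omega) hG hdeg ?_
  intro l hl H hH hn
  have h1 := statb_ln hd (by omega) hH h
  refine statb_zero ?_ hn h1
  rw [Polynomial.natDegree_pow, Polynomial.natDegree_X_sub_C]
  omega

theorem stat_b {ρ W j k : ℕ} {P d : Fin 2 → K} (hd : dt d P ≠ 0) (hj : j < W) (hρ : ρ ≤ k)
    (hW : W < ρ) (h2 : W ≤ 2 * (ρ - W)) {G : MvPolynomial (Fin 3) K} (hG : G.IsHomogeneous k)
    (hdeg : degreeOf 2 G ≤ j) (h : G ∈ J ρ (W + 1) (W + 1) (ln d) (vt P))
    (h1 : G ∈ J ρ (W + 1) W (vt P) (X 2)) : vt P ^ (W + 1) ∣ G := by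
  refine stat_gen (statb_ne hd) (by omega) hG hdeg ?_
  intro l hl H hH hn
  have h3 := statb_ln hd hl hH h
  have h4 := statb_X2 (statb_ne hd) hl hH h1
  have hco : IsCoprime ((Polynomial.X - Polynomial.C (dt d P)) ^ min (ρ - l) (W + 1))
      ((Polynomial.X : Polynomial K) ^ min (ρ - l) W) := by
    refine IsCoprime.pow ?_
    have h5 := Polynomial.isCoprime_X_sub_C_of_isUnit_sub (a := dt d P) (b := 0)
      (by rw [sub_zero]; exact isUnit_iff_ne_zero.2 hd)
    simpa using h5
  have h6 := hco.mul_dvd h3 h4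
  refine statb_zero ?_ hn h6
  rw [((Polynomial.monic_X_sub_C _).pow _).natDegree_mul (Polynomial.monic_X.pow _),
    Polynomial.natDegree_pow, Polynomial.natDegree_X_sub_C, Polynomial.natDegree_pow,
    Polynomial.natDegree_X]
  omega

theorem stat_c {ρ W j k : ℕ} {P d d' : Fin 2 → K} (hd : dt d P ≠ 0) (hd' : dt d' P ≠ 0)
    (hdd : dt d P ≠ dt d' P) (hj : j < W) (hρ : ρ ≤ k) (hW : W < ρ) (h2 : W ≤ 2 * (ρ - W))
    {G : MvPolynomial (Fin 3) K} (hG : G.IsHomogeneous k) (hdeg : degreeOf 2 G ≤ j)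
    (h : G ∈ J ρ (W + 1) (W + 1) (ln d) (vt P)) (h' : G ∈ J ρ (W + 1) (W + 1) (ln d') (vt P)) :
    vt P ^ (W + 1) ∣ G := by
  refine stat_gen (statb_ne hd) (by omega) hG hdeg ?_
  intro l hl H hH hn
  have h3 := statb_ln hd hl hH h
  have h4 := statb_ln hd' hl hH h'
  have hco : IsCoprime ((Polynomial.X - Polynomial.C (dt d P)) ^ min (ρ - l) (W + 1))
      ((Polynomial.X - Polynomial.C (dt d' P)) ^ min (ρ - l) (W + 1)) :=
    (Polynomial.isCoprime_X_sub_C_of_isUnit_sub
      (isUnit_iff_ne_zero.2 (sub_ne_zero.2 hdd))).pow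
  have h6 := hco.mul_dvd h3 h4
  refine statb_zero ?_ hn h6
  rw [((Polynomial.monic_X_sub_C _).pow _).natDegree_mul ((Polynomial.monic_X_sub_C _).pow _),
    Polynomial.natDegree_pow, Polynomial.natDegree_X_sub_C, Polynomial.natDegree_pow,
    Polynomial.natDegree_X_sub_C]
  omega

theorem coeff_part (n : ℕ) (f : MvPolynomial (Fin 3) K) (m : Fin 3 →₀ ℕ) :
    coeff m (part n f) = if m 2 = n then coeff m f else 0 := by
  classical
  unfold part
  rw [coeff_sum]
  simp only [coeff_monomial]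
  rw [Finset.sum_ite_eq' (f.support.filter (fun m => m 2 = n)) m (fun m' => coeff m' f)]
  by_cases hm : m 2 = n
  · rw [if_pos hm]
    by_cases h0 : coeff m f = 0
    · rw [h0]; simp
    · rw [if_pos (by rw [Finset.mem_filter]; exact ⟨mem_support_iff.2 h0, hm⟩)]
  · rw [if_neg hm, if_neg (by rw [Finset.mem_filter]; tauto)]

private theorem part_add (n : ℕ) (f g : MvPolynomial (Fin 3) K) :
    part n (f + g) = part n f + part n g := by
  ext m
  rw [coeff_add, coeff_part, coeff_part, coeff_part, coeff_add]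
  split_ifs <;> simp

private theorem part_C_mul (n : ℕ) (a : K) (f : MvPolynomial (Fin 3) K) :
    part n (C a * f) = C a * part n f := by
  ext m
  rw [coeff_C_mul, coeff_part, coeff_part, coeff_C_mul]
  split_ifs <;> simp

private theorem part_X_mul (n : ℕ) {i : Fin 3} (hi : i ≠ 2) (f : MvPolynomial (Fin 3) K) :
    part n (X i * f) = X i * part n f := by
  classical
  ext m
  rw [coeff_X_mul', coeff_part, coeff_X_mul', coeff_part]
  have h1 : (m - Finsupp.single i 1 : Fin 3 →₀ ℕ) 2 = m 2 := by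
    rw [Finsupp.tsub_apply, Finsupp.single_eq_of_ne (Ne.symm hi), Nat.sub_zero]
  rw [h1]
  split_ifs <;> simp

private theorem part_vt_mul (n : ℕ) (P : Fin 2 → K) (f : MvPolynomial (Fin 3) K) :
    part n (vt P * f) = vt P * part n f := by
  unfold vt
  rw [add_mul, part_add, mul_assoc, mul_assoc, part_C_mul, part_C_mul,
    part_X_mul n (by decide), part_X_mul n (by decide)]
  ring

private theorem part_vt_pow_mul (n c : ℕ) (P : Fin 2 → K) (f : MvPolynomial (Fin 3) K) :
    part n (vt P ^ c * f) = vt P ^ c * part n f := by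
  induction c with
  | zero => simp
  | succ c ih =>
    rw [pow_succ', mul_assoc, part_vt_mul, ih, mul_assoc]

theorem dvd_part {P : Fin 2 → K} {c n : ℕ} {f : MvPolynomial (Fin 3) K} (h : vt P ^ c ∣ f) :
    vt P ^ c ∣ part n f := by
  obtain ⟨g, rfl⟩ := h
  rw [part_vt_pow_mul]
  exact dvd_mul_right _ _

private theorem part_part (n : ℕ) (f : MvPolynomial (Fin 3) K) : part n (part n f) = part n f := by
  ext m
  rw [coeff_part, coeff_part]
  split_ifs <;> rfl

private theorem X_dvd_part (n : ℕ) (f : MvPolynomial (Fin 3) K) : X 2 ^ n ∣ part n f := by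
  unfold part
  refine Finset.dvd_sum fun m hm => ?_
  rw [Finset.mem_filter] at hm
  refine ⟨monomial (m - Finsupp.single 2 n) (coeff m f), ?_⟩
  rw [X_pow_eq_monomial, monomial_mul, one_mul]
  congr 1
  rw [add_tsub_cancel_of_le]
  rw [Finsupp.single_le_iff, hm.2]

private theorem part_sum (f : MvPolynomial (Fin 3) K) :
    ∑ n ∈ Finset.range (degreeOf 2 f + 1), part n f = f := by
  ext m
  rw [coeff_sum]
  simp only [coeff_part]
  rw [Finset.sum_ite_eq]
  by_cases h0 : coeff m f = 0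
  · rw [h0]; simp
  · rw [if_pos]
    rw [Finset.mem_range]
    have := monomial_le_degreeOf 2 (mem_support_iff.2 h0)
    omega

private theorem sh_sh (e : Fin 2 → K) (r : MvPolynomial (Fin 3) K) :
    sh e (sh (fun i => -e i) r) = r := by
  have h : (sh e).comp (sh (fun i => -e i)) = AlgHom.id K _ := by
    apply algHom_ext
    intro i
    unfold sh
    fin_cases i <;> simp
  have h2 := congrArg (fun f => f r) h
  simpa using h2

private theorem sh_vt {P e : Fin 2 → K} (he : P 0 * e 0 + P 1 * e 1 = 1) : sh e (vt P) = ln P := by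
  unfold sh ln vt
  have h1 : (C (P 0) * C (e 0) + C (P 1) * C (e 1) : MvPolynomial (Fin 3) K) = 1 := by
    rw [← C_mul, ← C_mul, ← C_add, he, C_1]
  simp only [map_add, map_mul, aeval_X, algHom_C, algebraMap_eq, Matrix.cons_val_zero,
    Matrix.cons_val_one]
  linear_combination X 2 * h1

private theorem sh_X2 (e : Fin 2 → K) : sh e (X 2) = X 2 := by
  unfold sh
  simp

/-- type 1 from the parts -/
theorem type_one {ρ W : ℕ} {P e : Fin 2 → K} (he : P 0 * e 0 + P 1 * e 1 = 1)
    {r : MvPolynomial (Fin 3) K}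
    (h : ∀ n, n < W → vt P ^ min (W + 1) (ρ - n) ∣ part n (sh (fun i => -e i) r)) :
    r ∈ J ρ (W + 1) W (ln P) (X 2) := by
  set f := sh (fun i => -e i) r with hf
  have hr : r = sh e f := (sh_sh e r).symm
  rw [hr, ← part_sum f, map_sum]
  refine Ideal.sum_mem _ fun n _ => ?_
  by_cases hn : n < W
  · obtain ⟨g, hg⟩ := h n hn
    have h1 : part n f = vt P ^ min (W + 1) (ρ - n) * part n g := by
      rw [← part_vt_pow_mul, ← hg, part_part]
    obtain ⟨s, hs⟩ := X_dvd_part n g
    rw [h1, hs, map_mul, map_mul, map_pow, map_pow, sh_vt he, sh_X2]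
    rcases le_total (W + 1) (ρ - n) with h2 | h2
    · rw [min_eq_left h2]
      exact J_left (Dvd.intro _ rfl)
    · rw [min_eq_right h2]
      unfold J
      refine Ideal.mem_sup_left ?_
      rw [← mul_assoc]
      refine Ideal.mul_mem_right _ _ ?_
      have h3 : ln P ^ (ρ - n) * X 2 ^ n ∈ Ideal.span {ln P, X 2} ^ (ρ - n + n) := by
        rw [pow_add]
        exact Ideal.mul_mem_mul
          (Ideal.pow_mem_pow (Ideal.subset_span (by simp)) _)
          (Ideal.pow_mem_pow (Ideal.subset_span (by simp)) _)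
      exact Ideal.pow_le_pow_right (by omega) h3
  · obtain ⟨s, hs⟩ := X_dvd_part n f
    rw [hs, map_mul, map_pow, sh_X2]
    exact J_right (dvd_mul_of_dvd_left (pow_dvd_pow _ (by omega)) _)

theorem type_two {W : ℕ} {P e : Fin 2 → K} (he : P 0 * e 0 + P 1 * e 1 = 1)
    {r : MvPolynomial (Fin 3) K}
    (h : ∀ n, n < W → vt P ^ (W + 1) ∣ part n (sh (fun i => -e i) r)) :
    r ∈ Ideal.span {ln P ^ (W + 1)} ⊔ Ideal.span {(X 2) ^ W} := by
  set f := sh (fun i => -e i) r with hf
  have hr : r = sh e f := (sh_sh e r).symm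
  rw [hr, ← part_sum f, map_sum]
  refine Ideal.sum_mem _ fun n _ => ?_
  by_cases hn : n < W
  · obtain ⟨g, hg⟩ := h n hn
    rw [hg, map_mul, map_pow, sh_vt he]
    exact Ideal.mem_sup_left (Ideal.mem_span_singleton.2 (Dvd.intro _ rfl))
  · obtain ⟨s, hs⟩ := X_dvd_part n f
    rw [hs, map_mul, map_pow, sh_X2]
    exact Ideal.mem_sup_right (Ideal.mem_span_singleton.2
      (dvd_mul_of_dvd_left (pow_dvd_pow _ (by omega)) _))

end Pool.Agent.SplW.StatB
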